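import Pool.Agent.TH325.PI.Tow

set_option autoImplicit false

open scoped ComplexConjugate
open Finset Function Filter Topology

namespace Pool.Agent.TH325.PI

/-- the bound for the quadratic exponential sum -/
theorem gauss {F : Type} [Field F] [Fintype F] (h2 : (2 : F) ≠ 0) (ψ : AddChar (F × F) ℂ)
    (hψ : ψ ≠ 0) : ‖∑ x : F, ψ (x, x ^ 2)‖ ^ 2 ≤ Fintype.card F := by
  classical
  let ψ2 : AddChar F ℂ := ψ.compAddMonoidHom (AddMonoidHom.inr F F)
  have hψ2 : ∀ y, ψ2 y = ψ (0, y) := fun y => rfl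
  by_cases hv : ψ2 = 0
  · let ψ1 : AddChar F ℂ := ψ.compAddMonoidHom (AddMonoidHom.inl F F)
    have h1 : ∀ x y, ψ (x, y) = ψ1 x := by
      intro x y
      have h3 : ((x, y) : F × F) = (x, 0) + (0, y) := by simp
      rw [h3, AddChar.map_add_eq_mul]
      have h4 : ψ (0, y) = 1 := (AddChar.eq_zero_iff.1 hv) y
      rw [h4, mul_one]
      rfl
    have h4 : ψ1 ≠ 0 := by
      intro h
      apply hψ
      rw [AddChar.eq_zero_iff]
      rintro ⟨x, y⟩
      rw [h1, h]
      rfl
    simp only [h1]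
    rw [AddChar.sum_eq_zero_iff_ne_zero.2 h4]
    simp
  · have key : ((‖∑ x : F, ψ (x, x ^ 2)‖ ^ 2 : ℝ) : ℂ) = Fintype.card F := by
      push_cast
      rw [← Complex.conj_mul', map_sum, Finset.sum_mul_sum]
      have e1 : ∀ y x : F, conj (ψ (y, y ^ 2)) * ψ (x, x ^ 2) = ψ (x - y, x ^ 2 - y ^ 2) := by
        intro y x
        rw [← AddChar.map_neg_eq_conj, ← AddChar.map_add_eq_mul]
        congr 1
        ext
        · simp; ring
        · simp; ring
      simp only [e1]
      have e2 : ∀ y : F, ∑ x : F, ψ (x - y, x ^ 2 - y ^ 2) =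
          ∑ h : F, ψ (h, h ^ 2) * ψ2 (2 * h * y) := by
        intro y
        refine Fintype.sum_equiv (Equiv.subRight y) _ _ fun x => ?_
        rw [hψ2, ← AddChar.map_add_eq_mul]
        congr 1
        ext
        · simp
        · simp; ring
      simp only [e2]
      rw [Finset.sum_comm]
      have e3 : ∀ h : F, ∑ y : F, ψ (h, h ^ 2) * ψ2 (2 * h * y) =
          if h = 0 then (Fintype.card F : ℂ) else 0 := by
        intro h
        rw [← Finset.mul_sum]
        have e4 := AddChar.sum_eq_ite (ψ2.mulShift (2 * h))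
        simp only [AddChar.mulShift_apply] at e4
        rw [e4]
        by_cases hh : h = 0
        · subst hh
          rw [if_pos rfl, if_pos]
          · have : ψ ((0 : F), (0 : F) ^ 2) = 1 := by
              have h5 : (((0 : F), (0 : F) ^ 2) : F × F) = 0 := by
                ext <;> simp
              rw [h5, AddChar.map_zero_eq_one]
            rw [this, one_mul]
          · rw [mul_zero, AddChar.mulShift_zero, AddChar.one_eq_zero]
        · rw [if_neg hh, if_neg, mul_zero]
          intro h5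
          apply hv
          rw [AddChar.eq_zero_iff] at h5 ⊢
          intro z
          have h6 := h5 ((2 * h)⁻¹ * z)
          rw [AddChar.mulShift_apply, mul_inv_cancel_left₀ (mul_ne_zero h2 hh)] at h6
          exact h6
      simp only [e3]
      simp
    have : ‖∑ x : F, ψ (x, x ^ 2)‖ ^ 2 = Fintype.card F := by exact_mod_cast key
    exact this.le

section Ext

variable {Γ : Type} [AddCommGroup Γ] (G : AddSubgroup Γ)

/-- extension by zero of a character of a subgroup -/
noncomputable def xt (τ : AddChar G ℂ) (a : Γ) : ℂ :=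
  open Classical in if h : a ∈ G then τ ⟨a, h⟩ else 0

theorem xt_in (τ : AddChar G ℂ) (a : Γ) (h : a ∈ G) : xt G τ a = τ ⟨a, h⟩ := by
  unfold xt
  rw [dif_pos h]

theorem xt_out (τ : AddChar G ℂ) (a : Γ) (h : a ∉ G) : xt G τ a = 0 := by
  unfold xt
  rw [dif_neg h]

theorem xt_add (τ : AddChar G ℂ) (a b : Γ) (ha : a ∈ G) (hb : b ∈ G) :
    xt G τ (a + b) = xt G τ a * xt G τ b := by
  rw [xt_in G τ a ha, xt_in G τ b hb, xt_in G τ (a + b) (G.add_mem ha hb),
    ← AddChar.map_add_eq_mul]
  rfl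

variable [Finite G]

theorem xt_norm (τ : AddChar G ℂ) (a : Γ) (h : a ∈ G) : ‖xt G τ a‖ = 1 := by
  rw [xt_in G τ a h]
  exact τ.norm_apply _

theorem xt_neg (τ : AddChar G ℂ) (a : Γ) : xt G τ (-a) = conj (xt G τ a) := by
  by_cases ha : a ∈ G
  · rw [xt_in G τ a ha, xt_in G τ (-a) (G.neg_mem ha), ← AddChar.map_neg_eq_conj]
    rfl
  · rw [xt_out G τ a ha, xt_out G τ (-a) (fun h => ha (by simpa using G.neg_mem h)), map_zero]

/-- the finite subgroup as a finite set -/
noncomputable def fs : Finset Γ := (Set.toFinite (G : Set Γ)).toFinset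

theorem mem_fs (a : Γ) : a ∈ fs G ↔ a ∈ G := by
  unfold fs
  rw [Set.Finite.mem_toFinset]
  rfl

theorem card_fs [Fintype G] : (fs G).card = Fintype.card G :=
  (Fintype.card_of_subtype (fs G) (mem_fs G)).symm

theorem xt_sum (a : Γ) : ∑ τ : AddChar G ℂ, xt G τ a =
    open Classical in if a = 0 then ((fs G).card : ℂ) else 0 := by
  classical
  have := Fintype.ofFinite G
  by_cases ha : a ∈ G
  · simp only [xt_in G _ a ha]
    rw [AddChar.sum_apply_eq_ite, card_fs]
    by_cases h0 : a = 0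
    · subst h0
      rw [if_pos rfl, if_pos]
      rfl
    · rw [if_neg h0, if_neg]
      intro h
      exact h0 (congrArg Subtype.val h)
  · simp only [xt_out G _ a ha]
    rw [Finset.sum_const_zero, if_neg]
    rintro rfl
    exact ha G.zero_mem

theorem xt_orth (τ τ' : AddChar G ℂ) : ∑ a ∈ fs G, xt G τ a * conj (xt G τ' a) =
    open Classical in if τ = τ' then ((fs G).card : ℂ) else 0 := by
  classical
  have := Fintype.ofFinite G
  rw [Finset.sum_subtype (fs G) (mem_fs G)]
  have h1 : ∀ a : {x // x ∈ G}, xt G τ (a : Γ) * conj (xt G τ' (a : Γ)) = (τ - τ') a := by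
    intro a
    rw [xt_in G τ a a.2, xt_in G τ' a a.2, AddChar.sub_apply, AddChar.map_neg_eq_conj]
  simp only [h1]
  rw [AddChar.sum_eq_ite, card_fs]
  by_cases h : τ = τ'
  · rw [if_pos h, if_pos (sub_eq_zero.2 h)]
  · rw [if_neg h, if_neg (fun h' => h (sub_eq_zero.1 h'))]

end Ext

/-- restriction of characters to a smaller subgroup -/
noncomputable def rst {Γ : Type} [AddCommGroup Γ] (G G' : AddSubgroup Γ) (τ : AddChar G' ℂ) :
    AddChar G ℂ :=
  open Classical in if h : G ≤ G' then τ.compAddMonoidHom (AddSubgroup.inclusion h) else 1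

theorem rst_xt {Γ : Type} [AddCommGroup Γ] (G G' : AddSubgroup Γ) (h : G ≤ G')
    (τ : AddChar G' ℂ) (a : Γ) (ha : a ∈ G) : xt G (rst G G' τ) a = xt G' τ a := by
  rw [xt_in G _ a ha, xt_in G' _ a (h ha)]
  unfold rst
  rw [dif_pos h]
  rfl

/-- the square of a subfield -/
def sqr {K : Type} [Field K] (F : Subfield K) : AddSubgroup (K × K) where
  carrier := {p | p.1 ∈ F ∧ p.2 ∈ F}
  zero_mem' := ⟨F.zero_mem, F.zero_mem⟩
  add_mem' := fun ha hb => ⟨F.add_mem ha.1 hb.1, F.add_mem ha.2 hb.2⟩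
  neg_mem' := fun ha => ⟨F.neg_mem ha.1, F.neg_mem ha.2⟩

theorem mem_sqr {K : Type} [Field K] (F : Subfield K) (p : K × K) :
    p ∈ sqr F ↔ p.1 ∈ F ∧ p.2 ∈ F := Iff.rfl

/-- the inclusion of the product -/
def toSqr {K : Type} [Field K] (F : Subfield K) : F × F →+ sqr F where
  toFun p := ⟨(p.1, p.2), ⟨p.1.2, p.2.2⟩⟩
  map_zero' := rfl
  map_add' := fun _ _ => rfl

theorem toSqr_surj {K : Type} [Field K] (F : Subfield K) : Function.Surjective (toSqr F) := by
  rintro ⟨⟨x, y⟩, hx, hy⟩
  exact ⟨(⟨x, hx⟩, ⟨y, hy⟩), rfl⟩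

theorem toSqr_inj {K : Type} [Field K] (F : Subfield K) : Function.Injective (toSqr F) := by
  rintro ⟨x, y⟩ ⟨x', y'⟩ h
  have h1 := congrArg Subtype.val h
  have h2 : ((x : K), (y : K)) = ((x' : K), (y' : K)) := h1
  rw [Prod.mk.injEq] at h2
  exact Prod.ext (Subtype.ext h2.1) (Subtype.ext h2.2)

instance {K : Type} [Field K] (F : Subfield K) [Finite F] : Finite (sqr F) :=
  Finite.of_surjective _ (toSqr_surj F)

theorem card_sqr {K : Type} [Field K] (F : Subfield K) [Fintype F] [Fintype (sqr F)] :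
    Fintype.card (sqr F) = Fintype.card F ^ 2 := by
  rw [← Fintype.card_congr (Equiv.ofBijective _ ⟨toSqr_inj F, toSqr_surj F⟩), Fintype.card_prod,
    sq]

/-- the points of the parabola over a subfield -/
noncomputable def par {K : Type} [Field K] (F : Subfield K) [Finite F] : Finset (K × K) :=
  open Classical in ((Set.toFinite (F : Set K)).toFinset).image (fun x => (x, x ^ 2))

theorem mem_par {K : Type} [Field K] (F : Subfield K) [Finite F] (a : K × K) :
    a ∈ par F ↔ a ∈ {p : K × K | p.2 = p.1 ^ 2} ∧ a ∈ fs (sqr F) := by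
  classical
  unfold par
  rw [Finset.mem_image, mem_fs, mem_sqr]
  constructor
  · rintro ⟨x, hx, rfl⟩
    rw [Set.Finite.mem_toFinset] at hx
    exact ⟨rfl, hx, F.pow_mem hx 2⟩
  · rintro ⟨h1, h2, _⟩
    refine ⟨a.1, ?_, ?_⟩
    · rw [Set.Finite.mem_toFinset]
      exact h2
    · exact Prod.ext rfl h1.symm

theorem sum_par {K : Type} [Field K] (F : Subfield K) [Fintype F] {E : Type*} [AddCommMonoid E]
    (f : K × K → E) : ∑ a ∈ par F, f a = ∑ x : F, f ((x : K), (x : K) ^ 2) := by
  classical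
  unfold par
  rw [Finset.sum_image]
  · refine Finset.sum_subtype _ (fun x => ?_) _
    rw [Set.Finite.mem_toFinset]
    rfl
  · intro x _ y _ h
    exact congrArg Prod.fst h

theorem card_par {K : Type} [Field K] (F : Subfield K) [Fintype F] :
    (par F).card = Fintype.card F := by
  have h := sum_par F (fun _ => (1 : ℕ))
  simpa using h

theorem bias_par {K : Type} [Field K] (h2 : (2 : K) ≠ 0) (F : Subfield K) [Fintype F]
    (τ τ' : AddChar (sqr F) ℂ) (hne : τ ≠ τ') :
    ‖∑ a ∈ par F, xt (sqr F) τ a * conj (xt (sqr F) τ' a)‖ ≤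
      (√(Fintype.card F : ℝ))⁻¹ * (par F).card := by
  classical
  rw [sum_par, card_par]
  let ψ : AddChar (F × F) ℂ := (τ - τ').compAddMonoidHom (toSqr F)
  have h1 : ∀ x : F, xt (sqr F) τ ((x : K), (x : K) ^ 2) * conj (xt (sqr F) τ' ((x : K), (x : K) ^ 2)) =
      ψ (x, x ^ 2) := by
    intro x
    have hx : ((x : K), (x : K) ^ 2) ∈ sqr F := ⟨x.2, F.pow_mem x.2 2⟩
    rw [xt_in _ τ _ hx, xt_in _ τ' _ hx, ← AddChar.map_neg_eq_conj, ← AddChar.sub_apply]
    rfl
  simp only [h1]
  have h2' : (2 : F) ≠ 0 := by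
    intro h
    apply h2
    have := congrArg (Subtype.val : F → K) h
    exact this
  have hψ : ψ ≠ 0 := by
    intro h
    apply hne
    rw [← sub_eq_zero, AddChar.eq_zero_iff]
    intro p
    obtain ⟨q, rfl⟩ := toSqr_surj F p
    exact (AddChar.eq_zero_iff.1 h) q
  have h3 := gauss h2' ψ hψ
  have hq : (0 : ℝ) < Fintype.card F := by exact_mod_cast Fintype.card_pos
  have h4 : ‖∑ x : F, ψ (x, x ^ 2)‖ ≤ √(Fintype.card F : ℝ) := Real.le_sqrt_of_sq_le h3
  refine h4.trans (le_of_eq ?_)
  have h5 := Real.mul_self_sqrt hq.le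
  have h6 : √(Fintype.card F : ℝ) ≠ 0 := (Real.sqrt_pos.2 hq).ne'
  rw [eq_inv_mul_iff_mul_eq₀ h6]
  exact h5

/-- the tower attached to an exhaustion of a field by finite subfields -/
noncomputable def mkTow {K : Type} [Field K] [Infinite K] (h2 : (2 : K) ≠ 0) (F : ℕ → Subfield K)
    (hfin : ∀ n, Finite (F n)) (hmono : ∀ m n, m ≤ n → F m ≤ F n)
    (hex : ∀ x, ∃ n, x ∈ F n) : Tow (K × K) :=
  have hsq : ∀ m n, m ≤ n → sqr (F m) ≤ sqr (F n) := fun m n hmn p hp =>
    ⟨hmono m n hmn hp.1, hmono m n hmn hp.2⟩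
  have hcard : Tendsto (fun n => ((par (F n)).card : ℝ)) atTop atTop := by
    classical
    rw [tendsto_atTop]
    intro b
    obtain ⟨B, hB⟩ := exists_nat_ge b
    obtain ⟨s, hs⟩ := Infinite.exists_subset_card_eq K B
    choose f hf using hex
    filter_upwards [eventually_ge_atTop (s.sup f)] with n hn
    refine hB.trans ?_
    have h1 : s.image (fun x => (x, x ^ 2)) ⊆ par (F n) := by
      intro p hp
      rw [Finset.mem_image] at hp
      obtain ⟨x, hx, rfl⟩ := hp
      have hxF : x ∈ F n := hmono (f x) n ((Finset.le_sup hx).trans hn) (hf x)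
      rw [mem_par]
      exact ⟨rfl, (mem_fs _ _).2 ⟨hxF, (F n).pow_mem hxF 2⟩⟩
    have h3 := Finset.card_le_card h1
    rw [Finset.card_image_of_injective _ (fun x y h => congrArg Prod.fst h), hs] at h3
    exact_mod_cast h3
  have hcardF : ∀ n, letI := Fintype.ofFinite (F n)
      ((par (F n)).card : ℝ) = Fintype.card (F n) := fun n => by
    let _ := Fintype.ofFinite (F n)
    rw [card_par]
  { Om := fun n => AddChar (sqr (F n)) ℂ
    finOm := fun n => inferInstance
    H := fun n => fs (sqr (F n))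
    zero_mem := fun n => (mem_fs _ _).2 (sqr (F n)).zero_mem
    add_mem := fun n a b ha hb => (mem_fs _ _).2
      ((sqr (F n)).add_mem ((mem_fs _ _).1 ha) ((mem_fs _ _).1 hb))
    neg_mem := fun n a ha => (mem_fs _ _).2 ((sqr (F n)).neg_mem ((mem_fs _ _).1 ha))
    mono := fun m n hmn a ha => (mem_fs _ _).2 (hsq m n hmn ((mem_fs _ _).1 ha))
    exhaust := fun a => by
      obtain ⟨n, hn⟩ := hex a.1
      obtain ⟨m, hm⟩ := hex a.2
      exact ⟨max n m, (mem_fs _ _).2 ⟨hmono _ _ (le_max_left _ _) hn,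
        hmono _ _ (le_max_right _ _) hm⟩⟩
    ch := fun n τ a => xt (sqr (F n)) τ a
    ch_out := fun n τ a ha => xt_out _ τ a (fun h => ha ((mem_fs _ _).2 h))
    ch_norm := fun n τ a ha => xt_norm _ τ a ((mem_fs _ _).1 ha)
    ch_add := fun n τ a b ha hb => xt_add _ τ a b ((mem_fs _ _).1 ha) ((mem_fs _ _).1 hb)
    ch_neg := fun n τ a => xt_neg _ τ a
    sum_ch := fun n a => xt_sum _ a
    orth := fun n τ τ' => xt_orth _ τ τ'
    res := fun m n τ => rst (sqr (F m)) (sqr (F n)) τ
    res_ch := fun m n hmn τ a ha => rst_xt _ _ (hsq m n hmn) τ a ((mem_fs _ _).1 ha)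
    E := {p | p.2 = p.1 ^ 2}
    sidon := by
      rintro ⟨a, a'⟩ ⟨b, b'⟩ ⟨c, c'⟩ ⟨d, d'⟩ ha hb hc hd h
      simp only [Set.mem_ofPred_eq] at ha hb hc hd
      subst ha hb hc hd
      rw [Prod.mk_add_mk, Prod.mk_add_mk, Prod.mk.injEq] at h
      obtain ⟨e1, e2⟩ := h
      by_cases hac : a = c
      · subst hac
        have : b = d := add_left_cancel e1
        subst this
        exact Or.inl ⟨rfl, rfl⟩
      · have e3 : (a - c) * (a - d) = 0 := by
          have e4 : b = c + d - a := by rw [← e1]; ring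
          rw [e4] at e2
          have e5 : 2 * ((a - c) * (a - d)) = 0 := by linear_combination e2
          exact (mul_eq_zero.1 e5).resolve_left h2
        have e6 : a = d := sub_eq_zero.1 ((mul_eq_zero.1 e3).resolve_left (sub_ne_zero.2 hac))
        subst e6
        have : b = c := by
          have : a + b = a + c := by rw [e1]; ring
          exact add_left_cancel this
        subst this
        exact Or.inr ⟨rfl, rfl⟩
    Ef := fun n => par (F n)
    mem_Ef := fun n a => mem_par (F n) a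
    bi := fun n => (√((par (F n)).card : ℝ))⁻¹
    bias := fun n τ τ' hne => by
      let _ := Fintype.ofFinite (F n)
      have h := bias_par h2 (F n) τ τ' hne
      rwa [← card_par] at h
    bi_lim := by
      exact (tendsto_inv_atTop_zero.comp (Real.tendsto_sqrt_atTop.comp hcard))
    card_lim := hcard
    rho_lim := by
      have h1 : ∀ n, ((par (F n)).card : ℝ) / ((fs (sqr (F n))).card : ℝ) =
          ((par (F n)).card : ℝ)⁻¹ := by
        intro n
        let _ := Fintype.ofFinite (F n)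
        let _ := Fintype.ofFinite (sqr (F n))
        rw [card_par, card_fs, card_sqr]
        push_cast
        have hq : ((Fintype.card (F n) : ℕ) : ℝ) ≠ 0 := by
          exact_mod_cast Fintype.card_ne_zero
        field_simp
      simp only [h1]
      exact tendsto_inv_atTop_zero.comp hcard }

/-- the field -/
abbrev K3 : Type := AlgebraicClosure (ZMod 3)

instance fact3 : Fact (Nat.Prime 3) := ⟨Nat.prime_three⟩

/-- the finite subfields -/
noncomputable def F3 (n : ℕ) : Subfield K3 :=
  (iterateFrobenius K3 3 n.factorial).eqLocusField (RingHom.id K3)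

theorem mem_F3 (n : ℕ) (x : K3) : x ∈ F3 n ↔ x ^ 3 ^ n.factorial = x := by
  unfold F3
  rw [RingHom.mem_eqLocusField, iterateFrobenius_def, RingHom.id_apply]

theorem fin_F3 (n : ℕ) : Finite (F3 n) := by
  have h1 : (Polynomial.X ^ (3 ^ n.factorial) - Polynomial.X : Polynomial K3) ≠ 0 :=
    FiniteField.X_pow_card_sub_X_ne_zero K3 (Nat.one_lt_pow (Nat.factorial_ne_zero n) (by norm_num))
  have h2 : Set.Finite {x : K3 | x ∈ F3 n} := by
    refine (Polynomial.rootSet_finite (Polynomial.X ^ (3 ^ n.factorial) - Polynomial.X :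
      Polynomial K3) K3).subset fun x hx => ?_
    rw [Polynomial.mem_rootSet]
    refine ⟨h1, ?_⟩
    have := (mem_F3 n x).1 hx
    simp [this]
  exact h2.to_subtype

theorem pow_dvd_fix (x : K3) (a k : ℕ) (h : x ^ 3 ^ a = x) : x ^ 3 ^ (a * k) = x := by
  induction k with
  | zero => simp
  | succ k ih => rw [Nat.mul_succ, pow_add, pow_mul, ih, h]

theorem mono_F3 (m n : ℕ) (h : m ≤ n) : F3 m ≤ F3 n := by
  intro x hx
  rw [mem_F3] at hx ⊢
  obtain ⟨k, hk⟩ := Nat.factorial_dvd_factorial h
  rw [hk]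
  exact pow_dvd_fix x _ k hx

theorem ex_F3 (x : K3) : ∃ n, x ∈ F3 n := by
  have hint : IsIntegral (ZMod 3) x := Algebra.IsIntegral.isIntegral x
  let L := IntermediateField.adjoin (ZMod 3) {x}
  have : FiniteDimensional (ZMod 3) L := IntermediateField.adjoin.finiteDimensional hint
  have : Finite L := Module.finite_of_finite (ZMod 3)
  let _ := Fintype.ofFinite L
  have h1 : Fintype.card L = 3 ^ Module.finrank (ZMod 3) L := by
    rw [Module.card_eq_pow_finrank (K := ZMod 3) (V := L), ZMod.card]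
  have hx : x ∈ L := IntermediateField.mem_adjoin_simple_self (ZMod 3) x
  have h3 := FiniteField.pow_card (⟨x, hx⟩ : L)
  have h4 : x ^ 3 ^ Module.finrank (ZMod 3) L = x := by
    rw [h1] at h3
    exact congrArg Subtype.val h3
  refine ⟨Module.finrank (ZMod 3) L, ?_⟩
  rw [mem_F3]
  have hpos : 0 < Module.finrank (ZMod 3) L := Module.finrank_pos
  obtain ⟨k, hk⟩ := Nat.dvd_factorial hpos le_rfl
  rw [hk]
  exact pow_dvd_fix x _ k h4

theorem two_ne_K3 : (2 : K3) ≠ 0 := by
  intro h
  have h1 : ((2 : ℕ) : K3) = 0 := by exact_mod_cast h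
  rw [CharP.cast_eq_zero_iff K3 3 2] at h1
  omega

/-- the tower of squares of finite fields of characteristic three -/
noncomputable def tow3 : Tow (K3 × K3) := mkTow two_ne_K3 F3 fin_F3 mono_F3 ex_F3

end Pool.Agent.TH325.PI
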