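import Pool.Agent.Helper597.PNIDefs

set_option autoImplicit false

open Finset Function Filter Topology Pool.Agent.Helper597.PNI

namespace Pool.Agent.TH325.PI

section Index

variable {X : Type} [NormedAddCommGroup X] [NormedSpace ℂ X]

theorem idx_bdd {k : ℕ} (A : ContinuousMultilinearMap ℂ (fun _ : Fin k => X) X) (x : X)
    (hx : ‖x‖ ≤ 1) : ‖A fun _ => x‖ ≤ ‖A‖ := by
  have h := A.le_opNorm (fun _ => x)
  have h1 : ∏ _i : Fin k, ‖x‖ ≤ 1 := Finset.prod_le_one (fun _ _ => norm_nonneg _) (fun _ _ => hx)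
  calc ‖A fun _ => x‖ ≤ ‖A‖ * ∏ _i : Fin k, ‖x‖ := h
    _ ≤ ‖A‖ * 1 := mul_le_mul_of_nonneg_left h1 (norm_nonneg _)
    _ = ‖A‖ := mul_one _

theorem idx_le {k : ℕ} (A : ContinuousMultilinearMap ℂ (fun _ : Fin k => X) X) (x : X)
    (hx : ‖x‖ ≤ 1) : ‖A fun _ => x‖ ≤ polyNorm A := by
  refine le_csSup ⟨‖A‖, ?_⟩ ⟨x, hx, rfl⟩
  rintro r ⟨y, hy, rfl⟩
  exact idx_bdd A y hy

variable (X) in
theorem idx_unit [Nontrivial X] : ∃ (u : X) (g : X →L[ℂ] ℂ), ‖u‖ = 1 ∧ ‖g‖ = 1 ∧ g u = 1 := by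
  obtain ⟨u, hu⟩ := exists_norm_eq X (zero_le_one (α := ℝ))
  have hu0 : ‖u‖ ≠ 0 := by
    rw [hu]
    exact one_ne_zero
  obtain ⟨g, hg, hgu⟩ := exists_dual_vector ℂ u hu0
  refine ⟨u, g, hu, hg, ?_⟩
  rw [hgu, hu]
  simp

theorem idx_radius [Nontrivial X] {k : ℕ}
    (hn : ∀ (A : ContinuousMultilinearMap ℂ (fun _ : Fin k => X) X) (z : X), ‖z‖ ≤ 1 → ∀ ε : ℝ,
      0 < ε → ∃ (y : X) (f : X →L[ℂ] ℂ), ‖y‖ = 1 ∧ ‖f‖ = 1 ∧ f y = 1 ∧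
        ‖A fun _ => z‖ - ε < ‖f (A fun _ => y)‖)
    (A : ContinuousMultilinearMap ℂ (fun _ : Fin k => X) X) (hA : polyNorm A = 1) :
    numRadius A = 1 := by
  have hub : ∀ r ∈ {r : ℝ | ∃ (x : X) (f : X →L[ℂ] ℂ), ‖x‖ = 1 ∧ ‖f‖ = 1 ∧ f x = 1 ∧
      r = ‖f (A fun _ => x)‖}, r ≤ 1 := by
    rintro r ⟨x, f, hx, hf, _, rfl⟩
    calc ‖f (A fun _ => x)‖ ≤ ‖f‖ * ‖A fun _ => x‖ := f.le_opNorm _
      _ = ‖A fun _ => x‖ := by rw [hf, one_mul]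
      _ ≤ polyNorm A := idx_le A x hx.le
      _ = 1 := hA
  apply le_antisymm
  · obtain ⟨u, g, hu, hg, hgu⟩ := idx_unit X
    exact csSup_le ⟨_, u, g, hu, hg, hgu, rfl⟩ hub
  · refine le_of_forall_lt fun r hr => ?_
    have h1 : r < polyNorm A := by rw [hA]; exact hr
    obtain ⟨s, ⟨x, hx, rfl⟩, hrs⟩ := exists_lt_of_lt_csSup
      (s := {r : ℝ | ∃ x : X, ‖x‖ ≤ 1 ∧ r = ‖A fun _ => x‖}) ⟨_, 0, by simp, rfl⟩ h1
    obtain ⟨y, f, hy, hf, hfy, h⟩ := hn A x hx (‖A fun _ => x‖ - r) (by linarith)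
    have h2 : r < ‖f (A fun _ => y)‖ := by linarith
    exact lt_of_lt_of_le h2 (le_csSup ⟨1, hub⟩ ⟨y, f, hy, hf, hfy, rfl⟩)

variable (X) in
theorem idx_exists [Nontrivial X] (k : ℕ) :
    ∃ A : ContinuousMultilinearMap ℂ (fun _ : Fin k => X) X, polyNorm A = 1 := by
  obtain ⟨u, g, hu, hg, hgu⟩ := idx_unit X
  refine ⟨(ContinuousLinearMap.smulRight (1 : ℂ →L[ℂ] ℂ) u).compContinuousMultilinearMap
    ((ContinuousMultilinearMap.mkPiAlgebra ℂ (Fin k) ℂ).compContinuousLinearMap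
      (fun _ => g)), ?_⟩
  have hval : ∀ x : X, ‖((ContinuousLinearMap.smulRight (1 : ℂ →L[ℂ] ℂ) u).compContinuousMultilinearMap
    ((ContinuousMultilinearMap.mkPiAlgebra ℂ (Fin k) ℂ).compContinuousLinearMap
      (fun _ => g))) fun _ => x‖ = ‖g x‖ ^ k := by
    intro x
    simp [norm_smul, hu]
  have hg1 : IsGreatest {r : ℝ | ∃ x : X, ‖x‖ ≤ 1 ∧ r =
      ‖((ContinuousLinearMap.smulRight (1 : ℂ →L[ℂ] ℂ) u).compContinuousMultilinearMap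
    ((ContinuousMultilinearMap.mkPiAlgebra ℂ (Fin k) ℂ).compContinuousLinearMap
      (fun _ => g))) fun _ => x‖} 1 := by
    constructor
    · refine ⟨u, hu.le, ?_⟩
      rw [hval, hgu]
      simp
    · rintro r ⟨x, hx, rfl⟩
      rw [hval]
      refine pow_le_one₀ (norm_nonneg _) ?_
      calc ‖g x‖ ≤ ‖g‖ * ‖x‖ := g.le_opNorm _
        _ = ‖x‖ := by rw [hg, one_mul]
        _ ≤ 1 := hx
  exact hg1.csSup_eq

theorem idx_one [Nontrivial X] {k : ℕ}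
    (hn : ∀ (A : ContinuousMultilinearMap ℂ (fun _ : Fin k => X) X) (z : X), ‖z‖ ≤ 1 → ∀ ε : ℝ,
      0 < ε → ∃ (y : X) (f : X →L[ℂ] ℂ), ‖y‖ = 1 ∧ ‖f‖ = 1 ∧ f y = 1 ∧
        ‖A fun _ => z‖ - ε < ‖f (A fun _ => y)‖) : polyIndex X k = 1 := by
  obtain ⟨A, hA⟩ := idx_exists X k
  have h : {r : ℝ | ∃ A : ContinuousMultilinearMap ℂ (fun _ : Fin k => X) X,
      polyNorm A = 1 ∧ r = numRadius A} = {1} := by
    ext r
    constructor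
    · rintro ⟨B, hB, rfl⟩
      exact idx_radius hn B hB
    · intro hr
      rw [Set.mem_singleton_iff] at hr
      exact ⟨A, hA, by rw [hr, idx_radius hn A hA]⟩
  unfold polyIndex
  rw [h]
  exact csInf_singleton 1

end Index

end Pool.Agent.TH325.PI
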