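import Mathlib

set_option autoImplicit false

open scoped ComplexConjugate
open Finset

namespace Pool.Agent.TH325.PI

/-- the sign of the coordinate `i` in the sign vector coded by the set `e` -/
noncomputable def sg (i : ℕ) (e : Finset ℕ) : ℂ := open Classical in if i ∈ e then 1 else -1

theorem sg_norm (i : ℕ) (e : Finset ℕ) : ‖sg i e‖ = 1 := by
  unfold sg
  split <;> simp

theorem sg_conj (i : ℕ) (e : Finset ℕ) : conj (sg i e) = sg i e := by
  unfold sg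
  split <;> simp

theorem sg_sq (i : ℕ) (e : Finset ℕ) : sg i e * sg i e = 1 := by
  unfold sg
  split <;> simp

theorem sg_not {i : ℕ} {e : Finset ℕ} (h : i ∉ e) : sg i e = -1 := by
  unfold sg
  rw [if_neg h]

theorem sg_insert_self (i : ℕ) (e : Finset ℕ) : sg i (insert i e) = 1 := by
  unfold sg
  rw [if_pos (Finset.mem_insert_self i e)]

theorem sg_insert {i j : ℕ} (h : i ≠ j) (e : Finset ℕ) : sg i (insert j e) = sg i e := by
  unfold sg
  by_cases hi : i ∈ e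
  · rw [if_pos hi, if_pos (Finset.mem_insert_of_mem hi)]
  · rw [if_neg hi, if_neg]
    rw [Finset.mem_insert]
    rintro (h1 | h1)
    · exact h h1
    · exact hi h1

/-- sums over the sign vectors of length `N + 1` -/
theorem sum_sg_succ {E : Type*} [AddCommMonoid E] (N : ℕ) (f : Finset ℕ → E) :
    ∑ e ∈ (range (N + 1)).powerset, f e =
      ∑ e ∈ (range N).powerset, (f e + f (insert N e)) := by
  rw [Finset.range_add_one, Finset.sum_powerset_insert (by simp), Finset.sum_add_distrib]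

theorem card_signs (N : ℕ) : ((range N).powerset.card : ℝ) = 2 ^ N := by
  rw [Finset.card_powerset, Finset.card_range]
  norm_num

/-- orthogonality of the signs -/
theorem sg_orth (N : ℕ) : ∀ i j, i < N → j < N →
    ∑ e ∈ (range N).powerset, sg i e * sg j e = if i = j then (2 : ℂ) ^ N else 0 := by
  induction N with
  | zero => intro i j hi; exact absurd hi (Nat.not_lt_zero i)
  | succ N ih =>
    intro i j hi hj
    by_cases hij : i = j
    · subst hij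
      rw [if_pos rfl]
      simp only [sg_sq]
      rw [Finset.sum_const, Finset.card_powerset, Finset.card_range]
      simp
    · rw [if_neg hij, sum_sg_succ]
      by_cases hiN : i = N
      · subst hiN
        have hjN : j ≠ i := fun h => hij h.symm
        refine Finset.sum_eq_zero fun e he => ?_
        have hne : i ∉ e := fun h => by
          have := Finset.mem_powerset.1 he h
          simp at this
        rw [sg_not hne, sg_insert_self, sg_insert hjN]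
        ring
      · by_cases hjN : j = N
        · subst hjN
          refine Finset.sum_eq_zero fun e he => ?_
          have hne : j ∉ e := fun h => by
            have := Finset.mem_powerset.1 he h
            simp at this
          rw [sg_not hne, sg_insert_self, sg_insert hiN]
          ring
        · have h := ih i j (by omega) (by omega)
          rw [if_neg hij] at h
          have h1 : ∀ e ∈ (range N).powerset, (sg i e * sg j e +
              sg i (insert N e) * sg j (insert N e)) = 2 * (sg i e * sg j e) := by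
            intro e _
            rw [sg_insert hiN, sg_insert hjN]
            ring
          rw [Finset.sum_congr rfl h1, ← Finset.mul_sum, h, mul_zero]

/-- the random sum -/
noncomputable def rs (N : ℕ) (w : ℕ → ℂ) (e : Finset ℕ) : ℂ := ∑ i ∈ range N, sg i e * w i

theorem rs_succ (N : ℕ) (w : ℕ → ℂ) (e : Finset ℕ) (he : e ∈ (range N).powerset) :
    rs (N + 1) w e = rs N w e - w N := by
  have hne : N ∉ e := fun h => by
    have := Finset.mem_powerset.1 he h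
    simp at this
  unfold rs
  rw [Finset.sum_range_succ, sg_not hne]
  ring

theorem rs_succ_insert (N : ℕ) (w : ℕ → ℂ) (e : Finset ℕ) :
    rs (N + 1) w (insert N e) = rs N w e + w N := by
  unfold rs
  rw [Finset.sum_range_succ, sg_insert_self, one_mul]
  congr 1
  refine Finset.sum_congr rfl fun i hi => ?_
  rw [sg_insert (Finset.mem_range.1 hi).ne]

theorem par2 (S z : ℂ) : ‖S - z‖ ^ 2 + ‖S + z‖ ^ 2 = 2 * ‖S‖ ^ 2 + 2 * ‖z‖ ^ 2 := by
  rw [← Complex.normSq_eq_norm_sq, ← Complex.normSq_eq_norm_sq, ← Complex.normSq_eq_norm_sq,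
    ← Complex.normSq_eq_norm_sq, Complex.normSq_sub, Complex.normSq_add]
  ring

theorem par4 (S z : ℂ) : ‖S - z‖ ^ 4 + ‖S + z‖ ^ 4 ≤
    2 * ‖S‖ ^ 4 + 12 * ‖S‖ ^ 2 * ‖z‖ ^ 2 + 2 * ‖z‖ ^ 4 := by
  have h4 : ∀ w : ℂ, ‖w‖ ^ 4 = Complex.normSq w ^ 2 := fun w => by
    rw [Complex.normSq_eq_norm_sq]
    ring
  have h2 : ∀ w : ℂ, ‖w‖ ^ 2 = Complex.normSq w := fun w => by
    rw [Complex.normSq_eq_norm_sq]
  rw [h4, h4, h4, h4, h2, h2, Complex.normSq_sub, Complex.normSq_add]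
  have h5 : (S * conj z).re ^ 2 ≤ Complex.normSq S * Complex.normSq z := by
    have h6 : (S * conj z).re ^ 2 ≤ Complex.normSq (S * conj z) := by
      rw [Complex.normSq_apply]
      nlinarith [sq_nonneg (S * conj z).im]
    rwa [Complex.normSq_mul, Complex.normSq_conj] at h6
  nlinarith

theorem rs_two (N : ℕ) (w : ℕ → ℂ) : ∑ e ∈ (range N).powerset, ‖rs N w e‖ ^ 2 =
    2 ^ N * ∑ i ∈ range N, ‖w i‖ ^ 2 := by
  induction N with
  | zero => simp [rs]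
  | succ N ih =>
    rw [sum_sg_succ]
    have h1 : ∀ e ∈ (range N).powerset, (‖rs (N + 1) w e‖ ^ 2 +
        ‖rs (N + 1) w (insert N e)‖ ^ 2) = 2 * ‖rs N w e‖ ^ 2 + 2 * ‖w N‖ ^ 2 := by
      intro e he
      rw [rs_succ N w e he, rs_succ_insert, par2]
    rw [Finset.sum_congr rfl h1, Finset.sum_add_distrib, ← Finset.mul_sum, ih,
      Finset.sum_const, nsmul_eq_mul, card_signs, Finset.sum_range_succ]
    ring

theorem rs_four (N : ℕ) (w : ℕ → ℂ) : ∑ e ∈ (range N).powerset, ‖rs N w e‖ ^ 4 ≤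
    3 * 2 ^ N * (∑ i ∈ range N, ‖w i‖ ^ 2) ^ 2 := by
  induction N with
  | zero => simp [rs]
  | succ N ih =>
    rw [sum_sg_succ]
    have h1 : ∀ e ∈ (range N).powerset, (‖rs (N + 1) w e‖ ^ 4 +
        ‖rs (N + 1) w (insert N e)‖ ^ 4) ≤ 2 * ‖rs N w e‖ ^ 4 +
          12 * ‖w N‖ ^ 2 * ‖rs N w e‖ ^ 2 + 2 * ‖w N‖ ^ 4 := by
      intro e he
      rw [rs_succ N w e he, rs_succ_insert]
      refine (par4 _ _).trans (le_of_eq ?_)
      ring
    refine (Finset.sum_le_sum h1).trans ?_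
    rw [Finset.sum_add_distrib, Finset.sum_add_distrib, ← Finset.mul_sum, ← Finset.mul_sum,
      rs_two, Finset.sum_const, nsmul_eq_mul, card_signs, Finset.sum_range_succ]
    have h2 : (0 : ℝ) < 2 ^ N := by positivity
    have h3 : 0 ≤ 2 ^ N * ‖w N‖ ^ 4 := by positivity
    have h4 : (2 : ℝ) ^ (N + 1) = 2 * 2 ^ N := by ring
    rw [h4]
    nlinarith [ih, h3]

/-- the elementary inequality behind the truncation -/
theorem trunc_real (a A F u y : ℝ) (ha : 0 < a) (hA : 0 < A) (hF : 0 ≤ F) (hu : 0 ≤ u)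
    (hy : 0 ≤ y) (huy : u ≤ F + y) :
    F * u ≤ 10 * a * u + F ^ 4 / (100 * a ^ 2) + F ^ 4 * A / (20 * a ^ 3) +
      a * y ^ 2 / (20 * A) := by
  have n1 : 0 ≤ F ^ 4 / (100 * a ^ 2) := by positivity
  have n2 : 0 ≤ F ^ 4 * A / (20 * a ^ 3) := by positivity
  have n3 : 0 ≤ a * y ^ 2 / (20 * A) := by positivity
  have n4 : 0 ≤ 10 * a * u := by positivity
  rcases le_total F (10 * a) with h | h
  · have : F * u ≤ 10 * a * u := mul_le_mul_of_nonneg_right h hu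
    linarith
  · have h1 : F * u ≤ F ^ 2 + F * y := by nlinarith
    have h2 : F ^ 2 ≤ F ^ 4 / (100 * a ^ 2) := by
      rw [le_div_iff₀ (by positivity)]
      have h3 : (10 * a) ^ 2 ≤ F ^ 2 := pow_le_pow_left₀ (by positivity) h 2
      nlinarith [sq_nonneg F]
    have h3 : F * y ≤ F ^ 4 * A / (20 * a ^ 3) + a * y ^ 2 / (20 * A) := by
      have h4 : F * y ≤ F ^ 2 * y / (10 * a) := by
        rw [le_div_iff₀ (by positivity)]
        have : 0 ≤ F * y := by positivity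
        nlinarith
      refine h4.trans ?_
      rw [div_add_div _ _ (by positivity) (by positivity), div_le_div_iff₀ (by positivity)
        (by positivity)]
      have h5 : 0 ≤ (F ^ 2 * A - a ^ 2 * y) ^ 2 := sq_nonneg _
      have h6 : 0 ≤ 200 * a * (F ^ 2 * A - a ^ 2 * y) ^ 2 := by positivity
      nlinarith [h6]
    linarith

/-- the abstract estimate -/
theorem square_bound {Ω S : Type*} (O : Finset Ω) (s : Finset S) (M K : ℝ) (hM : 0 < M)
    (hK : 0 < K) (hMO : (O.card : ℝ) = M) (hKs : (s.card : ℝ) = K) (F y : S → Ω → ℂ) (a : Ω → ℝ)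
    (ha : ∀ t ∈ O, 0 ≤ a t) (C : ℝ) (hC : 0 ≤ C)
    (h1 : ∀ t ∈ O, ∑ e ∈ s, ‖F e t‖ ^ 2 = K * a t ^ 2)
    (h2 : ∀ t ∈ O, ∑ e ∈ s, ‖F e t‖ ^ 4 ≤ 3 * K * a t ^ 4)
    (h3 : ∀ t ∈ O, ∑ e ∈ s, conj (F e t) * y e t = 0)
    (h4 : ∀ e ∈ s, M⁻¹ * ∑ t ∈ O, ‖F e t - y e t‖ ≤ C)
    (h5 : ∀ e ∈ s, M⁻¹ * ∑ t ∈ O, ‖y e t‖ ^ 2 ≤ 2 * (M⁻¹ * ∑ t ∈ O, ‖y e t‖) ^ 2) :
    M⁻¹ * ∑ t ∈ O, a t ≤ 17 * C := by
  classical
  obtain ⟨A, hA⟩ : ∃ A, A = M⁻¹ * ∑ t ∈ O, a t := ⟨_, rfl⟩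
  have hA0 : 0 ≤ A := by
    rw [hA]
    have := Finset.sum_nonneg ha
    positivity
  rw [← hA]
  rcases (add_nonneg hA0 hC).eq_or_lt with h0 | hpos
  · linarith
  obtain ⟨A', hA'⟩ : ∃ A', A' = A + C := ⟨_, rfl⟩
  rw [← hA'] at hpos
  have hMi : 0 ≤ M⁻¹ := inv_nonneg.2 hM.le
  have hKi : 0 ≤ K⁻¹ := inv_nonneg.2 hK.le
  -- step a
  have hpair : ∀ t ∈ O, ∀ t' ∈ O, ∑ e ∈ s, ‖F e t‖ * ‖F e t'‖ ≤ K * (a t * a t') := by
    intro t ht t' ht'
    have h := Finset.sum_mul_sq_le_sq_mul_sq s (fun e => ‖F e t‖) (fun e => ‖F e t'‖)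
    rw [h1 t ht, h1 t' ht'] at h
    have h6 : (∑ e ∈ s, ‖F e t‖ * ‖F e t'‖) ^ 2 ≤ (K * (a t * a t')) ^ 2 := by
      refine h.trans (le_of_eq ?_)
      ring
    have := ha t ht
    have := ha t' ht'
    exact le_of_sq_le_sq h6 (by positivity)
  have hstepa : K⁻¹ * ∑ e ∈ s, (M⁻¹ * ∑ t ∈ O, ‖F e t‖) ^ 2 ≤ A ^ 2 := by
    have e1 : ∀ e ∈ s, (M⁻¹ * ∑ t ∈ O, ‖F e t‖) ^ 2 =
        M⁻¹ ^ 2 * ∑ t ∈ O, ∑ t' ∈ O, ‖F e t‖ * ‖F e t'‖ := by
      intro e _
      rw [mul_pow, sq (∑ t ∈ O, ‖F e t‖), Finset.sum_mul_sum]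
    rw [Finset.sum_congr rfl e1, ← Finset.mul_sum]
    have e2 : ∑ e ∈ s, ∑ t ∈ O, ∑ t' ∈ O, ‖F e t‖ * ‖F e t'‖ ≤
        ∑ t ∈ O, ∑ t' ∈ O, K * (a t * a t') := by
      rw [Finset.sum_comm]
      refine Finset.sum_le_sum fun t ht => ?_
      rw [Finset.sum_comm]
      exact Finset.sum_le_sum fun t' ht' => hpair t ht t' ht'
    have e3 : ∑ t ∈ O, ∑ t' ∈ O, K * (a t * a t') = K * (∑ t ∈ O, a t) ^ 2 := by
      rw [sq, Finset.sum_mul_sum, Finset.mul_sum]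
      refine Finset.sum_congr rfl fun t _ => ?_
      rw [Finset.mul_sum]
    rw [e3] at e2
    calc K⁻¹ * (M⁻¹ ^ 2 * ∑ e ∈ s, ∑ t ∈ O, ∑ t' ∈ O, ‖F e t‖ * ‖F e t'‖)
        ≤ K⁻¹ * (M⁻¹ ^ 2 * (K * (∑ t ∈ O, a t) ^ 2)) := by gcongr
      _ = A ^ 2 := by
          rw [hA]
          field_simp
  -- step b
  have hstepb : K⁻¹ * ∑ e ∈ s, M⁻¹ * ∑ t ∈ O, ‖y e t‖ ^ 2 ≤ 4 * A' ^ 2 := by
    have e1 : ∀ e ∈ s, M⁻¹ * ∑ t ∈ O, ‖y e t‖ ^ 2 ≤ 4 * (M⁻¹ * ∑ t ∈ O, ‖F e t‖) ^ 2 +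
        4 * C ^ 2 := by
      intro e he
      refine (h5 e he).trans ?_
      have e2 : M⁻¹ * ∑ t ∈ O, ‖y e t‖ ≤ M⁻¹ * ∑ t ∈ O, ‖F e t‖ + C := by
        have e3 : ∑ t ∈ O, ‖y e t‖ ≤ ∑ t ∈ O, ‖F e t‖ + ∑ t ∈ O, ‖F e t - y e t‖ := by
          rw [← Finset.sum_add_distrib]
          refine Finset.sum_le_sum fun t _ => ?_
          have := norm_sub_le (F e t) (F e t - y e t)
          rwa [sub_sub_cancel] at this
        have e4 := mul_le_mul_of_nonneg_left e3 hMi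
        have e5 := h4 e he
        rw [mul_add] at e4
        linarith
      have e6 : 0 ≤ M⁻¹ * ∑ t ∈ O, ‖y e t‖ :=
        mul_nonneg hMi (Finset.sum_nonneg fun _ _ => norm_nonneg _)
      have e7 := pow_le_pow_left₀ e6 e2 2
      nlinarith [sq_nonneg (M⁻¹ * ∑ t ∈ O, ‖F e t‖ - C)]
    have e8 : ∑ e ∈ s, M⁻¹ * ∑ t ∈ O, ‖y e t‖ ^ 2 ≤
        4 * ∑ e ∈ s, (M⁻¹ * ∑ t ∈ O, ‖F e t‖) ^ 2 + K * (4 * C ^ 2) := by
      refine (Finset.sum_le_sum e1).trans (le_of_eq ?_)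
      rw [Finset.sum_add_distrib, ← Finset.mul_sum, Finset.sum_const, nsmul_eq_mul, hKs]
    have e9 := mul_le_mul_of_nonneg_left e8 hKi
    have e10 : K⁻¹ * (4 * ∑ e ∈ s, (M⁻¹ * ∑ t ∈ O, ‖F e t‖) ^ 2 + K * (4 * C ^ 2)) =
        4 * (K⁻¹ * ∑ e ∈ s, (M⁻¹ * ∑ t ∈ O, ‖F e t‖) ^ 2) + 4 * C ^ 2 := by
      field_simp
    rw [e10] at e9
    have : A ^ 2 + C ^ 2 ≤ A' ^ 2 := by rw [hA']; nlinarith
    linarith
  -- step c
  have hstepc : ∀ t ∈ O, a t ≤ 10 * (K⁻¹ * ∑ e ∈ s, ‖F e t - y e t‖) + 3 / 100 * a t +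
      3 * A' / 20 + K⁻¹ * (∑ e ∈ s, ‖y e t‖ ^ 2) / (20 * A') := by
    intro t ht
    rcases (ha t ht).eq_or_lt with hz | hat
    · have n1 : 0 ≤ K⁻¹ * ∑ e ∈ s, ‖F e t - y e t‖ :=
        mul_nonneg hKi (Finset.sum_nonneg fun _ _ => norm_nonneg _)
      have n2 : 0 ≤ K⁻¹ * (∑ e ∈ s, ‖y e t‖ ^ 2) / (20 * A') := by
        have : 0 ≤ ∑ e ∈ s, ‖y e t‖ ^ 2 := Finset.sum_nonneg fun _ _ => by positivity
        positivity
      rw [← hz]
      have : 0 ≤ 3 * A' / 20 := by positivity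
      linarith
    · have e1 : K * a t ^ 2 ≤ ∑ e ∈ s, ‖F e t‖ * ‖F e t - y e t‖ := by
        have e2 : ((K * a t ^ 2 : ℝ) : ℂ) = ∑ e ∈ s, conj (F e t) * (F e t - y e t) := by
          simp only [mul_sub]
          rw [Finset.sum_sub_distrib, h3 t ht, sub_zero, ← h1 t ht]
          push_cast
          refine Finset.sum_congr rfl fun e _ => ?_
          rw [Complex.conj_mul']
        have e3 : K * a t ^ 2 = ‖((K * a t ^ 2 : ℝ) : ℂ)‖ := by
          rw [Complex.norm_real, Real.norm_of_nonneg (by positivity)]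
        rw [e3, e2]
        refine (norm_sum_le _ _).trans (Finset.sum_le_sum fun e _ => ?_)
        rw [norm_mul, RCLike.norm_conj]
      have e4 : ∑ e ∈ s, ‖F e t‖ * ‖F e t - y e t‖ ≤ 10 * a t * ∑ e ∈ s, ‖F e t - y e t‖ +
          (∑ e ∈ s, ‖F e t‖ ^ 4) / (100 * a t ^ 2) +
          (∑ e ∈ s, ‖F e t‖ ^ 4) * A' / (20 * a t ^ 3) +
          a t * (∑ e ∈ s, ‖y e t‖ ^ 2) / (20 * A') := by
        rw [Finset.mul_sum, Finset.sum_div, Finset.sum_mul, Finset.sum_div, Finset.mul_sum,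
          Finset.sum_div, ← Finset.sum_add_distrib, ← Finset.sum_add_distrib,
          ← Finset.sum_add_distrib]
        refine Finset.sum_le_sum fun e _ => ?_
        exact trunc_real (a t) A' ‖F e t‖ ‖F e t - y e t‖ ‖y e t‖ hat hpos (norm_nonneg _)
          (norm_nonneg _) (norm_nonneg _) (norm_sub_le _ _)
      have e5 : (∑ e ∈ s, ‖F e t‖ ^ 4) / (100 * a t ^ 2) ≤ (3 * K * a t ^ 4) / (100 * a t ^ 2) := by
        gcongr
        exact h2 t ht
      have e6 : (∑ e ∈ s, ‖F e t‖ ^ 4) * A' / (20 * a t ^ 3) ≤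
          (3 * K * a t ^ 4) * A' / (20 * a t ^ 3) := by
        gcongr
        exact h2 t ht
      have e7 : K * a t * a t ≤ K * a t * (10 * (K⁻¹ * ∑ e ∈ s, ‖F e t - y e t‖) + 3 / 100 * a t +
          3 * A' / 20 + K⁻¹ * (∑ e ∈ s, ‖y e t‖ ^ 2) / (20 * A')) := by
        have e8 : K * a t * (10 * (K⁻¹ * ∑ e ∈ s, ‖F e t - y e t‖) + 3 / 100 * a t +
          3 * A' / 20 + K⁻¹ * (∑ e ∈ s, ‖y e t‖ ^ 2) / (20 * A')) =
            10 * a t * ∑ e ∈ s, ‖F e t - y e t‖ + (3 * K * a t ^ 4) / (100 * a t ^ 2) +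
            (3 * K * a t ^ 4) * A' / (20 * a t ^ 3) +
            a t * (∑ e ∈ s, ‖y e t‖ ^ 2) / (20 * A') := by
          field_simp
        rw [e8]
        nlinarith [e1, e4, e5, e6]
      exact le_of_mul_le_mul_left e7 (by positivity)
  have hsum := Finset.sum_le_sum hstepc
  rw [Finset.sum_add_distrib, Finset.sum_add_distrib, Finset.sum_add_distrib, ← Finset.mul_sum,
    ← Finset.mul_sum, ← Finset.mul_sum, Finset.sum_const, nsmul_eq_mul, hMO,
    ← Finset.sum_div, ← Finset.mul_sum, Finset.sum_comm, Finset.sum_comm (s := O) (t := s)] at hsum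
  have hfin := mul_le_mul_of_nonneg_left hsum hMi
  have hu : M⁻¹ * (10 * (K⁻¹ * ∑ e ∈ s, ∑ t ∈ O, ‖F e t - y e t‖)) ≤ 10 * C := by
    have e1 := Finset.sum_le_sum h4
    rw [← Finset.mul_sum, Finset.sum_const, nsmul_eq_mul, hKs] at e1
    have e2 := mul_le_mul_of_nonneg_left e1 hKi
    have e3 : K⁻¹ * (K * C) = C := by field_simp
    rw [e3] at e2
    linarith
  have hy : M⁻¹ * (K⁻¹ * (∑ e ∈ s, ∑ t ∈ O, ‖y e t‖ ^ 2) / (20 * A')) ≤ A' / 5 := by
    have e1 : M⁻¹ * (K⁻¹ * (∑ e ∈ s, ∑ t ∈ O, ‖y e t‖ ^ 2) / (20 * A')) =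
        (K⁻¹ * ∑ e ∈ s, M⁻¹ * ∑ t ∈ O, ‖y e t‖ ^ 2) / (20 * A') := by
      rw [← Finset.mul_sum]
      ring
    rw [e1, div_le_iff₀ (by positivity)]
    nlinarith
  have hm : M⁻¹ * (M * (3 * A' / 20)) = 3 * A' / 20 := by field_simp
  have ha' : M⁻¹ * (3 / 100 * ∑ t ∈ O, a t) = 3 / 100 * A := by rw [hA]; ring
  rw [mul_add, mul_add, mul_add, hm, ha', ← hA] at hfin
  rw [hA'] at hfin hy
  linarith

end Pool.Agent.TH325.PI
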