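import Pool.Agent.TH325.PI.Spc
import Pool.Agent.TH325.PI.Khi
import Pool.Agent.Helper597.PNIDefs

set_option autoImplicit false

open scoped ComplexConjugate ZeroAtInfty
open Finset Function Filter Topology Pool.Agent.Helper597.PNI

namespace Pool.Agent.TH325.PI

namespace Tow

variable {Γ : Type} [AddCommGroup Γ] (T : Tow Γ)

theorem InY.add {y z : Γ →₀ ℂ} (hy : T.InY y) (hz : T.InY z) : T.InY (y + z) :=
  (Y1 T).add_mem hy hz

theorem InY.sub {y z : Γ →₀ ℂ} (hy : T.InY y) (hz : T.InY z) : T.InY (y - z) :=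
  (Y1 T).sub_mem hy hz

theorem InY.smul {y : Γ →₀ ℂ} (c : ℂ) (hy : T.InY y) : T.InY (c • y) :=
  (Y1 T).smul_mem c hy

theorem InY.sum {ι : Type*} (s : Finset ι) (f : ι → (Γ →₀ ℂ)) (h : ∀ i ∈ s, T.InY (f i)) :
    T.InY (∑ i ∈ s, f i) :=
  (Y1 T).sum_mem h

end Tow

namespace Quo

variable {Γ : Type} [AddCommGroup Γ] {T : Tow Γ} {X : Type} [NormedAddCommGroup X]
    [NormedSpace ℂ X] (Q : Quo T X)

include Q in
/-- the finite form of the absence of copies of `c_0` -/
theorem finite_c0 (N : ℕ) (z : ℕ → (Γ →₀ ℂ)) (c C : ℝ) (hc : 0 ≤ c)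
    (hz : ∀ i < N, c ≤ ‖Q.q (z i)‖)
    (hC : ∀ e ∈ (range N).powerset, ‖Q.q (∑ i ∈ range N, sg i e • z i)‖ < C) :
    c ^ 2 * N ≤ (17 * C) ^ 2 := by
  classical
  -- corrections
  have hex : ∀ e : Finset ℕ, ∃ y, T.InY y ∧ (e ∈ (range N).powerset →
      T.N (∑ i ∈ range N, sg i e • z i - y) ≤ C) := by
    intro e
    by_cases he : e ∈ (range N).powerset
    · obtain ⟨y, hy, hlt⟩ := Q.q_inf (∑ i ∈ range N, sg i e • z i)
        (C - ‖Q.q (∑ i ∈ range N, sg i e • z i)‖) (by linarith [hC e he])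
      exact ⟨y, hy, fun _ => by linarith⟩
    · exact ⟨0, (Y1 T).zero_mem, fun h => absurd h he⟩
  choose y hyY hyC using hex
  let y1 : ℕ → (Γ →₀ ℂ) := fun i => ((2 : ℂ) ^ N)⁻¹ • ∑ e ∈ (range N).powerset, sg i e • y e
  let z' : ℕ → (Γ →₀ ℂ) := fun i => z i - y1 i
  let y' : Finset ℕ → (Γ →₀ ℂ) := fun e => y e - ∑ i ∈ range N, sg i e • y1 i
  have hy1Y : ∀ i, T.InY (y1 i) := fun i =>
    Tow.InY.smul T _ (Tow.InY.sum T _ _ fun e _ => Tow.InY.smul T _ (hyY e))
  have hy'Y : ∀ e, T.InY (y' e) := fun e =>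
    Tow.InY.sub T (hyY e) (Tow.InY.sum T _ _ fun i _ => Tow.InY.smul T _ (hy1Y i))
  have hC0 : 0 ≤ C := by
    have := hC ∅ (by simp)
    exact (norm_nonneg _).trans this.le
  -- the level
  obtain ⟨n, _, hn⟩ := T.exists_level ((range N).image z') 0
  have hlev : ∀ i < N, T.N (z' i) = T.Nn n (z' i) := fun i hi =>
    T.N_eq n _ (hn n le_rfl _ (Finset.mem_image_of_mem _ (Finset.mem_range.2 hi)))
  have hzc : ∀ i < N, c ≤ T.Nn n (z' i) := by
    intro i hi
    rw [← hlev i hi]
    have h1 := Q.q_le (z' i)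
    have h2 : Q.q (z' i) = Q.q (z i) := by
      simp only [z']
      rw [map_sub, Q.q_Y _ (hy1Y i), sub_zero]
    rw [h2] at h1
    exact (hz i hi).trans h1
  let a : T.Om n → ℝ := fun t => √(∑ i ∈ range N, ‖T.ev n t (z' i)‖ ^ 2)
  have hsn : ∀ t, 0 ≤ ∑ i ∈ range N, ‖T.ev n t (z' i)‖ ^ 2 := fun t =>
    Finset.sum_nonneg fun _ _ => by positivity
  have ha2 : ∀ t, a t ^ 2 = ∑ i ∈ range N, ‖T.ev n t (z' i)‖ ^ 2 := fun t => Real.sq_sqrt (hsn t)
  have hMpos := T.M_pos n
  have hupper := square_bound (Finset.univ : Finset (T.Om n)) (range N).powerset (T.M n)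
    (2 ^ N) hMpos (by positivity) (by rw [Finset.card_univ]; exact T.card_Om n) (card_signs N)
    (fun e t => rs N (fun i => T.ev n t (z' i)) e) (fun e t => T.ev n t (y' e)) a
    (fun t _ => Real.sqrt_nonneg _) C hC0
    (fun t _ => by rw [rs_two, ha2])
    (fun t _ => by
      have h1 := rs_four N (fun i => T.ev n t (z' i))
      rw [← ha2] at h1
      calc _ ≤ _ := h1
        _ = _ := by ring)
    (fun t _ => by
      have h1 : ∀ e ∈ (range N).powerset, conj (rs N (fun i => T.ev n t (z' i)) e) *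
          T.ev n t (y' e) = ∑ i ∈ range N, conj (T.ev n t (z' i)) * (sg i e * T.ev n t (y' e)) := by
        intro e _
        unfold rs
        rw [map_sum, Finset.sum_mul]
        refine Finset.sum_congr rfl fun i _ => ?_
        rw [map_mul, sg_conj]
        ring
      rw [Finset.sum_congr rfl h1, Finset.sum_comm]
      refine Finset.sum_eq_zero fun i hi => ?_
      rw [← Finset.mul_sum]
      have h2 : ∑ e ∈ (range N).powerset, sg i e * T.ev n t (y' e) = 0 := by
        have h3 : ∀ e ∈ (range N).powerset, sg i e * T.ev n t (y' e) =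
            sg i e * T.ev n t (y e) - ∑ j ∈ range N, T.ev n t (y1 j) * (sg i e * sg j e) := by
          intro e _
          simp only [y']
          rw [map_sub, map_sum, mul_sub, Finset.mul_sum]
          congr 1
          refine Finset.sum_congr rfl fun j _ => ?_
          rw [map_smul, smul_eq_mul]
          ring
        rw [Finset.sum_congr rfl h3, Finset.sum_sub_distrib, Finset.sum_comm]
        have h4 : ∀ j ∈ range N, ∑ e ∈ (range N).powerset, T.ev n t (y1 j) * (sg i e * sg j e) =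
            if i = j then T.ev n t (y1 j) * 2 ^ N else 0 := by
          intro j hj
          rw [← Finset.mul_sum, sg_orth N i j (Finset.mem_range.1 hi) (Finset.mem_range.1 hj)]
          split <;> simp
        rw [Finset.sum_congr rfl h4, Finset.sum_ite_eq, if_pos hi]
        simp only [y1]
        rw [map_smul, map_sum, smul_eq_mul]
        simp only [map_smul, smul_eq_mul]
        have hne : ((2 : ℂ) ^ N) ≠ 0 := pow_ne_zero N two_ne_zero
        rw [mul_comm _ ((2 : ℂ) ^ N), mul_inv_cancel_left₀ hne, sub_self]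
      rw [h2, mul_zero])
    (fun e he => by
      have h1 : ∀ t, rs N (fun i => T.ev n t (z' i)) e - T.ev n t (y' e) =
          T.ev n t (∑ i ∈ range N, sg i e • z i - y e) := by
        intro t
        unfold rs
        simp only [z', y']
        simp only [map_sub, map_sum, map_smul, smul_eq_mul, mul_sub, Finset.sum_sub_distrib]
        ring
      simp only [h1]
      exact (T.Nn_le_N n _).trans (hyC e he))
    (fun e _ => T.two_le_one n (y' e) (hy'Y e))
  -- the lower bound
  have hlower : c * √N ≤ (T.M n)⁻¹ * ∑ t, a t := by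
    have h1 : ∀ t, ∑ i ∈ range N, ‖T.ev n t (z' i)‖ ≤ √N * a t := by
      intro t
      have h2 := sq_sum_le_card_mul_sum_sq (s := range N) (f := fun i => ‖T.ev n t (z' i)‖)
      rw [Finset.card_range, ← ha2] at h2
      have h3 : (∑ i ∈ range N, ‖T.ev n t (z' i)‖) ^ 2 ≤ (√N * a t) ^ 2 := by
        rw [mul_pow, Real.sq_sqrt (Nat.cast_nonneg N)]
        exact h2
      exact le_of_sq_le_sq h3 (mul_nonneg (Real.sqrt_nonneg _) (Real.sqrt_nonneg _))
    have h2 : (N : ℝ) * c ≤ √N * ((T.M n)⁻¹ * ∑ t, a t) := by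
      have h3 : (N : ℝ) * c ≤ ∑ i ∈ range N, T.Nn n (z' i) := by
        have : ∑ _i ∈ range N, c ≤ ∑ i ∈ range N, T.Nn n (z' i) :=
          Finset.sum_le_sum fun i hi => hzc i (Finset.mem_range.1 hi)
        rwa [Finset.sum_const, Finset.card_range, nsmul_eq_mul] at this
      refine h3.trans ?_
      unfold Tow.Nn
      rw [← Finset.mul_sum, Finset.sum_comm]
      have h4 : ∑ t, ∑ i ∈ range N, ‖T.ev n t (z' i)‖ ≤ ∑ t, √N * a t :=
        Finset.sum_le_sum fun t _ => h1 t
      rw [← Finset.mul_sum] at h4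
      calc (T.M n)⁻¹ * ∑ t, ∑ i ∈ range N, ‖T.ev n t (z' i)‖
          ≤ (T.M n)⁻¹ * (√N * ∑ t, a t) := by
            have := (T.M_pos n).le
            gcongr
        _ = _ := by ring
    rcases Nat.eq_zero_or_pos N with hN | hN
    · rw [hN, Nat.cast_zero, Real.sqrt_zero, mul_zero]
      have : 0 ≤ ∑ t, a t := Finset.sum_nonneg fun _ _ => Real.sqrt_nonneg _
      have := (T.M_pos n).le
      positivity
    · have hs : 0 < √(N : ℝ) := Real.sqrt_pos.2 (by exact_mod_cast hN)
      have h5 : (N : ℝ) * c = √N * (c * √N) := by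
        have := Real.mul_self_sqrt (Nat.cast_nonneg (α := ℝ) N)
        calc (N : ℝ) * c = (√N * √N) * c := by rw [this]
          _ = _ := by ring
      rw [h5] at h2
      exact le_of_mul_le_mul_left h2 hs
  have h := hlower.trans hupper
  have h2 := pow_le_pow_left₀ (mul_nonneg hc (Real.sqrt_nonneg _)) h 2
  rwa [mul_pow, Real.sq_sqrt (Nat.cast_nonneg N)] at h2

end Quo

/-- the unit vectors of `c_0` -/
noncomputable def unitVec (i : ℕ) : C₀(ℕ, ℂ) where
  toFun := fun j => if j = i then 1 else 0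
  continuous_toFun := continuous_of_discreteTopology
  zero_at_infty' := by
    rw [Filter.cocompact_eq_cofinite, Nat.cofinite_eq_atTop]
    refine tendsto_const_nhds.congr' ?_
    filter_upwards [Filter.eventually_gt_atTop i] with j hj
    rw [if_neg hj.ne']

theorem unitVec_apply (i j : ℕ) : unitVec i j = if j = i then 1 else 0 := rfl

theorem norm_le_of_apply (u : C₀(ℕ, ℂ)) (C : ℝ) (hC : 0 ≤ C) (h : ∀ j, ‖u j‖ ≤ C) : ‖u‖ ≤ C := by
  rw [← ZeroAtInftyContinuousMap.norm_toBCF_eq_norm]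
  exact (BoundedContinuousFunction.norm_le hC).2 h

theorem apply_le_norm (u : C₀(ℕ, ℂ)) (j : ℕ) : ‖u j‖ ≤ ‖u‖ := by
  rw [← ZeroAtInftyContinuousMap.norm_toBCF_eq_norm]
  exact BoundedContinuousFunction.norm_coe_le_norm u.toBCF j

theorem one_le_norm_unitVec (i : ℕ) : 1 ≤ ‖unitVec i‖ := by
  have := apply_le_norm (unitVec i) i
  rw [unitVec_apply, if_pos rfl, norm_one] at this
  exact this

theorem norm_sum_unitVec (N : ℕ) (s : ℕ → ℂ) (hs : ∀ i, ‖s i‖ = 1) :
    ‖∑ i ∈ range N, s i • unitVec i‖ ≤ 1 := by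
  refine norm_le_of_apply _ 1 zero_le_one fun j => ?_
  have h1 : (∑ i ∈ range N, s i • unitVec i) j = ∑ i ∈ range N, s i * unitVec i j := by
    induction N with
    | zero => simp
    | succ N ih =>
      rw [Finset.sum_range_succ, Finset.sum_range_succ, ← ih]
      rfl
  rw [h1]
  simp only [unitVec_apply, mul_ite, mul_one, mul_zero]
  rw [Finset.sum_ite_eq]
  split
  · exact (hs j).le
  · simp

theorem not_containsC0 {Γ : Type} [AddCommGroup Γ] {T : Tow Γ} {X : Type} [NormedAddCommGroup X]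
    [NormedSpace ℂ X] (Q : Quo T X) : ¬ ContainsC0 X := by
  rintro ⟨J, c, hc, hJ⟩
  -- approximations of the images of the unit vectors
  obtain ⟨N, hN⟩ := exists_nat_gt ((17 * (‖J‖ + 2)) ^ 2 / (c / 2) ^ 2)
  obtain ⟨δ, hδ0, hδc, hδN⟩ : ∃ δ : ℝ, 0 < δ ∧ δ ≤ c / 2 ∧ N * δ ≤ 1 := by
    refine ⟨min (c / 2) (1 / (N + 1)), by positivity, min_le_left _ _, ?_⟩
    calc (N : ℝ) * min (c / 2) (1 / (N + 1)) ≤ N * (1 / (N + 1)) := by
          gcongr; exact min_le_right _ _
      _ ≤ 1 := by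
          rw [mul_one_div, div_le_one (by positivity)]
          linarith
  choose z hz using fun i : ℕ => Q.q_dense.exists_dist_lt (J (unitVec i)) hδ0
  have hz' : ∀ i, ‖J (unitVec i) - Q.q (z i)‖ < δ := fun i => by
    rw [← dist_eq_norm]; exact hz i
  have hlow : ∀ i < N, c / 2 ≤ ‖Q.q (z i)‖ := by
    intro i _
    have h1 := hJ (unitVec i)
    have h2 := one_le_norm_unitVec i
    have h3 := norm_sub_norm_le (J (unitVec i)) (Q.q (z i))
    have h4 := hz' i
    nlinarith
  have hup : ∀ e ∈ (range N).powerset, ‖Q.q (∑ i ∈ range N, sg i e • z i)‖ < ‖J‖ + 2 := by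
    intro e _
    have h1 : Q.q (∑ i ∈ range N, sg i e • z i) = J (∑ i ∈ range N, sg i e • unitVec i) -
        ∑ i ∈ range N, sg i e • (J (unitVec i) - Q.q (z i)) := by
      simp only [map_sum, map_smul, smul_sub, Finset.sum_sub_distrib]
      abel
    have h2 : ‖J (∑ i ∈ range N, sg i e • unitVec i)‖ ≤ ‖J‖ := by
      have h3 := J.le_opNorm (∑ i ∈ range N, sg i e • unitVec i)
      have h4 := norm_sum_unitVec N (fun i => sg i e) (fun i => sg_norm i e)
      have := norm_nonneg J
      nlinarith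
    have h5 : ‖∑ i ∈ range N, sg i e • (J (unitVec i) - Q.q (z i))‖ ≤ 1 := by
      refine (norm_sum_le _ _).trans ?_
      have h6 : ∀ i ∈ range N, ‖sg i e • (J (unitVec i) - Q.q (z i))‖ ≤ δ := by
        intro i _
        rw [norm_smul, sg_norm, one_mul]
        exact (hz' i).le
      refine (Finset.sum_le_sum h6).trans ?_
      rw [Finset.sum_const, Finset.card_range, nsmul_eq_mul]
      exact hδN
    rw [h1]
    refine lt_of_le_of_lt (norm_sub_le _ _) ?_
    linarith
  have h := Q.finite_c0 N z (c / 2) (‖J‖ + 2) (by positivity) hlow hup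
  rw [div_lt_iff₀ (by positivity)] at hN
  linarith

end Pool.Agent.TH325.PI
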