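import Pool.Agent.TH325.PI.Dia

set_option autoImplicit false

open scoped ComplexConjugate
open Finset

namespace Pool.Agent.TH325.PI

namespace Tow

variable {Γ : Type} [AddCommGroup Γ] (T : Tow Γ)

/-- a step function which kills the characters of the Sidon set kills the Sidon part -/
theorem kill (n : ℕ) (g : T.Om n → ℂ) (hg : ∀ a ∈ T.E, ∑ τ, g τ * T.ch n τ a = 0)
    (y : Γ →₀ ℂ) (hy : T.InY y) : ∑ τ, g τ * T.ev n τ y = 0 := by
  have h1 : ∀ τ, g τ * T.ev n τ y = ∑ a ∈ T.Ef n, y a * (g τ * T.ch n τ a) := by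
    intro τ
    rw [T.ev_Y n τ y hy, Finset.mul_sum]
    exact Finset.sum_congr rfl fun a _ => by ring
  simp only [h1]
  rw [Finset.sum_comm]
  refine Finset.sum_eq_zero fun a ha => ?_
  rw [← Finset.mul_sum, hg a ((T.mem_Ef n a).1 ha).1, mul_zero]

theorem restr_kill (j n : ℕ) (hjn : j ≤ n) (g : T.Om j → ℂ)
    (hg : ∀ a ∈ T.E, ∑ τ, g τ * T.ch j τ a = 0) (a : Γ) (ha : a ∈ T.E) :
    ∑ τ, g (T.res j n τ) * T.ch n τ a = 0 := by
  have h := T.lift_ch j n hjn g a
  rw [hg a ha, mul_zero] at h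
  rcases mul_eq_zero.1 h with h | h
  · exact absurd h (inv_ne_zero (T.M_ne n))
  · exact h

/-- a small correction supported off a small set -/
theorem exists_corr (n : ℕ) (B : Finset (T.Om n)) (r : T.Om n → ℂ) (hr : ∀ τ, ‖r τ‖ ≤ 2)
    (κ : ℝ) (hκ : κ = √(2 * B.card / T.M n)) (hκ2 : κ ≤ 1 / 2) :
    ∃ h : T.Om n → ℂ, (∀ τ ∈ B, h τ = 0) ∧ (∀ τ, ‖h τ‖ ≤ 4 * κ) ∧
      ∀ y, T.InY y → ∑ τ, h τ * T.ev n τ y = ∑ τ ∈ B, r τ * T.ev n τ y := by
  classical
  have hM := T.M_pos n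
  have hκ0 : 0 ≤ κ := by rw [hκ]; exact Real.sqrt_nonneg _
  let A : (Y1 T) →ₗ[ℂ] PiLp 1 (fun _ : T.Om n => ℂ) :=
    { toFun := fun y => WithLp.toLp 1 (fun τ => if τ ∈ B then 0 else T.ev n τ (y : Γ →₀ ℂ))
      map_add' := by
        intro x y
        ext τ
        by_cases h : τ ∈ B
        · simp [h]
        · simp [h]
      map_smul' := by
        intro z y
        ext τ
        by_cases h : τ ∈ B
        · simp [h]
        · simp [h] }
  have hAnorm : ∀ y, ‖A y‖ = ∑ τ, if τ ∈ B then 0 else ‖T.ev n τ (y : Γ →₀ ℂ)‖ := by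
    intro y
    rw [PiLp.norm_eq_sum (by norm_num)]
    simp only [ENNReal.toReal_one, Real.rpow_one, div_one]
    refine Finset.sum_congr rfl fun τ _ => ?_
    by_cases h : τ ∈ B
    · simp [A, h]
    · simp [A, h]
  let f : (Y1 T) →ₗ[ℂ] ℂ := (∑ τ ∈ B, r τ • T.ev n τ).comp (Y1 T).subtype
  have hf : ∀ y, f y = ∑ τ ∈ B, r τ * T.ev n τ (y : Γ →₀ ℂ) := by
    intro y
    simp [f]
  have hbd : ∀ y, ‖f y‖ ≤ 4 * κ * ‖A y‖ := by
    intro y
    have hy : T.InY (y : Γ →₀ ℂ) := y.2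
    have hs := T.small_set n y hy B
    rw [← hκ] at hs
    have h1 : ‖f y‖ ≤ 2 * ∑ τ ∈ B, ‖T.ev n τ (y : Γ →₀ ℂ)‖ := by
      rw [hf, Finset.mul_sum]
      refine (norm_sum_le _ _).trans (Finset.sum_le_sum fun τ _ => ?_)
      rw [norm_mul]
      exact mul_le_mul_of_nonneg_right (hr τ) (norm_nonneg _)
    have h2 : ∑ τ, ‖T.ev n τ (y : Γ →₀ ℂ)‖ = ∑ τ ∈ B, ‖T.ev n τ (y : Γ →₀ ℂ)‖ + ‖A y‖ := by
      rw [hAnorm, ← Finset.sum_filter_add_sum_filter_not Finset.univ (· ∈ B)]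
      congr 1
      · refine Finset.sum_congr ?_ fun _ _ => rfl
        ext τ; simp
      · rw [Finset.sum_filter]
        refine Finset.sum_congr rfl fun τ _ => ?_
        by_cases h : τ ∈ B
        · simp [h]
        · simp [h]
    have h3 : T.M n * T.Nn n (y : Γ →₀ ℂ) = ∑ τ, ‖T.ev n τ (y : Γ →₀ ℂ)‖ := by
      unfold Nn
      rw [← mul_assoc, mul_inv_cancel₀ hM.ne', one_mul]
    have h4 : ∑ τ ∈ B, ‖T.ev n τ (y : Γ →₀ ℂ)‖ ≤ κ * ∑ τ, ‖T.ev n τ (y : Γ →₀ ℂ)‖ := by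
      rw [← h3]
      have h5 := mul_le_mul_of_nonneg_left hs hM.le
      rw [← mul_assoc, mul_inv_cancel₀ hM.ne', one_mul] at h5
      linarith
    have h5 : 0 ≤ ∑ τ ∈ B, ‖T.ev n τ (y : Γ →₀ ℂ)‖ := Finset.sum_nonneg fun _ _ => norm_nonneg _
    have h6 : 0 ≤ ‖A y‖ := norm_nonneg _
    set a := ∑ τ ∈ B, ‖T.ev n τ (y : Γ →₀ ℂ)‖
    rw [h2] at h4
    have h7 : a ≤ 2 * κ * ‖A y‖ := by nlinarith
    linarith
  obtain ⟨L, hL1, hL2⟩ := hb_range (S := ↥(Y1 T)) (V := PiLp 1 (fun _ : T.Om n => ℂ)) A f (4 * κ)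
    (by positivity) hbd
  refine ⟨fun τ => if τ ∈ B then 0 else L (WithLp.toLp 1 (Pi.single τ 1)), ?_, ?_, ?_⟩
  · intro τ hτ
    simp [hτ]
  · intro τ
    by_cases h : τ ∈ B
    · simp only [h, if_true, norm_zero]
      positivity
    · simp only [h, if_false]
      refine (hL2 _).trans ?_
      have h1 : ‖(WithLp.toLp 1 (Pi.single τ (1 : ℂ)) : PiLp 1 (fun _ : T.Om n => ℂ))‖ = 1 := by
        rw [PiLp.norm_eq_sum (by norm_num)]
        simp only [ENNReal.toReal_one, Real.rpow_one, div_one]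
        rw [Finset.sum_eq_single τ]
        · simp
        · intro b _ hb
          simp [hb]
        · simp
      rw [h1, mul_one]
  · intro y hy
    have h1 := hL1 ⟨y, hy⟩
    rw [hf] at h1
    rw [← h1]
    have h2 : A ⟨y, hy⟩ = ∑ τ, (if τ ∈ B then 0 else T.ev n τ y) •
        (WithLp.toLp 1 (Pi.single τ (1 : ℂ)) : PiLp 1 (fun _ : T.Om n => ℂ)) := by
      ext σ
      simp only [A, LinearMap.coe_mk, AddHom.coe_mk, PiLp.toLp_apply, WithLp.ofLp_sum,
        Finset.sum_apply, PiLp.smul_apply, smul_eq_mul, WithLp.ofLp_smul, Pi.smul_apply]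
      rw [Finset.sum_eq_single σ]
      · simp
      · intro b _ hb
        simp [Pi.single_apply, hb.symm]
      · simp
    rw [h2, map_sum]
    refine Finset.sum_congr rfl fun τ _ => ?_
    rw [map_smul, smul_eq_mul]
    by_cases h : τ ∈ B
    · simp [h]
    · simp [h, mul_comm]

end Tow

namespace Quo

variable {Γ : Type} [AddCommGroup Γ] {T : Tow Γ} {X : Type} [NormedAddCommGroup X]
    [NormedSpace ℂ X] (Q : Quo T X)

/-- functionals which exactly attain the norm on a small set of cells -/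
theorem attain (n : ℕ) (B : Finset (T.Om n)) (s g : T.Om n → ℂ) (hs : ∀ τ, ‖s τ‖ = 1)
    (hg : ∀ τ, ‖g τ‖ ≤ 1) (hgE : ∀ a ∈ T.E, ∑ τ, g τ * T.ch n τ a = 0)
    (G : X →L[ℂ] ℂ) (hG : ∀ c, G (Q.q c) = (T.M n : ℂ)⁻¹ * ∑ τ, g τ * T.ev n τ c)
    (κ δ : ℝ) (hκ : κ = √(2 * B.card / T.M n)) (hκδ : 4 * κ ≤ δ) (hδ : δ ≤ 1) :
    ∃ f : X →L[ℂ] ℂ, (∀ z, ‖f z‖ ≤ ‖z‖) ∧ (∀ τ ∈ B, f (Q.q (T.ind n τ)) = (T.M n : ℂ)⁻¹ * s τ) ∧
      ∀ z, ‖f z - (((1 - δ : ℝ) : ℂ) * G z +
        ∑ τ ∈ B, (s τ - ((1 - δ : ℝ) : ℂ) * g τ) * Q.I n τ z)‖ ≤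
        (4 * κ + 2 * B.card * T.rho n) * ‖z‖ := by
  classical
  have hM := T.M_pos n
  have hκ0 : 0 ≤ κ := by rw [hκ]; exact Real.sqrt_nonneg _
  have hδ0 : 0 ≤ δ := by linarith
  set D : ℂ := ((1 - δ : ℝ) : ℂ) with hD
  have hDn : ‖D‖ = 1 - δ := by
    rw [hD, Complex.norm_real, Real.norm_of_nonneg (by linarith)]
  have hDg : ∀ τ, ‖D * g τ‖ ≤ 1 - δ := by
    intro τ
    rw [norm_mul, hDn]
    exact mul_le_of_le_one_right (by linarith) (hg τ)
  obtain ⟨h, hh1, hh2, hh3⟩ := T.exists_corr n B (fun τ => s τ - D * g τ) (by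
    intro τ
    refine (norm_sub_le _ _).trans ?_
    rw [hs]
    have := hDg τ
    linarith) κ hκ (by linarith)
  let f1 : T.Om n → ℂ := fun τ => (if τ ∈ B then s τ else D * g τ) - h τ
  have hf1 : ∀ τ, ‖f1 τ‖ ≤ 1 := by
    intro τ
    by_cases hτ : τ ∈ B
    · simp only [f1, hτ, if_true, hh1 τ hτ, sub_zero]
      exact (hs τ).le
    · simp only [f1, hτ, if_false]
      refine (norm_sub_le _ _).trans ?_
      have h1 := hDg τ
      have h2 := hh2 τ
      linarith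
  let L : (Γ →₀ ℂ) →ₗ[ℂ] ℂ := (T.M n : ℂ)⁻¹ • ∑ τ, f1 τ • T.ev n τ
  have hL : ∀ d, L d = (T.M n : ℂ)⁻¹ * ∑ τ, f1 τ * T.ev n τ d := by
    intro d
    simp [L]
  have hLY : ∀ y, T.InY y → L y = 0 := by
    intro y hy
    rw [hL]
    have h1 : ∑ τ, f1 τ * T.ev n τ y = ∑ τ, (D * g τ) * T.ev n τ y +
        ∑ τ ∈ B, (s τ - D * g τ) * T.ev n τ y - ∑ τ, h τ * T.ev n τ y := by
      have h2 : ∑ τ ∈ B, (s τ - D * g τ) * T.ev n τ y =
          ∑ τ, if τ ∈ B then (s τ - D * g τ) * T.ev n τ y else 0 := by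
        rw [← Finset.sum_filter]
        refine Finset.sum_congr ?_ fun _ _ => rfl
        ext τ; simp
      rw [h2, ← Finset.sum_add_distrib, ← Finset.sum_sub_distrib]
      refine Finset.sum_congr rfl fun τ _ => ?_
      by_cases hτ : τ ∈ B
      · simp only [f1, hτ, if_true]
        ring
      · simp only [f1, hτ, if_false]
        ring
    rw [h1, hh3 y hy, add_sub_cancel_right]
    have h3 : ∑ τ, (D * g τ) * T.ev n τ y = D * ∑ τ, g τ * T.ev n τ y := by
      rw [Finset.mul_sum]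
      exact Finset.sum_congr rfl fun τ _ => by ring
    rw [h3, T.kill n g hgE y hy, mul_zero, mul_zero]
  obtain ⟨f, hf1', hf2⟩ := Q.ext L 1 zero_le_one (by
    intro d
    rw [hL]
    refine (T.pair_le n f1 1 hf1 d).trans ?_
    rw [one_mul, one_mul]
    exact T.Nn_le_N n d) hLY
  refine ⟨f, fun z => by simpa using hf2 z, ?_, ?_⟩
  · intro τ hτ
    rw [hf1', hL]
    congr 1
    rw [Finset.sum_eq_single τ]
    · rw [T.ev_ind]
      simp [f1, hτ, hh1 τ hτ]
    · intro b _ hb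
      rw [T.ev_ind, if_neg (fun h' => hb h'.symm), mul_zero]
    · simp
  · intro z
    let F : X →L[ℂ] ℂ := f - (D • G + ∑ τ ∈ B, (s τ - D * g τ) • Q.I n τ)
    have hF : ∀ z, F z = f z - (D * G z + ∑ τ ∈ B, (s τ - D * g τ) * Q.I n τ z) := by
      intro z
      simp [F]
    have hb := Q.bound F (4 * κ + 2 * B.card * T.rho n) (by
      have := T.rho_nonneg n
      positivity) (by
      intro c
      rw [hF, hf1', hL, hG]
      simp only [Q.I_q]
      have hc := T.comb_I0 n (fun τ => if τ ∈ B then -(s τ - D * g τ) else 0)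
        (fun τ => f1 τ - D * g τ) (4 * κ) (2 * B.card) (by
          intro τ
          by_cases hτ : τ ∈ B
          · simp only [f1, hτ, if_true, hh1 τ hτ]
            have : s τ - 0 - D * g τ + -(s τ - D * g τ) = 0 := by ring
            rw [this, norm_zero]
            positivity
          · simp only [f1, hτ, if_false]
            have : D * g τ - h τ - D * g τ + 0 = -h τ := by ring
            rw [this, norm_neg]
            exact hh2 τ) (by
          have h1 : ∑ τ, ‖(if τ ∈ B then -(s τ - D * g τ) else 0 : ℂ)‖ =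
              ∑ τ ∈ B, ‖s τ - D * g τ‖ := by
            rw [← Finset.sum_filter_add_sum_filter_not Finset.univ (· ∈ B)]
            have h2 : ∑ τ with ¬ τ ∈ B, ‖(if τ ∈ B then -(s τ - D * g τ) else 0 : ℂ)‖ = 0 := by
              refine Finset.sum_eq_zero fun τ hτ => ?_
              rw [Finset.mem_filter] at hτ
              simp [hτ.2]
            rw [h2, add_zero]
            refine Finset.sum_congr (by ext τ; simp) fun τ hτ => ?_
            simp [hτ, norm_sub_rev]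
          rw [h1]
          have h3 : ∀ τ ∈ B, ‖s τ - D * g τ‖ ≤ 2 := by
            intro τ _
            refine (norm_sub_le _ _).trans ?_
            rw [hs]
            have := hDg τ
            linarith
          refine (Finset.sum_le_sum h3).trans ?_
          rw [Finset.sum_const, nsmul_eq_mul]
          linarith) c
      have e : (T.M n : ℂ)⁻¹ * ∑ τ, f1 τ * T.ev n τ c - (D * ((T.M n : ℂ)⁻¹ *
          ∑ τ, g τ * T.ev n τ c) + ∑ τ ∈ B, (s τ - D * g τ) * T.I0 n τ c) =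
          (T.M n : ℂ)⁻¹ * ∑ τ, (f1 τ - D * g τ) * T.ev n τ c +
          ∑ τ, (if τ ∈ B then -(s τ - D * g τ) else 0) * T.I0 n τ c := by
        have h1 : ∑ τ, (if τ ∈ B then -(s τ - D * g τ) else 0) * T.I0 n τ c =
            - ∑ τ ∈ B, (s τ - D * g τ) * T.I0 n τ c := by
          rw [← Finset.sum_neg_distrib]
          have h2 : ∑ τ ∈ B, -((s τ - D * g τ) * T.I0 n τ c) =
              ∑ τ, if τ ∈ B then -((s τ - D * g τ) * T.I0 n τ c) else 0 := by
            rw [← Finset.sum_filter]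
            refine Finset.sum_congr ?_ fun _ _ => rfl
            ext τ; simp
          rw [h2]
          refine Finset.sum_congr rfl fun τ _ => ?_
          by_cases hτ : τ ∈ B
          · simp only [hτ, if_true]; ring
          · simp only [hτ, if_false]; ring
        have h3 : ∑ τ, (f1 τ - D * g τ) * T.ev n τ c = ∑ τ, f1 τ * T.ev n τ c -
            D * ∑ τ, g τ * T.ev n τ c := by
          rw [Finset.mul_sum, ← Finset.sum_sub_distrib]
          exact Finset.sum_congr rfl fun τ _ => by ring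
        rw [h1, h3]
        ring
      rw [e]
      exact hc) z
    rw [hF] at hb
    exact hb

end Quo

end Pool.Agent.TH325.PI
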