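import Pool.Agent.TH325.PI.Fun

set_option autoImplicit false

open scoped ComplexConjugate
open Finset

namespace Pool.Agent.TH325.PI

namespace Tow

variable {Γ : Type} [AddCommGroup Γ] (T : Tow Γ)

theorem eps_lim : Filter.Tendsto T.eps Filter.atTop (nhds 0) := by
  have h1 : Filter.Tendsto (fun n => ((T.Ef n).card : ℝ)⁻¹) Filter.atTop (nhds 0) :=
    tendsto_inv_atTop_zero.comp T.card_lim
  have h2 : Filter.Tendsto (fun n => (T.bi n + ((T.Ef n).card : ℝ)⁻¹) /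
      (1 - ((T.Ef n).card : ℝ)⁻¹) + T.rho n) Filter.atTop (nhds ((0 + 0) / (1 - 0) + 0)) := by
    refine Filter.Tendsto.add (Filter.Tendsto.div (T.bi_lim.add h1)
      (tendsto_const_nhds.sub h1) (by norm_num)) ?_
    have := T.rho_lim
    unfold rho M
    exact this
  have h3 : ((0 + 0) / (1 - 0) + 0 : ℝ) = 0 := by norm_num
  rw [h3] at h2
  refine h2.congr' ?_
  have h4 := T.card_lim.eventually (Filter.eventually_gt_atTop (1 : ℝ))
  filter_upwards [h4] with n hn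
  unfold eps
  have h5 : ((T.Ef n).card : ℝ) ≠ 0 := by linarith
  have h6 : ((T.Ef n).card : ℝ) - 1 ≠ 0 := by linarith
  have h7 : (1 - ((T.Ef n).card : ℝ)⁻¹) ≠ 0 := by
    have : (1 - ((T.Ef n).card : ℝ)⁻¹) = (((T.Ef n).card : ℝ) - 1) / (T.Ef n).card := by
      field_simp
    rw [this]
    exact div_ne_zero h6 h5
  congr 1
  rw [div_eq_div_iff h7 h6]
  field_simp

/-- truncation of a polynomial to level `j` -/
theorem trunc_apply (j : ℕ) (c : Γ →₀ ℂ) (b : Γ) :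
    (∑ τ, T.ev j τ c • T.ind j τ) b = open Classical in if b ∈ T.H j then c b else 0 := by
  classical
  simp only [Finsupp.coe_finsetSum, Finset.sum_apply, Finsupp.smul_apply, smul_eq_mul, ind_apply]
  by_cases hb : b ∈ T.H j
  · rw [if_pos hb, ← T.coef j c b hb, Finset.mul_sum]
    refine Finset.sum_congr rfl fun τ _ => by ring
  · rw [if_neg hb]
    refine Finset.sum_eq_zero fun τ _ => ?_
    rw [T.ch_out j τ b hb]
    simp

end Tow

namespace Quo

variable {Γ : Type} [AddCommGroup Γ] {T : Tow Γ} {X : Type} [NormedAddCommGroup X]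
    [NormedSpace ℂ X] (Q : Quo T X)

/-- the diagonal part of an operator is asymptotically constant, tested on step functions -/
theorem diag (j n : ℕ) (hjn : j ≤ n) (φ : T.Om j → ℂ) (C : ℝ) (hφ : ∀ τ, ‖φ τ‖ ≤ C)
    (h2 : 2 ≤ (T.Ef n).card) (R : X →L[ℂ] X) :
    ‖∑ τ, φ (T.res j n τ) * Q.I n τ (R (Q.q (T.ind n τ))) -
      ((T.M j : ℂ)⁻¹ * ∑ σ, φ σ) * ∑ τ, Q.I n τ (R (Q.q (T.ind n τ)))‖ ≤
      T.M j * C * (T.eps n * ‖R‖) := by
  classical
  have hMj := T.M_pos j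
  set V : T.Om n → ℂ := fun τ => Q.I n τ (R (Q.q (T.ind n τ))) with hV
  set φh : Γ → ℂ := fun a => (T.M j : ℂ)⁻¹ * ∑ σ', φ σ' * conj (T.ch j σ' a) with hφh
  have hexp : ∀ σ, φ σ = ∑ a ∈ T.H j, φh a * T.ch j σ a := by
    intro σ
    have h1 : ∑ a ∈ T.H j, φh a * T.ch j σ a = ∑ σ', φ σ' * ((T.M j : ℂ)⁻¹ *
        ∑ a ∈ T.H j, T.ch j σ a * conj (T.ch j σ' a)) := by
      simp only [hφh]
      have h2 : ∀ a ∈ T.H j, (T.M j : ℂ)⁻¹ * (∑ σ', φ σ' * conj (T.ch j σ' a)) * T.ch j σ a =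
          ∑ σ', φ σ' * ((T.M j : ℂ)⁻¹ * (T.ch j σ a * conj (T.ch j σ' a))) := by
        intro a _
        rw [Finset.mul_sum, Finset.sum_mul]
        refine Finset.sum_congr rfl fun σ' _ => by ring
      rw [Finset.sum_congr rfl h2, Finset.sum_comm]
      refine Finset.sum_congr rfl fun σ' _ => ?_
      rw [Finset.mul_sum, Finset.mul_sum]
    rw [h1]
    simp only [T.orth, T.M_cast]
    have : ∀ σ', φ σ' * ((T.M j : ℂ)⁻¹ * (if σ = σ' then (T.M j : ℂ) else 0)) =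
        if σ = σ' then φ σ' else 0 := by
      intro σ'
      by_cases h : σ = σ'
      · rw [if_pos h, if_pos h, inv_mul_cancel₀ (T.M_ne j), mul_one]
      · rw [if_neg h, if_neg h]; simp
    simp only [this]
    simp
  have hφhb : ∀ a, ‖φh a‖ ≤ C := by
    intro a
    simp only [hφh]
    rw [norm_mul, norm_inv, Complex.norm_real, Real.norm_of_nonneg hMj.le]
    rw [inv_mul_le_iff₀ hMj]
    refine (norm_sum_le _ _).trans ?_
    have h3 : ∀ σ' ∈ (Finset.univ : Finset (T.Om j)), ‖φ σ' * conj (T.ch j σ' a)‖ ≤ C := by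
      intro σ' _
      rw [norm_mul, RCLike.norm_conj]
      exact (mul_le_of_le_one_right (norm_nonneg _) (T.ch_le j σ' a)).trans (hφ σ')
    refine (Finset.sum_le_sum h3).trans ?_
    rw [Finset.sum_const, Finset.card_univ, nsmul_eq_mul, T.card_Om j]
  have hφ0 : φh 0 = (T.M j : ℂ)⁻¹ * ∑ σ, φ σ := by
    simp only [hφh, T.ch_zero, map_one, mul_one]
  have hLHS : ∑ τ, φ (T.res j n τ) * V τ = ∑ a ∈ T.H j, φh a * ∑ τ, T.ch n τ a * V τ := by
    have h1 : ∀ τ, φ (T.res j n τ) * V τ = ∑ a ∈ T.H j, φh a * (T.ch n τ a * V τ) := by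
      intro τ
      rw [hexp, Finset.sum_mul]
      refine Finset.sum_congr rfl fun a ha => ?_
      rw [T.res_ch j n hjn τ a ha]
      ring
    simp only [h1]
    rw [Finset.sum_comm]
    refine Finset.sum_congr rfl fun a _ => ?_
    rw [Finset.mul_sum]
  rw [hLHS, ← Finset.add_sum_erase _ _ (T.zero_mem j)]
  simp only [T.ch_zero, one_mul]
  rw [hφ0, add_sub_cancel_left]
  refine (norm_sum_le _ _).trans ?_
  have hepsR : ∀ a ∈ (T.H j).erase 0, ‖φh a * ∑ τ, T.ch n τ a * V τ‖ ≤ C * (T.eps n * ‖R‖) := by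
    intro a ha
    rw [norm_mul]
    have h4 := Q.diag_char n a (Finset.ne_of_mem_erase ha)
      (T.mono j n hjn (Finset.mem_of_mem_erase ha)) h2 R
    exact mul_le_mul (hφhb a) h4 (norm_nonneg _) ((norm_nonneg _).trans (hφhb a))
  refine (Finset.sum_le_sum hepsR).trans ?_
  rw [Finset.sum_const, nsmul_eq_mul]
  have h5 : (((T.H j).erase 0).card : ℝ) ≤ T.M j := by
    unfold Tow.M
    exact_mod_cast Finset.card_le_card (Finset.erase_subset _ _)
  by_cases hne : ((T.H j).erase 0).Nonempty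
  · obtain ⟨a, ha⟩ := hne
    have h6 := (norm_nonneg _).trans (hepsR a ha)
    calc (((T.H j).erase 0).card : ℝ) * (C * (T.eps n * ‖R‖)) ≤ T.M j * (C * (T.eps n * ‖R‖)) :=
          mul_le_mul_of_nonneg_right h5 h6
      _ = _ := by ring
  · rw [Finset.not_nonempty_iff_eq_empty.1 hne]
    simp only [Finset.card_empty, Nat.cast_zero, zero_mul]
    have hC : 0 ≤ C := (norm_nonneg _).trans (hφhb 0)
    have he : 0 ≤ T.eps n * ‖R‖ := by
      by_cases hg : ∃ g ∈ T.H n, g ≠ 0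
      · obtain ⟨g, hg1, hg2⟩ := hg
        exact (norm_nonneg _).trans (Q.diag_char n g hg2 hg1 h2 R)
      · exfalso
        push Not at hg
        have h7 : T.Ef n ⊆ {0} := fun a ha =>
          Finset.mem_singleton.2 (hg a ((T.mem_Ef n a).1 ha).2)
        have := Finset.card_le_card h7
        simp at this
        omega
    positivity

/-- norming functionals which are step functions -/
theorem norming (z : X) (ε : ℝ) (hε : 0 < ε) : ∃ (j : ℕ) (g : T.Om j → ℂ) (G : X →L[ℂ] ℂ),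
    (∀ τ, ‖g τ‖ ≤ 1) ∧ (∀ c, G (Q.q c) = (T.M j : ℂ)⁻¹ * ∑ τ, g τ * T.ev j τ c) ∧
    (∀ a ∈ T.E, ∑ τ, g τ * T.ch j τ a = 0) ∧ ‖G z - (‖z‖ : ℂ)‖ < ε := by
  classical
  obtain ⟨F, hF1, hF2⟩ := exists_dual_vector'' ℂ z
  obtain ⟨c, hc⟩ := Q.q_dense.exists_dist_lt z (half_pos hε)
  obtain ⟨j, hj⟩ := T.exists_level_one c
  have hMj := T.M_pos j
  have hMne := T.M_ne j
  let g : T.Om j → ℂ := fun τ => (T.M j : ℂ) * F (Q.q (T.ind j τ))
  have hg1 : ∀ τ, ‖g τ‖ ≤ 1 := by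
    intro τ
    have h1 : ‖F (Q.q (T.ind j τ))‖ ≤ (T.M j)⁻¹ := by
      refine (F.le_opNorm _).trans ?_
      have h2 := Q.q_le (T.ind j τ)
      rw [T.N_ind] at h2
      calc ‖F‖ * ‖Q.q (T.ind j τ)‖ ≤ 1 * (T.M j)⁻¹ := by gcongr
        _ = _ := one_mul _
    simp only [g]
    rw [norm_mul, Complex.norm_real, Real.norm_of_nonneg hMj.le]
    calc T.M j * ‖F (Q.q (T.ind j τ))‖ ≤ T.M j * (T.M j)⁻¹ := by gcongr
      _ = 1 := mul_inv_cancel₀ hMj.ne'
  have hform : ∀ d, (T.M j : ℂ)⁻¹ * ∑ τ, g τ * T.ev j τ d =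
      F (Q.q (∑ τ, T.ev j τ d • T.ind j τ)) := by
    intro d
    rw [map_sum, map_sum, Finset.mul_sum]
    refine Finset.sum_congr rfl fun τ _ => ?_
    rw [map_smul, map_smul, smul_eq_mul]
    simp only [g]
    field_simp
  have hY : ∀ y, T.InY y → (T.M j : ℂ)⁻¹ * ∑ τ, g τ * T.ev j τ y = 0 := by
    intro y hy
    rw [hform, Q.q_Y, map_zero]
    intro b hb
    rw [T.trunc_apply] at hb
    by_cases h : b ∈ T.H j
    · rw [if_pos h] at hb
      exact hy b hb
    · rw [if_neg h] at hb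
      exact absurd rfl hb
  let L : (Γ →₀ ℂ) →ₗ[ℂ] ℂ := (T.M j : ℂ)⁻¹ • ∑ τ, g τ • T.ev j τ
  have hL : ∀ d, L d = (T.M j : ℂ)⁻¹ * ∑ τ, g τ * T.ev j τ d := by
    intro d
    simp [L]
  obtain ⟨G, hG1, hG2⟩ := Q.ext L 1 zero_le_one (by
    intro d
    rw [hL]
    refine (T.pair_le j g 1 hg1 d).trans ?_
    rw [one_mul, one_mul]
    exact T.Nn_le_N j d) (by
    intro y hy
    rw [hL]
    exact hY y hy)
  refine ⟨j, g, G, hg1, fun d => (hG1 d).trans (hL d), ?_, ?_⟩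
  · intro a ha
    have h1 := hY (Finsupp.single a 1) (by
      intro b hb
      rw [Finsupp.single_apply] at hb
      by_cases hab : a = b
      · rw [← hab]; exact ha
      · rw [if_neg hab] at hb; exact absurd rfl hb)
    simp only [T.ev_single, one_mul] at h1
    rcases mul_eq_zero.1 h1 with h | h
    · exact absurd h (inv_ne_zero hMne)
    · exact h
  · have h1 : G (Q.q c) = F (Q.q c) := by
      rw [hG1, hL, hform, ← T.expand j c (hj j le_rfl)]
    have h2 : G z - (‖z‖ : ℂ) = G (z - Q.q c) + F (Q.q c - z) := by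
      rw [map_sub, map_sub, h1, hF2]
      simp
    rw [h2]
    have h3 : ‖z - Q.q c‖ < ε / 2 := by rwa [← dist_eq_norm]
    have h4 : ‖G (z - Q.q c)‖ ≤ ‖z - Q.q c‖ := by
      have := hG2 (z - Q.q c)
      rwa [one_mul] at this
    have h5 : ‖F (Q.q c - z)‖ ≤ ‖z - Q.q c‖ := by
      have := F.le_opNorm (Q.q c - z)
      rw [norm_sub_rev (Q.q c) z] at this
      refine this.trans ?_
      calc ‖F‖ * ‖z - Q.q c‖ ≤ 1 * ‖z - Q.q c‖ := by gcongr
        _ = _ := one_mul _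
    have h6 := norm_add_le (G (z - Q.q c)) (F (Q.q c - z))
    linarith

end Quo

end Pool.Agent.TH325.PI
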