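import Pool.Agent.TH325.PI.Spc

set_option autoImplicit false

open scoped ComplexConjugate
open Finset

namespace Pool.Agent.TH325.PI

namespace Tow

variable {Γ : Type} [AddCommGroup Γ] (T : Tow Γ)

theorem ch_zero (n : ℕ) (τ : T.Om n) : T.ch n τ 0 = 1 := by
  have e := T.ch_add n τ 0 0 (T.zero_mem n) (T.zero_mem n)
  rw [add_zero] at e
  have h0 : T.ch n τ 0 ≠ 0 := by
    intro h0
    have := T.ch_norm n τ 0 (T.zero_mem n)
    rw [h0] at this
    simp at this
  exact (mul_eq_left₀ h0).1 e.symm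

/-- the density of the Sidon set at level `n` -/
noncomputable def rho (n : ℕ) : ℝ := ((T.Ef n).card : ℝ) / T.M n

theorem rho_nonneg (n : ℕ) : 0 ≤ T.rho n := by
  have := (T.M_pos n).le
  unfold rho
  positivity

/-- integration over a cell, corrected so that it kills the Sidon part -/
noncomputable def I0 (n : ℕ) (τ : T.Om n) : (Γ →₀ ℂ) →ₗ[ℂ] ℂ :=
  (T.M n : ℂ)⁻¹ • (T.ev n τ - ∑ a ∈ T.Ef n, T.ch n τ a • Finsupp.lapply a)

theorem I0_apply (n : ℕ) (τ : T.Om n) (d : Γ →₀ ℂ) :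
    T.I0 n τ d = (T.M n : ℂ)⁻¹ * (T.ev n τ d - ∑ a ∈ T.Ef n, T.ch n τ a * d a) := by
  unfold I0
  rw [LinearMap.smul_apply, LinearMap.sub_apply, LinearMap.sum_apply]
  simp

theorem I0_Y (n : ℕ) (τ : T.Om n) (y : Γ →₀ ℂ) (hy : T.InY y) : T.I0 n τ y = 0 := by
  rw [I0_apply, T.ev_Y n τ y hy]
  have : ∑ a ∈ T.Ef n, y a * T.ch n τ a = ∑ a ∈ T.Ef n, T.ch n τ a * y a :=
    Finset.sum_congr rfl fun a _ => mul_comm _ _
  rw [this, sub_self, mul_zero]

theorem corr_le (n : ℕ) (τ : T.Om n) (d : Γ →₀ ℂ) :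
    ‖∑ a ∈ T.Ef n, T.ch n τ a * d a‖ ≤ (T.Ef n).card * T.N d := by
  refine (norm_sum_le _ _).trans ?_
  have : ∀ a ∈ T.Ef n, ‖T.ch n τ a * d a‖ ≤ T.N d := by
    intro a _
    rw [norm_mul]
    exact (mul_le_of_le_one_left (norm_nonneg _) (T.ch_le n τ a)).trans (T.coef_le_N d a)
  refine (Finset.sum_le_sum this).trans ?_
  rw [Finset.sum_const, nsmul_eq_mul]

/-- combinations of the corrected integrations -/
theorem comb_I0 (n : ℕ) (φ ω : T.Om n → ℂ) (C D : ℝ) (hC : ∀ τ, ‖ω τ + φ τ‖ ≤ C)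
    (hD : ∑ τ, ‖φ τ‖ ≤ D) (d : Γ →₀ ℂ) :
    ‖(T.M n : ℂ)⁻¹ * ∑ τ, ω τ * T.ev n τ d + ∑ τ, φ τ * T.I0 n τ d‖ ≤
      (C + D * T.rho n) * T.N d := by
  have hM := T.M_pos n
  have e : (T.M n : ℂ)⁻¹ * ∑ τ, ω τ * T.ev n τ d + ∑ τ, φ τ * T.I0 n τ d =
      (T.M n : ℂ)⁻¹ * ∑ τ, (ω τ + φ τ) * T.ev n τ d -
      (T.M n : ℂ)⁻¹ * ∑ τ, φ τ * ∑ a ∈ T.Ef n, T.ch n τ a * d a := by
    simp only [I0_apply, add_mul, Finset.sum_add_distrib, mul_sub, Finset.sum_sub_distrib]
    have h1 : ∑ τ, φ τ * ((T.M n : ℂ)⁻¹ * T.ev n τ d) = (T.M n : ℂ)⁻¹ * ∑ τ, φ τ * T.ev n τ d := by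
      rw [Finset.mul_sum]
      exact Finset.sum_congr rfl fun τ _ => by ring
    have h2 : ∑ τ, φ τ * ((T.M n : ℂ)⁻¹ * ∑ a ∈ T.Ef n, T.ch n τ a * d a) =
        (T.M n : ℂ)⁻¹ * ∑ τ, φ τ * ∑ a ∈ T.Ef n, T.ch n τ a * d a := by
      rw [Finset.mul_sum]
      exact Finset.sum_congr rfl fun τ _ => by ring
    rw [h1, h2, mul_add]
    ring
  rw [e, add_mul]
  have hC0 : 0 ≤ C := by
    by_contra hneg
    push Not at hneg
    have hne : Nonempty (T.Om n) := by
      by_contra hemp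
      rw [not_nonempty_iff] at hemp
      have := T.card_Om n
      rw [Fintype.card_eq_zero] at this
      simp at this
      linarith
    obtain ⟨τ⟩ := hne
    have := (norm_nonneg _).trans (hC τ)
    linarith
  refine (norm_sub_le _ _).trans (add_le_add ?_ ?_)
  · refine (T.pair_le n _ C hC d).trans ?_
    exact mul_le_mul_of_nonneg_left (T.Nn_le_N n d) hC0
  · rw [norm_mul, norm_inv, Complex.norm_real, Real.norm_of_nonneg hM.le]
    have h1 : ‖∑ τ, φ τ * ∑ a ∈ T.Ef n, T.ch n τ a * d a‖ ≤ D * ((T.Ef n).card * T.N d) := by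
      refine (norm_sum_le _ _).trans ?_
      have h2 : ∀ τ ∈ (Finset.univ : Finset (T.Om n)), ‖φ τ * ∑ a ∈ T.Ef n, T.ch n τ a * d a‖ ≤
          ‖φ τ‖ * ((T.Ef n).card * T.N d) := by
        intro τ _
        rw [norm_mul]
        exact mul_le_mul_of_nonneg_left (T.corr_le n τ d) (norm_nonneg _)
      refine (Finset.sum_le_sum h2).trans ?_
      rw [← Finset.sum_mul]
      exact mul_le_mul_of_nonneg_right hD (mul_nonneg (by positivity) (T.N_nonneg d))
    calc (T.M n)⁻¹ * ‖∑ τ, φ τ * ∑ a ∈ T.Ef n, T.ch n τ a * d a‖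
        ≤ (T.M n)⁻¹ * (D * ((T.Ef n).card * T.N d)) := by gcongr
      _ = D * T.rho n * T.N d := by unfold rho; ring

/-- the error term -/
noncomputable def eps (n : ℕ) : ℝ :=
  (T.bi n * (T.Ef n).card + 1) / ((T.Ef n).card - 1) + T.rho n

theorem Om_nonempty (n : ℕ) : Nonempty (T.Om n) := by
  by_contra hemp
  rw [not_nonempty_iff] at hemp
  have := T.card_Om n
  rw [Fintype.card_eq_zero] at this
  simp at this
  have := T.M_pos n
  linarith

end Tow

namespace Quo

variable {Γ : Type} [AddCommGroup Γ] {T : Tow Γ} {X : Type} [NormedAddCommGroup X]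
    [NormedSpace ℂ X] (Q : Quo T X)

/-- bounds are checked on polynomials -/
theorem bound (F : X →L[ℂ] ℂ) (C : ℝ) (hC : 0 ≤ C) (h : ∀ c, ‖F (Q.q c)‖ ≤ C * T.N c) (z : X) :
    ‖F z‖ ≤ C * ‖z‖ := by
  have hbd : ∀ c, ‖F (Q.q c)‖ ≤ C * ‖Q.q c‖ := by
    intro c
    refine le_of_forall_pos_le_add fun ε hε => ?_
    obtain ⟨y, hy, hlt⟩ := Q.q_inf c (ε / (C + 1)) (by positivity)
    have h1 : F (Q.q c) = F (Q.q (c - y)) := by rw [map_sub, Q.q_Y y hy, sub_zero]
    rw [h1]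
    refine (h _).trans ?_
    have h2 : C * T.N (c - y) ≤ C * (‖Q.q c‖ + ε / (C + 1)) := mul_le_mul_of_nonneg_left hlt.le hC
    refine h2.trans ?_
    rw [mul_add]
    have h3 : C * (ε / (C + 1)) ≤ ε := by
      rw [mul_div_assoc', div_le_iff₀ (by linarith)]
      nlinarith
    linarith
  have hcl : IsClosed {z : X | ‖F z‖ ≤ C * ‖z‖} :=
    isClosed_le F.continuous.norm (continuous_const.mul continuous_norm)
  refine Q.q_dense.induction_on (p := fun z => ‖F z‖ ≤ C * ‖z‖) z hcl hbd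

/-- the corrected integration over a cell as a functional on `X` -/
theorem exists_I (n : ℕ) (τ : T.Om n) : ∃ F : X →L[ℂ] ℂ, ∀ c, F (Q.q c) = T.I0 n τ c := by
  classical
  obtain ⟨F, h1, h2⟩ := Q.ext (T.I0 n τ) (1 + T.rho n) (by have := T.rho_nonneg n; linarith) (by
    intro c
    have h := T.comb_I0 n (fun τ' => if τ' = τ then 1 else 0) (fun _ => 0) 1 1 (by
      intro τ'
      by_cases h : τ' = τ
      · simp [h]
      · simp [h]) (by
      have : ∀ τ', ‖(if τ' = τ then (1 : ℂ) else 0)‖ = if τ' = τ then 1 else 0 := by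
        intro τ'
        by_cases h : τ' = τ
        · simp [h]
        · simp [h]
      simp [this]) c
    simpa using h) (T.I0_Y n τ)
  exact ⟨F, h1⟩

/-- the corrected integration over a cell as a functional on `X` -/
noncomputable def I (n : ℕ) (τ : T.Om n) : X →L[ℂ] ℂ := (Q.exists_I n τ).choose

theorem I_q (n : ℕ) (τ : T.Om n) (c : Γ →₀ ℂ) : Q.I n τ (Q.q c) = T.I0 n τ c :=
  (Q.exists_I n τ).choose_spec c

/-- the coefficient functionals -/
theorem exists_co (a : Γ) (ha : a ∉ T.E) : ∃ F : X →L[ℂ] ℂ, ∀ c, F (Q.q c) = c a := by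
  obtain ⟨F, h1, h2⟩ := Q.ext (Finsupp.lapply a) 1 zero_le_one (by
    intro c
    rw [one_mul]
    exact T.coef_le_N c a) (by
    intro y hy
    by_contra h
    exact ha (hy a h))
  exact ⟨F, h1⟩

/-- the off-diagonal kernel is small -/
theorem ker_small (n : ℕ) (g : Γ) (hg : g ≠ 0) (τ τ' : T.Om n) (hne : τ ≠ τ')
    (Eg : Finset Γ) (hEg : ∀ a, a ∈ Eg ↔ a ∈ T.Ef n ∧ a - g ∉ T.E) :
    ‖∑ a ∈ Eg, T.ch n τ a * conj (T.ch n τ' a)‖ ≤ T.bi n * (T.Ef n).card + 1 ∧
      ((T.Ef n).card : ℝ) - 1 ≤ Eg.card := by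
  classical
  have hsub : Eg ⊆ T.Ef n := fun a ha => ((hEg a).1 ha).1
  have hcard : (T.Ef n \ Eg).card ≤ 1 := by
    rw [Finset.card_le_one]
    intro a ha b hb
    rw [Finset.mem_sdiff, hEg] at ha hb
    have ha2 : a - g ∈ T.E := by
      by_contra h
      exact ha.2 ⟨ha.1, h⟩
    have hb2 : b - g ∈ T.E := by
      by_contra h
      exact hb.2 ⟨hb.1, h⟩
    have hE := fun a ha => ((T.mem_Ef n a).1 ha).1
    rcases T.sidon a (b - g) b (a - g) (hE a ha.1) hb2 (hE b hb.1) ha2 (by abel) with h | h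
    · exact h.1
    · exfalso
      apply hg
      have := h.1
      have h3 : g = 0 := by
        have h4 : a - (a - g) = 0 := by rw [← this, sub_self]
        rw [sub_sub_cancel] at h4
        exact h4
      exact h3
  constructor
  · have h1 : ∑ a ∈ Eg, T.ch n τ a * conj (T.ch n τ' a) =
        ∑ a ∈ T.Ef n, T.ch n τ a * conj (T.ch n τ' a) -
          ∑ a ∈ T.Ef n \ Eg, T.ch n τ a * conj (T.ch n τ' a) := by
      rw [← Finset.sum_sdiff hsub]
      ring
    rw [h1]
    refine (norm_sub_le _ _).trans (add_le_add (T.bias n τ τ' hne) ?_)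
    refine (norm_sum_le _ _).trans ?_
    have h2 : ∀ a ∈ T.Ef n \ Eg, ‖T.ch n τ a * conj (T.ch n τ' a)‖ ≤ 1 := by
      intro a _
      rw [norm_mul, RCLike.norm_conj]
      exact mul_le_one₀ (T.ch_le n τ a) (norm_nonneg _) (T.ch_le n τ' a)
    refine (Finset.sum_le_sum h2).trans ?_
    rw [Finset.sum_const, nsmul_eq_mul, mul_one]
    exact_mod_cast hcard
  · have h1 : (T.Ef n).card = (T.Ef n \ Eg).card + Eg.card :=
      (Finset.card_sdiff_add_card_eq_card hsub).symm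
    have h2 : ((T.Ef n).card : ℝ) = ((T.Ef n \ Eg).card : ℝ) + Eg.card := by exact_mod_cast h1
    have h3 : (((T.Ef n \ Eg).card : ℕ) : ℝ) ≤ 1 := by exact_mod_cast hcard
    linarith

/-- the diagonal part of an operator is asymptotically constant -/
theorem diag_char (n : ℕ) (g : Γ) (hg : g ≠ 0) (hgn : g ∈ T.H n) (h2 : 2 ≤ (T.Ef n).card)
    (R : X →L[ℂ] X) :
    ‖∑ τ, T.ch n τ g * Q.I n τ (R (Q.q (T.ind n τ)))‖ ≤ T.eps n * ‖R‖ := by
  classical
  obtain ⟨Eg, hEg⟩ : ∃ Eg : Finset Γ, ∀ a, a ∈ Eg ↔ a ∈ T.Ef n ∧ a - g ∉ T.E :=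
    ⟨(T.Ef n).filter (fun a => a - g ∉ T.E), fun a => Finset.mem_filter⟩
  have hM := T.M_pos n
  have hcardR : ((T.Ef n).card : ℝ) ≥ 2 := by exact_mod_cast h2
  -- the coefficient functionals
  have hco : ∀ a, ∃ F : X →L[ℂ] ℂ, a ∈ Eg → ∀ c, F (Q.q c) = c (a - g) := by
    intro a
    by_cases ha : a ∈ Eg
    · obtain ⟨F, hF⟩ := Q.exists_co (a - g) ((hEg a).1 ha).2
      exact ⟨F, fun _ => hF⟩
    · exact ⟨0, fun h => absurd h ha⟩
  choose co hco using hco
  obtain ⟨τ₀⟩ := T.Om_nonempty n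
  have hcE : 1 ≤ (Eg.card : ℝ) := by
    have h1 : ((T.Ef n).card : ℝ) - 1 ≤ Eg.card := by
      have hsub : Eg ⊆ T.Ef n := fun a ha => ((hEg a).1 ha).1
      have hcard : (T.Ef n \ Eg).card ≤ 1 := by
        rw [Finset.card_le_one]
        intro a ha b hb
        rw [Finset.mem_sdiff, hEg] at ha hb
        have ha2 : a - g ∈ T.E := by
          by_contra h
          exact ha.2 ⟨ha.1, h⟩
        have hb2 : b - g ∈ T.E := by
          by_contra h
          exact hb.2 ⟨hb.1, h⟩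
        have hE := fun a ha => ((T.mem_Ef n a).1 ha).1
        rcases T.sidon a (b - g) b (a - g) (hE a ha.1) hb2 (hE b hb.1) ha2 (by abel) with h | h
        · exact h.1
        · exfalso
          apply hg
          have := h.1
          have h4 : a - (a - g) = 0 := by rw [← this, sub_self]
          rw [sub_sub_cancel] at h4
          exact h4
      have h1 : (T.Ef n).card = (T.Ef n \ Eg).card + Eg.card :=
        (Finset.card_sdiff_add_card_eq_card hsub).symm
      have h2 : ((T.Ef n).card : ℝ) = ((T.Ef n \ Eg).card : ℝ) + Eg.card := by exact_mod_cast h1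
      have h3 : (((T.Ef n \ Eg).card : ℕ) : ℝ) ≤ 1 := by exact_mod_cast hcard
      linarith
    linarith
  have hcE0 : (0 : ℝ) < Eg.card := by linarith
  have hcEc : (Eg.card : ℂ) ≠ 0 := by exact_mod_cast hcE0.ne'
  -- the vanishing relations
  have hzero : ∀ a ∈ Eg, ∑ τ, T.ch n τ a * co a (R (Q.q (T.ind n τ))) = 0 := by
    intro a ha
    have haE := (T.mem_Ef n a).1 ((hEg a).1 ha).1
    have hy : T.InY (Finsupp.single a (1 : ℂ)) := by
      intro b hb
      rw [Finsupp.single_apply] at hb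
      by_cases hab : a = b
      · rw [← hab]; exact haE.1
      · rw [if_neg hab] at hb; exact absurd rfl hb
    have hexp := T.expand n (Finsupp.single a (1 : ℂ)) (by
      intro b hb
      rw [Finsupp.single_apply] at hb
      by_cases hab : a = b
      · rw [← hab]; exact haE.2
      · rw [if_neg hab] at hb; exact absurd rfl hb)
    have h0 := Q.q_Y _ hy
    rw [hexp, map_sum] at h0
    have h1 := congrArg (fun z => co a (R z)) h0
    simp only [map_sum, map_smul, map_zero, smul_eq_mul, T.ev_single, one_mul] at h1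
    exact h1
  -- the difference functionals
  let D : T.Om n → (X →L[ℂ] ℂ) := fun τ =>
    T.ch n τ g • Q.I n τ - (Eg.card : ℂ)⁻¹ • ∑ a ∈ Eg, T.ch n τ a • co a
  have hDapp : ∀ τ z, D τ z = T.ch n τ g * Q.I n τ z -
      (Eg.card : ℂ)⁻¹ * ∑ a ∈ Eg, T.ch n τ a * co a z := by
    intro τ z
    simp [D]
  have hepos : 0 ≤ T.eps n := by
    unfold Tow.eps
    have h1 : 0 ≤ T.bi n * (T.Ef n).card + 1 := by
      by_cases hsub : ∃ τ τ' : T.Om n, τ ≠ τ'
      · obtain ⟨τ, τ', hne⟩ := hsub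
        have := (norm_nonneg _).trans (T.bias n τ τ' hne)
        linarith
      · exfalso
        push Not at hsub
        have hc : Fintype.card (T.Om n) ≤ 1 := Fintype.card_le_one_iff.2 hsub
        have h3 := T.card_Om n
        have h4 : ((T.Ef n).card : ℝ) ≤ T.M n := by
          unfold Tow.M
          exact_mod_cast Finset.card_le_card (fun a ha => ((T.mem_Ef n a).1 ha).2)
        have h5 : (Fintype.card (T.Om n) : ℝ) ≤ 1 := by exact_mod_cast hc
        linarith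
    have h2 := T.rho_nonneg n
    have h3 : (0 : ℝ) < (T.Ef n).card - 1 := by linarith
    positivity
  have hDb : ∀ τ z, ‖D τ z‖ ≤ T.eps n * ‖z‖ := by
    intro τ
    refine Q.bound (D τ) (T.eps n) hepos fun d => ?_
    rw [hDapp, Q.I_q, T.I0_apply]
    have hsum : ∑ a ∈ Eg, T.ch n τ a * co a (Q.q d) =
        (T.M n : ℂ)⁻¹ * ∑ τ', (T.ch n τ' g * ∑ a ∈ Eg, T.ch n τ a * conj (T.ch n τ' a)) *
          T.ev n τ' d := by
      have h1 : ∀ a ∈ Eg, T.ch n τ a * co a (Q.q d) = (T.M n : ℂ)⁻¹ * ∑ τ',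
          T.ch n τ' g * (T.ch n τ a * conj (T.ch n τ' a)) * T.ev n τ' d := by
        intro a ha
        have haE := (T.mem_Ef n a).1 ((hEg a).1 ha).1
        have hag : a - g ∈ T.H n := by
          rw [sub_eq_add_neg]
          exact T.add_mem n _ _ haE.2 (T.neg_mem n _ hgn)
        rw [hco a ha d, ← T.coef n d (a - g) hag, Finset.mul_sum, Finset.mul_sum, Finset.mul_sum]
        refine Finset.sum_congr rfl fun τ' _ => ?_
        have h2 : T.ch n τ' (a - g) = T.ch n τ' a * conj (T.ch n τ' g) := by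
          rw [sub_eq_add_neg, T.ch_add n τ' a (-g) haE.2 (T.neg_mem n g hgn), T.ch_neg]
        rw [h2, map_mul, Complex.conj_conj]
        ring
      rw [Finset.sum_congr rfl h1, ← Finset.mul_sum, Finset.sum_comm]
      congr 1
      refine Finset.sum_congr rfl fun τ' _ => ?_
      rw [Finset.mul_sum, Finset.sum_mul]
    rw [hsum]
    -- isolate the diagonal term
    have hself : ∑ a ∈ Eg, T.ch n τ a * conj (T.ch n τ a) = (Eg.card : ℂ) := by
      have : ∀ a ∈ Eg, T.ch n τ a * conj (T.ch n τ a) = 1 := by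
        intro a ha
        have haE := (T.mem_Ef n a).1 ((hEg a).1 ha).1
        rw [Complex.mul_conj, Complex.normSq_eq_norm_sq, T.ch_norm n τ a haE.2]
        simp
      rw [Finset.sum_congr rfl this]
      simp
    set k : T.Om n → ℂ := fun τ' => ∑ a ∈ Eg, T.ch n τ a * conj (T.ch n τ' a) with hk
    have e1 : T.ch n τ g * ((T.M n : ℂ)⁻¹ * (T.ev n τ d - ∑ a ∈ T.Ef n, T.ch n τ a * d a)) -
        (Eg.card : ℂ)⁻¹ * ((T.M n : ℂ)⁻¹ * ∑ τ', T.ch n τ' g * k τ' * T.ev n τ' d) =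
        (T.M n : ℂ)⁻¹ * ∑ τ', (if τ' = τ then 0 else -((Eg.card : ℂ)⁻¹ * (T.ch n τ' g * k τ'))) *
          T.ev n τ' d - (T.M n : ℂ)⁻¹ * (T.ch n τ g * ∑ a ∈ T.Ef n, T.ch n τ a * d a) := by
      have h3 : ∑ τ', (if τ' = τ then 0 else -((Eg.card : ℂ)⁻¹ * (T.ch n τ' g * k τ'))) *
          T.ev n τ' d = T.ch n τ g * T.ev n τ d -
            (Eg.card : ℂ)⁻¹ * ∑ τ', T.ch n τ' g * k τ' * T.ev n τ' d := by
        have h4 : ∀ τ', (if τ' = τ then 0 else -((Eg.card : ℂ)⁻¹ * (T.ch n τ' g * k τ'))) *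
            T.ev n τ' d = (if τ' = τ then T.ch n τ' g * T.ev n τ' d else 0) -
              (Eg.card : ℂ)⁻¹ * (T.ch n τ' g * k τ' * T.ev n τ' d) := by
          intro τ'
          by_cases h : τ' = τ
          · rw [if_pos h, if_pos h, h]
            have : k τ = (Eg.card : ℂ) := hself
            rw [this]
            field_simp
            ring
          · rw [if_neg h, if_neg h]
            ring
        simp only [h4]
        rw [Finset.sum_sub_distrib, ← Finset.mul_sum]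
        simp
      rw [h3]
      ring
    rw [e1]
    unfold Tow.eps
    rw [add_mul]
    have hsub1 : (0 : ℝ) < (T.Ef n).card - 1 := by linarith
    refine (norm_sub_le _ _).trans (add_le_add ?_ ?_)
    · have hb : 0 ≤ (T.bi n * (T.Ef n).card + 1) / ((T.Ef n).card - 1) := by
        by_cases hsub : ∃ τ τ' : T.Om n, τ ≠ τ'
        · obtain ⟨σ, σ', hne⟩ := hsub
          have := (norm_nonneg _).trans (T.bias n σ σ' hne)
          apply div_nonneg (by linarith) hsub1.le
        · exfalso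
          push Not at hsub
          have hc : Fintype.card (T.Om n) ≤ 1 := Fintype.card_le_one_iff.2 hsub
          have h3 := T.card_Om n
          have h4 : ((T.Ef n).card : ℝ) ≤ T.M n := by
            unfold Tow.M
            exact_mod_cast Finset.card_le_card (fun a ha => ((T.mem_Ef n a).1 ha).2)
          have h5 : (Fintype.card (T.Om n) : ℝ) ≤ 1 := by exact_mod_cast hc
          linarith
      refine (T.pair_le n _ ((T.bi n * (T.Ef n).card + 1) / ((T.Ef n).card - 1)) ?_ d).trans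
        (mul_le_mul_of_nonneg_left (T.Nn_le_N n d) hb)
      intro τ'
      by_cases h : τ' = τ
      · rw [if_pos h, norm_zero]
        exact hb
      · rw [if_neg h, norm_neg, norm_mul, norm_inv, norm_mul]
        obtain ⟨h5, h6⟩ := ker_small n g hg τ τ' (fun h' => h h'.symm) Eg hEg
        have h7 : ‖(Eg.card : ℂ)‖ = Eg.card := by simp
        rw [h7]
        have h8 : ‖T.ch n τ' g‖ * ‖k τ'‖ ≤ T.bi n * (T.Ef n).card + 1 :=
          (mul_le_of_le_one_left (norm_nonneg _) (T.ch_le n τ' g)).trans h5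
        have h9 : 0 ≤ T.bi n * (T.Ef n).card + 1 := (norm_nonneg _).trans h5
        rw [inv_mul_le_iff₀ hcE0]
        refine h8.trans ?_
        rw [mul_div_assoc', le_div_iff₀ hsub1, mul_comm]
        exact mul_le_mul_of_nonneg_right h6 h9
    · rw [norm_mul, norm_inv, Complex.norm_real, Real.norm_of_nonneg hM.le, norm_mul]
      have h1 : ‖T.ch n τ g‖ * ‖∑ a ∈ T.Ef n, T.ch n τ a * d a‖ ≤ (T.Ef n).card * T.N d :=
        (mul_le_of_le_one_left (norm_nonneg _) (T.ch_le n τ g)).trans (T.corr_le n τ d)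
      calc (T.M n)⁻¹ * (‖T.ch n τ g‖ * ‖∑ a ∈ T.Ef n, T.ch n τ a * d a‖)
          ≤ (T.M n)⁻¹ * ((T.Ef n).card * T.N d) := by gcongr
        _ = T.rho n * T.N d := by unfold Tow.rho; ring
  -- conclusion
  have hfinal : ∑ τ, T.ch n τ g * Q.I n τ (R (Q.q (T.ind n τ))) =
      ∑ τ, D τ (R (Q.q (T.ind n τ))) := by
    simp only [hDapp]
    rw [Finset.sum_sub_distrib]
    have : ∑ τ, (Eg.card : ℂ)⁻¹ * ∑ a ∈ Eg, T.ch n τ a * co a (R (Q.q (T.ind n τ))) = 0 := by
      rw [← Finset.mul_sum, Finset.sum_comm]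
      rw [Finset.sum_congr rfl hzero]
      simp
    rw [this, sub_zero]
  rw [hfinal]
  refine (norm_sum_le _ _).trans ?_
  have h3 : ∀ τ ∈ (Finset.univ : Finset (T.Om n)), ‖D τ (R (Q.q (T.ind n τ)))‖ ≤
      T.eps n * ‖R‖ * (T.M n)⁻¹ := by
    intro τ _
    refine (hDb τ _).trans ?_
    have h4 : ‖R (Q.q (T.ind n τ))‖ ≤ ‖R‖ * (T.M n)⁻¹ := by
      refine (R.le_opNorm _).trans ?_
      have h5 := Q.q_le (T.ind n τ)
      rw [T.N_ind] at h5
      exact mul_le_mul_of_nonneg_left h5 (norm_nonneg _)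
    calc T.eps n * ‖R (Q.q (T.ind n τ))‖ ≤ T.eps n * (‖R‖ * (T.M n)⁻¹) :=
          mul_le_mul_of_nonneg_left h4 hepos
      _ = _ := by ring
  refine (Finset.sum_le_sum h3).trans ?_
  rw [Finset.sum_const, Finset.card_univ, nsmul_eq_mul, T.card_Om n]
  have : T.M n * (T.eps n * ‖R‖ * (T.M n)⁻¹) = T.eps n * ‖R‖ := by field_simp
  rw [this]

end Quo

end Pool.Agent.TH325.PI
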