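import Pool.Agent.TH325.PI.Rad

set_option autoImplicit false

open scoped ComplexConjugate
open Finset Function Filter Topology

namespace Pool.Agent.TH325.PI

namespace Tow

variable {Γ : Type} [AddCommGroup Γ] (T : Tow Γ)

theorem compl_infinite : (T.Eᶜ).Infinite := by
  classical
  intro hfin
  obtain ⟨s, hs⟩ : ∃ s : Finset Γ, ∀ a, a ∈ s ↔ a ∉ T.E :=
    ⟨hfin.toFinset, fun a => by rw [Set.Finite.mem_toFinset]; rfl⟩
  have e1 : ∀ᶠ n in atTop, T.rho n ≤ 1 / 2 :=
    T.rho_tendsto.eventually (eventually_le_nhds (by norm_num))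
  have e2 : ∀ᶠ n in atTop, 2 * (s.card : ℝ) + 1 ≤ T.M n :=
    T.M_lim.eventually (eventually_ge_atTop _)
  obtain ⟨n, h1, h2⟩ := (e1.and e2).exists
  have h3 : T.H n ⊆ T.Ef n ∪ s := by
    intro a ha
    rw [Finset.mem_union]
    by_cases h : a ∈ T.E
    · exact Or.inl ((T.mem_Ef n a).2 ⟨h, ha⟩)
    · exact Or.inr ((hs a).2 h)
  have h4 : T.M n ≤ (T.Ef n).card + s.card := by
    unfold M
    exact_mod_cast (Finset.card_le_card h3).trans (Finset.card_union_le _ _)
  have hM := T.M_pos n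
  have h5 : ((T.Ef n).card : ℝ) ≤ 1 / 2 * T.M n := by
    have h6 : T.rho n = (T.Ef n).card / T.M n := rfl
    rw [h6, div_le_iff₀ hM] at h1
    exact h1
  linarith

end Tow

namespace Quo

variable {Γ : Type} [AddCommGroup Γ] {T : Tow Γ} {X : Type} [NormedAddCommGroup X]
    [NormedSpace ℂ X] (Q : Quo T X)

include Q in
theorem lin_indep : LinearIndependent ℂ (fun a : (T.Eᶜ : Set Γ) =>
    Q.q (Finsupp.single (a : Γ) (1 : ℂ))) := by
  classical
  rw [linearIndependent_iff']
  intro s g hsum i hi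
  obtain ⟨F, hF⟩ := Q.exists_co (i : Γ) i.2
  have h1 := congrArg F hsum
  rw [map_sum, map_zero] at h1
  have h2 : ∀ j ∈ s, F (g j • Q.q (Finsupp.single (j : Γ) (1 : ℂ))) = if i = j then g j else 0 := by
    intro j _
    rw [map_smul, hF, Finsupp.single_apply, smul_eq_mul]
    by_cases h : i = j
    · rw [if_pos h, h, if_pos rfl, mul_one]
    · rw [if_neg h, if_neg (fun h' => h (Subtype.ext h'.symm)), mul_zero]
  rw [Finset.sum_congr rfl h2, Finset.sum_ite_eq, if_pos hi] at h1
  exact h1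

include Q in
theorem infinite_dim : ¬ FiniteDimensional ℂ X := by
  intro hfd
  have h := Q.lin_indep
  have := T.compl_infinite.to_subtype
  exact Module.Finite.not_linearIndependent_of_infinite _ h

include Q in
theorem nontriv : Nontrivial X := by
  obtain ⟨a, ha⟩ := T.compl_infinite.nonempty
  exact ⟨_, _, Q.lin_indep.ne_zero (⟨a, ha⟩ : (T.Eᶜ : Set Γ))⟩

end Quo

end Pool.Agent.TH325.PI
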