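import Mathlib

set_option autoImplicit false

open Finset Function

namespace Pool.Agent.TH325.PI

variable {X : Type} [NormedAddCommGroup X] [NormedSpace ℂ X]

theorem taylor {k : ℕ} (A : ContinuousMultilinearMap ℂ (fun _ : Fin k => X) X) (m v : Fin k → X)
    (D : ℝ) (hD0 : 0 ≤ D)
    (hD : ∀ s : Finset (Fin k), 2 ≤ s.card → ∏ i, ‖s.piecewise v m i‖ ≤ D) :
    ‖A (m + v) - A m - ∑ a, A (update m a (v a))‖ ≤ 2 ^ k * (‖A‖ * D) := by
  classical
  have h := A.toMultilinearMap.map_add_eq_map_add_linearDeriv_add m v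
  rw [MultilinearMap.linearDeriv_apply] at h
  have h' : A (m + v) = A m + ∑ a, A (update m a (v a)) +
      ∑ s : Finset (Fin k) with 2 ≤ s.card, A (s.piecewise v m) := h
  rw [h']
  have e : A m + ∑ a, A (update m a (v a)) +
      ∑ s : Finset (Fin k) with 2 ≤ s.card, A (s.piecewise v m) - A m -
      ∑ a, A (update m a (v a)) = ∑ s : Finset (Fin k) with 2 ≤ s.card, A (s.piecewise v m) := by
    abel
  rw [e]
  have h1 : ∀ s ∈ (Finset.univ : Finset (Finset (Fin k))).filter (fun s => 2 ≤ s.card),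
      ‖A (s.piecewise v m)‖ ≤ ‖A‖ * D := by
    intro s hs
    rw [Finset.mem_filter] at hs
    exact (A.le_opNorm _).trans (mul_le_mul_of_nonneg_left (hD s hs.2) (norm_nonneg _))
  refine (norm_sum_le _ _).trans ((Finset.sum_le_sum h1).trans ?_)
  rw [Finset.sum_const, nsmul_eq_mul]
  refine mul_le_mul_of_nonneg_right ?_ (mul_nonneg (norm_nonneg _) hD0)
  have h2 : ((Finset.univ : Finset (Finset (Fin k))).filter (fun s => 2 ≤ s.card)).card ≤ 2 ^ k := by
    refine (Finset.card_filter_le _ _).trans ?_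
    rw [Finset.card_univ, Fintype.card_finset, Fintype.card_fin]
  exact_mod_cast h2

theorem prod_pw {k : ℕ} (s : Finset (Fin k)) (hs : 2 ≤ s.card) (f g : Fin k → ℝ) (a b : ℝ)
    (hf0 : ∀ i, 0 ≤ f i) (hg0 : ∀ i, 0 ≤ g i) (hf : ∀ i, f i ≤ a) (ha0 : 0 ≤ a) (ha : a ≤ 1)
    (_hb0 : 0 ≤ b) (hgb : ∏ i ∈ (Finset.univ \ s), g i ≤ b) :
    ∏ i, s.piecewise f g i ≤ a ^ 2 * b := by
  classical
  have h1 : ∏ i, s.piecewise f g i = (∏ i ∈ s, f i) * ∏ i ∈ (Finset.univ \ s), g i := by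
    rw [Finset.prod_piecewise]
    congr 1
    rw [Finset.univ_inter]
  rw [h1]
  have h2 : ∏ i ∈ s, f i ≤ a ^ s.card := by
    rw [← Finset.prod_const]
    exact Finset.prod_le_prod (fun i _ => hf0 i) (fun i _ => hf i)
  have h3 : a ^ s.card ≤ a ^ 2 := pow_le_pow_of_le_one ha0 ha hs
  have h4 : 0 ≤ ∏ i ∈ (Finset.univ \ s), g i := Finset.prod_nonneg fun i _ => hg0 i
  exact mul_le_mul (h2.trans h3) hgb h4 (by positivity)

theorem taylor_P {k : ℕ} (A : ContinuousMultilinearMap ℂ (fun _ : Fin k => X) X) (x h : X)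
    (hx : ‖x‖ ≤ 1) (a : ℝ) (ha0 : 0 ≤ a) (ha : a ≤ 1) (hh : ‖h‖ ≤ a) :
    ‖A (fun _ => x + h) - A (fun _ => x) - ∑ i, A (update (fun _ => x) i h)‖ ≤
      2 ^ k * (‖A‖ * a ^ 2) := by
  classical
  refine taylor A (fun _ => x) (fun _ => h) (a ^ 2) (by positivity) fun s hs => ?_
  have e : ∀ i, ‖s.piecewise (fun _ => h) (fun _ => x) i‖ =
      s.piecewise (fun _ => ‖h‖) (fun _ => ‖x‖) i := by
    intro i
    by_cases hi : i ∈ s
    · simp [hi]
    · simp [hi]
  simp only [e]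
  have := prod_pw s hs (fun _ => ‖h‖) (fun _ => ‖x‖) a 1 (fun _ => norm_nonneg _)
    (fun _ => norm_nonneg _) (fun _ => hh) ha0 ha zero_le_one
    (Finset.prod_le_one (fun _ _ => norm_nonneg _) (fun _ _ => hx))
  rwa [mul_one] at this

theorem taylor_Q {k : ℕ} (A : ContinuousMultilinearMap ℂ (fun _ : Fin k => X) X) (x h z : X)
    (hx : ‖x‖ ≤ 1) (a : ℝ) (ha0 : 0 ≤ a) (ha : a ≤ 1) (hh : ‖h‖ ≤ a) (c : Fin k) :
    ‖A (update (fun _ => x + h) c z) - A (update (fun _ => x) c z) -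
      ∑ i, A (update (update (fun _ => x) c z) i (update (fun _ => h) c 0 i))‖ ≤
      2 ^ k * (‖A‖ * (a ^ 2 * ‖z‖)) := by
  classical
  have h1 : update (fun _ => x + h) c z = update (fun _ : Fin k => x) c z + update (fun _ => h) c 0 := by
    ext i
    by_cases hi : i = c
    · subst hi; simp
    · simp [hi]
  rw [h1]
  refine taylor A _ _ (a ^ 2 * ‖z‖) (by positivity) fun s hs => ?_
  have e : ∀ i, ‖s.piecewise (update (fun _ => h) c 0) (update (fun _ : Fin k => x) c z) i‖ =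
      s.piecewise (update (fun _ => ‖h‖) c 0) (update (fun _ => ‖x‖) c ‖z‖) i := by
    intro i
    by_cases hi : i ∈ s
    · by_cases hc : i = c
      · subst hc; simp [hi]
      · simp [hi, hc]
    · by_cases hc : i = c
      · subst hc; simp [hi]
      · simp [hi, hc]
  simp only [e]
  by_cases hc : c ∈ s
  · have h0 : ∏ i, s.piecewise (update (fun _ => ‖h‖) c 0) (update (fun _ => ‖x‖) c ‖z‖) i = 0 := by
      refine Finset.prod_eq_zero (Finset.mem_univ c) ?_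
      simp [hc]
    rw [h0]
    positivity
  · refine prod_pw s hs _ _ a ‖z‖ ?_ ?_ ?_ ha0 ha (norm_nonneg _) ?_
    · intro i
      by_cases hi : i = c
      · subst hi; simp
      · simp [hi]
    · intro i
      by_cases hi : i = c
      · subst hi; simp
      · simp [hi]
    · intro i
      by_cases hi : i = c
      · subst hi; simp [ha0]
      · simp [hi, hh]
    · have hmem : c ∈ Finset.univ \ s := by simp [hc]
      rw [← Finset.mul_prod_erase _ _ hmem]
      have h2 : ∏ i ∈ (Finset.univ \ s).erase c, update (fun _ => ‖x‖) c ‖z‖ i ≤ 1 := by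
        refine Finset.prod_le_one (fun i _ => ?_) (fun i hi => ?_)
        · by_cases hi : i = c
          · subst hi; simp
          · simp [hi]
        · have : i ≠ c := Finset.ne_of_mem_erase hi
          simp [this, hx]
      simp only [update_self]
      exact mul_le_of_le_one_right (norm_nonneg _) h2

/-- the value of a multilinear map with one slot changed -/
theorem slot_le {k : ℕ} (A : ContinuousMultilinearMap ℂ (fun _ : Fin k => X) X) (x z : X)
    (hx : ‖x‖ ≤ 1) (c : Fin k) : ‖A (update (fun _ => x) c z)‖ ≤ ‖A‖ * ‖z‖ := by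
  classical
  refine (A.le_opNorm _).trans (mul_le_mul_of_nonneg_left ?_ (norm_nonneg _))
  rw [← Finset.mul_prod_erase _ _ (Finset.mem_univ c)]
  have h2 : ∏ i ∈ (Finset.univ : Finset (Fin k)).erase c, ‖update (fun _ => x) c z i‖ ≤ 1 := by
    refine Finset.prod_le_one (fun i _ => norm_nonneg _) (fun i hi => ?_)
    have : i ≠ c := Finset.ne_of_mem_erase hi
    simp [this, hx]
  simp only [update_self]
  exact mul_le_of_le_one_right (norm_nonneg _) h2

/-- data for the selection of cells -/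
structure Sel (X : Type) [NormedAddCommGroup X] [NormedSpace ℂ X] (ι : Type) [Fintype ι]
    [DecidableEq ι] where
  N : ℕ
  hN : 2 ≤ N
  p : ι → ℝ
  hp0 : ∀ i, 0 ≤ p i
  hp1 : ∑ i, p i = 1
  x₀ : X
  ξ : ι → X
  hx₀ : ‖x₀‖ ≤ 1
  hξ : ∀ i, ‖ξ i‖ ≤ 1
  hmean : ∑ i, (p i : ℂ) • ξ i = x₀
  b : ι → X
  u : ι → ℂ
  hpb : ∀ i, (p i : ℂ) • ξ i = u i • b i
  I : ι → X →L[ℂ] ℂ
  hI : ∀ i z, ‖I i z‖ ≤ 2 * ‖z‖
  w : ι → ℂ
  hw : ∀ i, ‖w i‖ ≤ 2
  F0 : X →L[ℂ] ℂ
  hF : ∀ B : Finset ι, B.card ≤ N → ∀ z, ‖F0 z + ∑ i ∈ B, w i * I i z‖ ≤ 2 * ‖z‖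
  η : ℝ
  hη : 0 ≤ η
  h1 : ∀ c : ι → ℂ, (∀ i, ‖c i‖ ≤ 2) → ∀ z, ‖∑ i, (p i : ℂ) * c i * I i z‖ ≤ η * ‖z‖
  κ : ℂ
  hκ : ‖κ‖ ≤ 2
  h2 : ∀ R : X →L[ℂ] X, ‖∑ i, w i * u i * I i (R (b i)) - κ * ∑ i, I i (R (b i))‖ ≤ η * ‖R‖
  h5 : ∀ i, ‖u i‖ * ‖b i‖ ≤ η
  h6 : ∑ i, ‖b i‖ ≤ 1

namespace Sel

variable {ι : Type} [Fintype ι] [DecidableEq ι] (S : Sel X ι)

/-- the functional attached to a set of cells -/
noncomputable def F (B : Finset ι) : X →L[ℂ] ℂ := S.F0 + ∑ i ∈ B, S.w i • S.I i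

theorem F_apply (B : Finset ι) (z : X) : S.F B z = S.F0 z + ∑ i ∈ B, S.w i * S.I i z := by
  simp [F]

/-- the diagonal functional -/
noncomputable def psi {k : ℕ} (A : ContinuousMultilinearMap ℂ (fun _ : Fin k => X) X) (x : X) : ℂ :=
  ∑ a, ∑ i, S.I i (A (update (fun _ => x) a (S.b i)))

/-- the increments -/
noncomputable def h (i : ι) : X := ((S.N : ℂ)⁻¹) • (S.ξ i - S.x₀)

theorem N_pos : (0 : ℝ) < S.N := by
  have := S.hN
  have : 0 < S.N := by omega
  exact_mod_cast this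

theorem h_le (i : ι) : ‖S.h i‖ ≤ 2 / S.N := by
  unfold h
  rw [norm_smul, norm_inv, Complex.norm_natCast, div_eq_inv_mul]
  refine mul_le_mul_of_nonneg_left ?_ (inv_nonneg.2 S.N_pos.le)
  refine (norm_sub_le _ _).trans ?_
  have h1 := S.hξ i
  have h2 := S.hx₀
  linarith

theorem mean_h : ∑ i, (S.p i : ℂ) • S.h i = 0 := by
  have e : ∀ i, (S.p i : ℂ) • S.h i = ((S.N : ℂ)⁻¹) • ((S.p i : ℂ) • S.ξ i - (S.p i : ℂ) • S.x₀) := by
    intro i
    unfold h
    rw [smul_comm, smul_sub]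
  simp only [e]
  rw [← Finset.smul_sum, Finset.sum_sub_distrib, S.hmean, ← Finset.sum_smul]
  have : ∑ i, (S.p i : ℂ) = 1 := by
    rw [← Complex.ofReal_sum, S.hp1, Complex.ofReal_one]
  rw [this, one_smul, sub_self, smul_zero]

theorem mean_lin (R : X →L[ℂ] X) : ∑ i, (S.p i : ℂ) • R (S.h i) = 0 := by
  have : ∑ i, (S.p i : ℂ) • R (S.h i) = R (∑ i, (S.p i : ℂ) • S.h i) := by
    rw [map_sum]
    exact Finset.sum_congr rfl fun i _ => (map_smul _ _ _).symm
  rw [this, S.mean_h, map_zero]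

/-- averages with respect to the weights are controlled -/
theorem avg_le (e : ι → ℂ) (C : ℝ) (h : ∀ i, ‖e i‖ ≤ C) : ‖∑ i, (S.p i : ℂ) * e i‖ ≤ C := by
  refine (norm_sum_le _ _).trans ?_
  have h1 : ∀ i ∈ (Finset.univ : Finset ι), ‖(S.p i : ℂ) * e i‖ ≤ S.p i * C := by
    intro i _
    rw [norm_mul, Complex.norm_real, Real.norm_of_nonneg (S.hp0 i)]
    exact mul_le_mul_of_nonneg_left (h i) (S.hp0 i)
  refine (Finset.sum_le_sum h1).trans ?_
  rw [← Finset.sum_mul, S.hp1, one_mul]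

theorem avg_const (c : ℂ) : ∑ i, (S.p i : ℂ) * c = c := by
  rw [← Finset.sum_mul, ← Complex.ofReal_sum, S.hp1, Complex.ofReal_one, one_mul]

/-- the error made in one step -/
noncomputable def err {k : ℕ} (A : ContinuousMultilinearMap ℂ (fun _ : Fin k => X) X) : ℝ :=
  (6 + 4 * k) * (2 ^ k * (‖A‖ * (2 / S.N) ^ 2)) + (5 * k + 1) * (S.η * ‖A‖)

theorem err_nonneg {k : ℕ} (A : ContinuousMultilinearMap ℂ (fun _ : Fin k => X) X) :
    0 ≤ S.err A := by
  have h1 := S.N_pos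
  have h2 := S.hη
  unfold err
  positivity

theorem two_div_le : (2 : ℝ) / S.N ≤ 1 := by
  rw [div_le_one S.N_pos]
  exact_mod_cast S.hN

/-- average of the polynomial part -/
theorem avg_F {k : ℕ} (A : ContinuousMultilinearMap ℂ (fun _ : Fin k => X) X) (x : X)
    (hx : ‖x‖ ≤ 1) (B : Finset ι) (hB : B.card ≤ S.N) :
    ‖∑ j, (S.p j : ℂ) * S.F B (A fun _ => x + S.h j) - S.F B (A fun _ => x)‖ ≤
      2 * (2 ^ k * (‖A‖ * (2 / S.N) ^ 2)) := by
  have hN := S.N_pos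
  have e : ∑ j, (S.p j : ℂ) * S.F B (A fun _ => x + S.h j) - S.F B (A fun _ => x) =
      ∑ j, (S.p j : ℂ) * S.F B (A (fun _ => x + S.h j) - A (fun _ => x) -
        ∑ i, A (update (fun _ => x) i (S.h j))) := by
    simp only [map_sub, mul_sub, Finset.sum_sub_distrib]
    rw [S.avg_const]
    have h0 : ∑ j, (S.p j : ℂ) * S.F B (∑ i, A (update (fun _ => x) i (S.h j))) = 0 := by
      have h1 : ∀ j, (S.p j : ℂ) * S.F B (∑ i, A (update (fun _ => x) i (S.h j))) =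
          ∑ i, S.F B ((S.p j : ℂ) • (A.toContinuousLinearMap (fun _ => x) i) (S.h j)) := by
        intro j
        rw [map_sum, Finset.mul_sum]
        refine Finset.sum_congr rfl fun i _ => ?_
        rw [map_smul, smul_eq_mul]
        rfl
      simp only [h1]
      rw [Finset.sum_comm]
      refine Finset.sum_eq_zero fun i _ => ?_
      rw [← map_sum, S.mean_lin, map_zero]
    rw [h0, sub_zero]
  rw [e]
  refine S.avg_le _ _ fun j => ?_
  have h1 : ‖S.F B (A (fun _ => x + S.h j) - A (fun _ => x) -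
        ∑ i, A (update (fun _ => x) i (S.h j)))‖ ≤ 2 * ‖A (fun _ => x + S.h j) - A (fun _ => x) -
        ∑ i, A (update (fun _ => x) i (S.h j))‖ := by
    rw [S.F_apply]
    exact S.hF B hB _
  refine h1.trans (mul_le_mul_of_nonneg_left ?_ (by norm_num))
  exact taylor_P A x (S.h j) hx (2 / S.N) (by positivity) S.two_div_le (S.h_le j)

/-- average of the diagonal part -/
theorem avg_psi {k : ℕ} (A : ContinuousMultilinearMap ℂ (fun _ : Fin k => X) X) (x : X)
    (hx : ‖x‖ ≤ 1) :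
    ‖∑ j, (S.p j : ℂ) * S.psi A (x + S.h j) - S.psi A x‖ ≤
      k * (2 * (2 ^ k * (‖A‖ * (2 / S.N) ^ 2))) := by
  have hN := S.N_pos
  have e : ∑ j, (S.p j : ℂ) * S.psi A (x + S.h j) - S.psi A x =
      ∑ j, (S.p j : ℂ) * ∑ a, ∑ i, S.I i (A (update (fun _ => x + S.h j) a (S.b i)) -
        A (update (fun _ => x) a (S.b i)) -
        ∑ c, A (update (update (fun _ => x) a (S.b i)) c (update (fun _ => S.h j) a 0 c))) := by
    simp only [map_sub, Finset.sum_sub_distrib, mul_sub]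
    rw [S.avg_const]
    have h0 : ∑ j, (S.p j : ℂ) * ∑ a, ∑ i, S.I i (∑ c, A (update (update (fun _ => x) a (S.b i)) c
        (update (fun _ => S.h j) a 0 c))) = 0 := by
      have h1 : ∀ j, (S.p j : ℂ) * ∑ a, ∑ i, S.I i (∑ c, A (update (update (fun _ => x) a (S.b i)) c
        (update (fun _ => S.h j) a 0 c))) = ∑ a, ∑ i, ∑ c, S.I i ((S.p j : ℂ) •
          A (update (update (fun _ => x) a (S.b i)) c (update (fun _ => S.h j) a 0 c))) := by
        intro j
        rw [Finset.mul_sum]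
        refine Finset.sum_congr rfl fun a _ => ?_
        rw [Finset.mul_sum]
        refine Finset.sum_congr rfl fun i _ => ?_
        rw [map_sum, Finset.mul_sum]
        refine Finset.sum_congr rfl fun c _ => ?_
        rw [map_smul, smul_eq_mul]
      simp only [h1]
      rw [Finset.sum_comm]
      refine Finset.sum_eq_zero fun a _ => ?_
      rw [Finset.sum_comm]
      refine Finset.sum_eq_zero fun i _ => ?_
      rw [Finset.sum_comm]
      refine Finset.sum_eq_zero fun c _ => ?_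
      rw [← map_sum]
      have h2 : ∑ j, (S.p j : ℂ) • A (update (update (fun _ => x) a (S.b i)) c
          (update (fun _ => S.h j) a 0 c)) = 0 := by
        by_cases hc : c = a
        · subst hc
          have h3 : ∀ j, A (update (update (fun _ => x) c (S.b i)) c
              (update (fun _ => S.h j) c 0 c)) = 0 := by
            intro j
            rw [update_self]
            exact A.map_update_zero _ _
          simp only [h3, smul_zero, Finset.sum_const_zero]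
        · have h3 : ∀ j, A (update (update (fun _ => x) a (S.b i)) c
              (update (fun _ => S.h j) a 0 c)) =
              (A.toContinuousLinearMap (update (fun _ => x) a (S.b i)) c) (S.h j) := by
            intro j
            rw [update_of_ne hc]
            rfl
          simp only [h3]
          exact S.mean_lin _
      rw [h2, map_zero]
    rw [h0, sub_zero]
    rfl
  rw [e]
  refine S.avg_le _ _ fun j => ?_
  refine (norm_sum_le _ _).trans ?_
  have h1 : ∀ a ∈ (Finset.univ : Finset (Fin k)), ‖∑ i, S.I i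
      (A (update (fun _ => x + S.h j) a (S.b i)) - A (update (fun _ => x) a (S.b i)) -
        ∑ c, A (update (update (fun _ => x) a (S.b i)) c (update (fun _ => S.h j) a 0 c)))‖ ≤
      2 * (2 ^ k * (‖A‖ * (2 / S.N) ^ 2)) := by
    intro a _
    refine (norm_sum_le _ _).trans ?_
    have h2 : ∀ i ∈ (Finset.univ : Finset ι), ‖S.I i
      (A (update (fun _ => x + S.h j) a (S.b i)) - A (update (fun _ => x) a (S.b i)) -
        ∑ c, A (update (update (fun _ => x) a (S.b i)) c (update (fun _ => S.h j) a 0 c)))‖ ≤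
        2 * (2 ^ k * (‖A‖ * (2 / S.N) ^ 2)) * ‖S.b i‖ := by
      intro i _
      refine (S.hI i _).trans ?_
      have h3 := taylor_Q A x (S.h j) (S.b i) hx (2 / S.N) (by positivity) S.two_div_le
        (S.h_le j) a
      calc _ ≤ 2 * (2 ^ k * (‖A‖ * ((2 / S.N) ^ 2 * ‖S.b i‖))) :=
            mul_le_mul_of_nonneg_left h3 (by norm_num)
        _ = _ := by ring
    refine (Finset.sum_le_sum h2).trans ?_
    rw [← Finset.mul_sum]
    exact mul_le_of_le_one_right (by positivity) S.h6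
  refine (Finset.sum_le_sum h1).trans ?_
  rw [Finset.sum_const, Finset.card_univ, Fintype.card_fin, nsmul_eq_mul]

/-- average of the new part -/
theorem avg_new {k : ℕ} (A : ContinuousMultilinearMap ℂ (fun _ : Fin k => X) X) (x : X)
    (hx : ‖x‖ ≤ 1) (B : Finset ι) (hB : B.card ≤ S.N) :
    ‖∑ j, (S.p j : ℂ) * ((if j ∈ B then 0 else S.w j) * S.I j (A fun _ => x + S.h j)) -
      (S.N : ℂ)⁻¹ * (S.κ * S.psi A x)‖ ≤
      4 * (2 ^ k * (‖A‖ * (2 / S.N) ^ 2)) + (5 * k + 1) * (S.η * ‖A‖) := by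
  have hN := S.N_pos
  have hNc : (S.N : ℂ) ≠ 0 := by exact_mod_cast hN.ne'
  obtain ⟨w', hw'⟩ : ∃ w' : ι → ℂ, w' = fun j => if j ∈ B then 0 else S.w j := ⟨_, rfl⟩
  have hw'2 : ∀ j, ‖w' j‖ ≤ 2 := by
    intro j
    rw [hw']
    by_cases h : j ∈ B
    · simp [h]
    · simp only [h, if_false]
      exact S.hw j
  have hw'e : ∀ j, (if j ∈ B then 0 else S.w j) = w' j := by
    intro j; rw [hw']
  simp only [hw'e]
  have hPx : ‖A fun _ => x‖ ≤ ‖A‖ := by
    refine (A.le_opNorm _).trans (mul_le_of_le_one_right (norm_nonneg _) ?_)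
    exact Finset.prod_le_one (fun _ _ => norm_nonneg _) (fun _ _ => hx)
  set Ta : Fin k → X →L[ℂ] X := fun a => A.toContinuousLinearMap (fun _ => x) a with hTa
  have hTaa : ∀ a z, Ta a z = A (update (fun _ => x) a z) := fun a z => rfl
  have hTn : ∀ a, ‖Ta a‖ ≤ ‖A‖ := by
    intro a
    refine ContinuousLinearMap.opNorm_le_bound _ (norm_nonneg _) fun z => ?_
    rw [hTaa]
    exact slot_le A x z hx a
  -- decomposition
  have e : ∑ j, (S.p j : ℂ) * (w' j * S.I j (A fun _ => x + S.h j)) =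
      ∑ j, (S.p j : ℂ) * w' j * S.I j (A fun _ => x) +
      ∑ a, ∑ j, (S.p j : ℂ) * w' j * S.I j (Ta a (S.h j)) +
      ∑ j, (S.p j : ℂ) * (w' j * S.I j (A (fun _ => x + S.h j) - A (fun _ => x) -
        ∑ i, A (update (fun _ => x) i (S.h j)))) := by
    rw [Finset.sum_comm (s := (Finset.univ : Finset (Fin k))), ← Finset.sum_add_distrib,
      ← Finset.sum_add_distrib]
    refine Finset.sum_congr rfl fun j _ => ?_
    simp only [map_sub, map_sum, hTaa]
    rw [← Finset.mul_sum]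
    ring
  have hlin : ∀ a, ∑ j, (S.p j : ℂ) * w' j * S.I j (Ta a (S.h j)) = (S.N : ℂ)⁻¹ *
      (∑ j, w' j * S.u j * S.I j (Ta a (S.b j)) -
        ∑ j, (S.p j : ℂ) * w' j * S.I j (Ta a S.x₀)) := by
    intro a
    rw [← Finset.sum_sub_distrib, Finset.mul_sum]
    refine Finset.sum_congr rfl fun j _ => ?_
    have h1 : (S.p j : ℂ) * S.I j (Ta a (S.ξ j)) = S.u j * S.I j (Ta a (S.b j)) := by
      have := congrArg (fun z => S.I j (Ta a z)) (S.hpb j)
      simpa only [map_smul, smul_eq_mul] using this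
    have h2 : S.I j (Ta a (S.h j)) = (S.N : ℂ)⁻¹ * (S.I j (Ta a (S.ξ j)) - S.I j (Ta a S.x₀)) := by
      unfold h
      rw [map_smul, map_smul, smul_eq_mul, map_sub, map_sub]
    rw [h2]
    linear_combination (S.N : ℂ)⁻¹ * w' j * h1
  have hB' : ∀ a, ∑ j, w' j * S.u j * S.I j (Ta a (S.b j)) =
      ∑ j, S.w j * S.u j * S.I j (Ta a (S.b j)) - ∑ j ∈ B, S.w j * S.u j * S.I j (Ta a (S.b j)) := by
    intro a
    have h1 : ∑ j ∈ B, S.w j * S.u j * S.I j (Ta a (S.b j)) =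
        ∑ j, if j ∈ B then S.w j * S.u j * S.I j (Ta a (S.b j)) else 0 := by
      rw [← Finset.sum_filter]
      refine Finset.sum_congr ?_ fun _ _ => rfl
      ext j; simp
    rw [h1, ← Finset.sum_sub_distrib]
    refine Finset.sum_congr rfl fun j _ => ?_
    rw [hw']
    by_cases h : j ∈ B
    · simp [h]
    · simp [h]
  have hmain : ∀ a, ‖∑ j, (S.p j : ℂ) * w' j * S.I j (Ta a (S.h j)) -
      (S.N : ℂ)⁻¹ * (S.κ * ∑ i, S.I i (Ta a (S.b i)))‖ ≤ 5 * (S.η * ‖A‖) := by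
    intro a
    rw [hlin, hB', ← mul_sub, norm_mul, norm_inv, Complex.norm_natCast]
    have e2 : ∑ j, S.w j * S.u j * S.I j (Ta a (S.b j)) -
        ∑ j ∈ B, S.w j * S.u j * S.I j (Ta a (S.b j)) -
        ∑ j, (S.p j : ℂ) * w' j * S.I j (Ta a S.x₀) - S.κ * ∑ i, S.I i (Ta a (S.b i)) =
        (∑ j, S.w j * S.u j * S.I j (Ta a (S.b j)) - S.κ * ∑ i, S.I i (Ta a (S.b i))) -
        ∑ j ∈ B, S.w j * S.u j * S.I j (Ta a (S.b j)) -
        ∑ j, (S.p j : ℂ) * w' j * S.I j (Ta a S.x₀) := by ring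
    rw [e2]
    have b1 : ‖∑ j, S.w j * S.u j * S.I j (Ta a (S.b j)) -
        S.κ * ∑ i, S.I i (Ta a (S.b i))‖ ≤ S.η * ‖A‖ :=
      (S.h2 (Ta a)).trans (mul_le_mul_of_nonneg_left (hTn a) S.hη)
    have b2 : ‖∑ j ∈ B, S.w j * S.u j * S.I j (Ta a (S.b j))‖ ≤ S.N * (4 * (S.η * ‖A‖)) := by
      have h3 : ∀ j ∈ B, ‖S.w j * S.u j * S.I j (Ta a (S.b j))‖ ≤ 4 * (S.η * ‖A‖) := by
        intro j _
        rw [norm_mul, norm_mul]
        have h4 : ‖S.I j (Ta a (S.b j))‖ ≤ 2 * (‖A‖ * ‖S.b j‖) := by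
          refine (S.hI j _).trans (mul_le_mul_of_nonneg_left ?_ (by norm_num))
          exact ((Ta a).le_opNorm _).trans (mul_le_mul_of_nonneg_right (hTn a) (norm_nonneg _))
        have h5 := S.h5 j
        calc ‖S.w j‖ * ‖S.u j‖ * ‖S.I j (Ta a (S.b j))‖
            ≤ 2 * ‖S.u j‖ * (2 * (‖A‖ * ‖S.b j‖)) := by
              gcongr
              exact S.hw j
          _ = 4 * ((‖S.u j‖ * ‖S.b j‖) * ‖A‖) := by ring
          _ ≤ 4 * (S.η * ‖A‖) := by gcongr
      refine (norm_sum_le _ _).trans ((Finset.sum_le_sum h3).trans ?_)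
      rw [Finset.sum_const, nsmul_eq_mul]
      refine mul_le_mul_of_nonneg_right ?_ ?_
      · exact_mod_cast hB
      · have := S.hη
        positivity
    have b3 : ‖∑ j, (S.p j : ℂ) * w' j * S.I j (Ta a S.x₀)‖ ≤ S.η * ‖A‖ := by
      refine (S.h1 w' hw'2 _).trans (mul_le_mul_of_nonneg_left ?_ S.hη)
      refine ((Ta a).le_opNorm _).trans ?_
      calc ‖Ta a‖ * ‖S.x₀‖ ≤ ‖A‖ * 1 := mul_le_mul (hTn a) S.hx₀ (norm_nonneg _) (norm_nonneg _)
        _ = ‖A‖ := mul_one _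
    have b4 := norm_sub_le ((∑ j, S.w j * S.u j * S.I j (Ta a (S.b j)) -
        S.κ * ∑ i, S.I i (Ta a (S.b i))) - ∑ j ∈ B, S.w j * S.u j * S.I j (Ta a (S.b j)))
        (∑ j, (S.p j : ℂ) * w' j * S.I j (Ta a S.x₀))
    have b5 := norm_sub_le (∑ j, S.w j * S.u j * S.I j (Ta a (S.b j)) -
        S.κ * ∑ i, S.I i (Ta a (S.b i))) (∑ j ∈ B, S.w j * S.u j * S.I j (Ta a (S.b j)))
    rw [inv_mul_le_iff₀ hN]
    have h6 : (2 : ℝ) ≤ S.N := by exact_mod_cast S.hN
    have h7 : 0 ≤ S.η * ‖A‖ := mul_nonneg S.hη (norm_nonneg _)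
    have h8 : 2 * (S.η * ‖A‖) ≤ S.N * (S.η * ‖A‖) := mul_le_mul_of_nonneg_right h6 h7
    linarith
  have hpsi : (S.N : ℂ)⁻¹ * (S.κ * S.psi A x) =
      ∑ a, (S.N : ℂ)⁻¹ * (S.κ * ∑ i, S.I i (Ta a (S.b i))) := by
    unfold psi
    rw [Finset.mul_sum, Finset.mul_sum]
    rfl
  rw [e, hpsi]
  have e3 : ∑ j, (S.p j : ℂ) * w' j * S.I j (A fun _ => x) +
      ∑ a, ∑ j, (S.p j : ℂ) * w' j * S.I j (Ta a (S.h j)) +
      ∑ j, (S.p j : ℂ) * (w' j * S.I j (A (fun _ => x + S.h j) - A (fun _ => x) -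
        ∑ i, A (update (fun _ => x) i (S.h j)))) -
      ∑ a, (S.N : ℂ)⁻¹ * (S.κ * ∑ i, S.I i (Ta a (S.b i))) =
      ∑ j, (S.p j : ℂ) * w' j * S.I j (A fun _ => x) +
      ∑ a, (∑ j, (S.p j : ℂ) * w' j * S.I j (Ta a (S.h j)) -
        (S.N : ℂ)⁻¹ * (S.κ * ∑ i, S.I i (Ta a (S.b i)))) +
      ∑ j, (S.p j : ℂ) * (w' j * S.I j (A (fun _ => x + S.h j) - A (fun _ => x) -
        ∑ i, A (update (fun _ => x) i (S.h j)))) := by
    rw [Finset.sum_sub_distrib]
    ring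
  rw [e3]
  have c1 : ‖∑ j, (S.p j : ℂ) * w' j * S.I j (A fun _ => x)‖ ≤ S.η * ‖A‖ :=
    (S.h1 w' hw'2 _).trans (mul_le_mul_of_nonneg_left hPx S.hη)
  have c2 : ‖∑ a, (∑ j, (S.p j : ℂ) * w' j * S.I j (Ta a (S.h j)) -
        (S.N : ℂ)⁻¹ * (S.κ * ∑ i, S.I i (Ta a (S.b i))))‖ ≤ k * (5 * (S.η * ‖A‖)) := by
    refine (norm_sum_le _ _).trans ((Finset.sum_le_sum fun a _ => hmain a).trans ?_)
    rw [Finset.sum_const, Finset.card_univ, Fintype.card_fin, nsmul_eq_mul]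
  have c3 : ‖∑ j, (S.p j : ℂ) * (w' j * S.I j (A (fun _ => x + S.h j) - A (fun _ => x) -
        ∑ i, A (update (fun _ => x) i (S.h j))))‖ ≤ 4 * (2 ^ k * (‖A‖ * (2 / S.N) ^ 2)) := by
    refine S.avg_le _ _ fun j => ?_
    rw [norm_mul]
    have h3 := taylor_P A x (S.h j) hx (2 / S.N) (by positivity) S.two_div_le (S.h_le j)
    have h4 := S.hI j (A (fun _ => x + S.h j) - A (fun _ => x) -
        ∑ i, A (update (fun _ => x) i (S.h j)))
    calc ‖w' j‖ * ‖S.I j (A (fun _ => x + S.h j) - A (fun _ => x) -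
        ∑ i, A (update (fun _ => x) i (S.h j)))‖ ≤ 2 * (2 * (2 ^ k * (‖A‖ * (2 / S.N) ^ 2))) :=
          mul_le_mul (hw'2 j) (h4.trans (mul_le_mul_of_nonneg_left h3 (by norm_num)))
            (norm_nonneg _) (by norm_num)
      _ = _ := by ring
  refine (norm_add_le _ _).trans ?_
  have c4 := norm_add_le (∑ j, (S.p j : ℂ) * w' j * S.I j (A fun _ => x))
    (∑ a, (∑ j, (S.p j : ℂ) * w' j * S.I j (Ta a (S.h j)) -
        (S.N : ℂ)⁻¹ * (S.κ * ∑ i, S.I i (Ta a (S.b i)))))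
  linarith

theorem F_insert (B : Finset ι) (j : ι) (z : X) :
    S.F (insert j B) z = S.F B z + (if j ∈ B then 0 else S.w j) * S.I j z := by
  rw [S.F_apply, S.F_apply]
  by_cases h : j ∈ B
  · rw [Finset.insert_eq_of_mem h]
    simp [h]
  · rw [Finset.sum_insert h]
    simp only [h, if_false]
    ring

/-- one step of the selection -/
theorem step {k : ℕ} (A : ContinuousMultilinearMap ℂ (fun _ : Fin k => X) X) (x : X)
    (hx : ‖x‖ ≤ 1) (B : Finset ι) (hB : B.card ≤ S.N) (t : ℝ) (ht0 : 1 / (S.N : ℝ) ≤ t)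
    (ht1 : t ≤ 1) :
    ∃ j, ‖S.F B (A fun _ => x) + (t : ℂ) * (S.κ * S.psi A x)‖ - S.err A ≤
      ‖S.F (insert j B) (A fun _ => x + S.h j) +
        ((t - 1 / (S.N : ℝ) : ℝ) : ℂ) * (S.κ * S.psi A (x + S.h j))‖ := by
  have hN := S.N_pos
  set E : ι → ℂ := fun j => S.F (insert j B) (A fun _ => x + S.h j) +
        ((t - 1 / (S.N : ℝ) : ℝ) : ℂ) * (S.κ * S.psi A (x + S.h j)) with hE
  set V : ℂ := S.F B (A fun _ => x) + (t : ℂ) * (S.κ * S.psi A x) with hV
  have hdiff : ‖∑ j, (S.p j : ℂ) * E j - V‖ ≤ S.err A := by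
    have h1 := S.avg_F A x hx B hB
    have h2 := S.avg_psi A x hx
    have h3 := S.avg_new A x hx B hB
    have e : ∑ j, (S.p j : ℂ) * E j - V =
        (∑ j, (S.p j : ℂ) * S.F B (A fun _ => x + S.h j) - S.F B (A fun _ => x)) +
        (∑ j, (S.p j : ℂ) * ((if j ∈ B then 0 else S.w j) * S.I j (A fun _ => x + S.h j)) -
          (S.N : ℂ)⁻¹ * (S.κ * S.psi A x)) +
        ((t - 1 / (S.N : ℝ) : ℝ) : ℂ) * (S.κ * (∑ j, (S.p j : ℂ) * S.psi A (x + S.h j) -
          S.psi A x)) := by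
      have e1 : ∑ j, (S.p j : ℂ) * E j = ∑ j, (S.p j : ℂ) * S.F B (A fun _ => x + S.h j) +
          ∑ j, (S.p j : ℂ) * ((if j ∈ B then 0 else S.w j) * S.I j (A fun _ => x + S.h j)) +
          ((t - 1 / (S.N : ℝ) : ℝ) : ℂ) * (S.κ * ∑ j, (S.p j : ℂ) * S.psi A (x + S.h j)) := by
        rw [Finset.mul_sum, Finset.mul_sum, ← Finset.sum_add_distrib, ← Finset.sum_add_distrib]
        refine Finset.sum_congr rfl fun j _ => ?_
        simp only [hE]
        rw [S.F_insert]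
        ring
      rw [e1, hV]
      push_cast
      ring
    rw [e]
    have h4 : ‖((t - 1 / (S.N : ℝ) : ℝ) : ℂ) * (S.κ * (∑ j, (S.p j : ℂ) * S.psi A (x + S.h j) -
          S.psi A x))‖ ≤ 1 * (2 * (k * (2 * (2 ^ k * (‖A‖ * (2 / S.N) ^ 2))))) := by
      rw [norm_mul, norm_mul, Complex.norm_real, Real.norm_eq_abs]
      have h5 : |t - 1 / (S.N : ℝ)| ≤ 1 := by
        rw [abs_le]
        have : 0 ≤ 1 / (S.N : ℝ) := by positivity
        constructor <;> linarith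
      exact mul_le_mul h5 (mul_le_mul S.hκ h2 (norm_nonneg _) (by norm_num)) (by positivity)
        zero_le_one
    have h5 := norm_add_le ((∑ j, (S.p j : ℂ) * S.F B (A fun _ => x + S.h j) -
        S.F B (A fun _ => x)) +
        (∑ j, (S.p j : ℂ) * ((if j ∈ B then 0 else S.w j) * S.I j (A fun _ => x + S.h j)) -
          (S.N : ℂ)⁻¹ * (S.κ * S.psi A x)))
        (((t - 1 / (S.N : ℝ) : ℝ) : ℂ) * (S.κ * (∑ j, (S.p j : ℂ) * S.psi A (x + S.h j) -
          S.psi A x)))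
    have h6 := norm_add_le (∑ j, (S.p j : ℂ) * S.F B (A fun _ => x + S.h j) -
        S.F B (A fun _ => x))
        (∑ j, (S.p j : ℂ) * ((if j ∈ B then 0 else S.w j) * S.I j (A fun _ => x + S.h j)) -
          (S.N : ℂ)⁻¹ * (S.κ * S.psi A x))
    unfold err
    linarith
  by_contra hcon
  push Not at hcon
  have h7 : ‖∑ j, (S.p j : ℂ) * E j‖ < ‖V‖ - S.err A := by
    have h8 : ‖∑ j, (S.p j : ℂ) * E j‖ ≤ ∑ j, S.p j * ‖E j‖ := by
      refine (norm_sum_le _ _).trans (le_of_eq ?_)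
      refine Finset.sum_congr rfl fun j _ => ?_
      rw [norm_mul, Complex.norm_real, Real.norm_of_nonneg (S.hp0 j)]
    refine lt_of_le_of_lt h8 ?_
    have h9 : ∑ j, S.p j * (‖V‖ - S.err A) = ‖V‖ - S.err A := by
      rw [← Finset.sum_mul, S.hp1, one_mul]
    rw [← h9]
    obtain ⟨j₀, hj₀⟩ : ∃ j, 0 < S.p j := by
      by_contra hno
      push Not at hno
      have : ∑ j, S.p j ≤ 0 := Finset.sum_nonpos fun j _ => hno j
      rw [S.hp1] at this
      linarith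
    refine Finset.sum_lt_sum (fun j _ => mul_le_mul_of_nonneg_left (hcon j).le (S.hp0 j))
      ⟨j₀, Finset.mem_univ _, mul_lt_mul_of_pos_left (hcon j₀) hj₀⟩
  have h10 : ‖V‖ ≤ ‖∑ j, (S.p j : ℂ) * E j‖ + ‖∑ j, (S.p j : ℂ) * E j - V‖ := by
    have : V = ∑ j, (S.p j : ℂ) * E j - (∑ j, (S.p j : ℂ) * E j - V) := by ring
    calc ‖V‖ = ‖∑ j, (S.p j : ℂ) * E j - (∑ j, (S.p j : ℂ) * E j - V)‖ := by rw [← this]
      _ ≤ _ := norm_sub_le _ _
  linarith

/-- the selection -/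
theorem select {k : ℕ} (A : ContinuousMultilinearMap ℂ (fun _ : Fin k => X) X) (r : ℝ)
    (hr1 : r ≤ 1) (hx₀r : ‖S.x₀‖ ≤ r) (hξr : ∀ i, ‖S.ξ i‖ ≤ r) :
    ∃ (x : X) (B : Finset ι), ‖x‖ ≤ r ∧ B.card ≤ S.N ∧
      (∀ (f : X →L[ℂ] ℂ) (ρ : ℂ), (∀ i ∈ B, f (S.ξ i) = ρ) → f x = ρ) ∧
      ‖S.F0 (A fun _ => S.x₀) + S.κ * S.psi A S.x₀‖ - S.N * S.err A ≤ ‖S.F B (A fun _ => x)‖ := by
  have hN := S.N_pos
  have hNc : (S.N : ℂ) ≠ 0 := by exact_mod_cast hN.ne'
  have hr0 : 0 ≤ r := (norm_nonneg _).trans hx₀r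
  have key : ∀ l : ℕ, l ≤ S.N → ∃ (x : X) (B : Finset ι),
      ‖x - ((1 - (l : ℝ) / S.N : ℝ) : ℂ) • S.x₀‖ ≤ (l : ℝ) / S.N * r ∧ B.card ≤ l ∧
      (∀ (f : X →L[ℂ] ℂ) (ρ : ℂ), (∀ i ∈ B, f (S.ξ i) = ρ) →
        f x = ((1 - (l : ℝ) / S.N : ℝ) : ℂ) * f S.x₀ + (((l : ℝ) / S.N : ℝ) : ℂ) * ρ) ∧
      ‖S.F0 (A fun _ => S.x₀) + S.κ * S.psi A S.x₀‖ - l * S.err A ≤
        ‖S.F B (A fun _ => x) + ((1 - (l : ℝ) / S.N : ℝ) : ℂ) * (S.κ * S.psi A x)‖ := by
    intro l
    induction l with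
    | zero =>
      intro _
      refine ⟨S.x₀, ∅, ?_, ?_, ?_, ?_⟩
      · simp
      · simp
      · intro f ρ _
        simp
      · rw [S.F_apply]
        simp
    | succ l ih =>
      intro hl
      obtain ⟨x, B, h1, h2, h3, h4⟩ := ih (by omega)
      have hlN : ((l : ℝ) + 1) / S.N ≤ 1 := by
        rw [div_le_one hN]
        exact_mod_cast hl
      have hl0 : 0 ≤ (l : ℝ) / S.N := by positivity
      have hsplit : ((l : ℝ) + 1) / S.N = (l : ℝ) / S.N + 1 / S.N := by ring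
      have hx : ‖x‖ ≤ 1 := by
        have h5 : ‖((1 - (l : ℝ) / S.N : ℝ) : ℂ) • S.x₀‖ ≤ (1 - (l : ℝ) / S.N) * r := by
          rw [norm_smul, Complex.norm_real, Real.norm_of_nonneg (by
            have : 0 ≤ 1 / (S.N : ℝ) := by positivity
            linarith)]
          refine mul_le_mul_of_nonneg_left hx₀r ?_
          have : 0 ≤ 1 / (S.N : ℝ) := by positivity
          linarith
        have h6 := norm_add_le (x - ((1 - (l : ℝ) / S.N : ℝ) : ℂ) • S.x₀)
          (((1 - (l : ℝ) / S.N : ℝ) : ℂ) • S.x₀)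
        rw [sub_add_cancel] at h6
        have h7 : (l : ℝ) / S.N * r + (1 - (l : ℝ) / S.N) * r = r := by ring
        linarith
      obtain ⟨j, hj⟩ := S.step A x hx B (by omega) (1 - (l : ℝ) / S.N) (by
        linarith) (by linarith)
      refine ⟨x + S.h j, insert j B, ?_, ?_, ?_, ?_⟩
      · have e1 : x + S.h j - ((1 - ((l + 1 : ℕ) : ℝ) / S.N : ℝ) : ℂ) • S.x₀ =
            (x - ((1 - (l : ℝ) / S.N : ℝ) : ℂ) • S.x₀) + (S.N : ℂ)⁻¹ • S.ξ j := by
          unfold h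
          have : ((1 - ((l + 1 : ℕ) : ℝ) / S.N : ℝ) : ℂ) =
              ((1 - (l : ℝ) / S.N : ℝ) : ℂ) - (S.N : ℂ)⁻¹ := by
            push_cast
            ring
          rw [this, sub_smul, smul_sub]
          abel
        rw [e1]
        refine (norm_add_le _ _).trans ?_
        have h5 : ‖(S.N : ℂ)⁻¹ • S.ξ j‖ ≤ 1 / S.N * r := by
          rw [norm_smul, norm_inv, Complex.norm_natCast, one_div]
          exact mul_le_mul_of_nonneg_left (hξr j) (inv_nonneg.2 hN.le)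
        have hc : (((l + 1 : ℕ) : ℝ)) = (l : ℝ) + 1 := Nat.cast_succ l
        rw [hc, hsplit, add_mul]
        linarith
      · exact (Finset.card_insert_le _ _).trans (by omega)
      · intro f ρ hf
        have h5 := h3 f ρ (fun i hi => hf i (Finset.mem_insert_of_mem hi))
        have h6 := hf j (Finset.mem_insert_self _ _)
        rw [map_add, h5]
        unfold h
        rw [map_smul, map_sub, h6, smul_eq_mul]
        push_cast
        ring
      · have e2 : (1 - (l : ℝ) / S.N) - 1 / S.N = 1 - ((l + 1 : ℕ) : ℝ) / S.N := by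
          push_cast
          ring
        rw [e2] at hj
        refine le_trans ?_ hj
        have hc : (((l + 1 : ℕ) : ℝ)) = (l : ℝ) + 1 := Nat.cast_succ l
        have hc2 : ‖S.F0 (A fun _ => S.x₀) + S.κ * S.psi A S.x₀‖ - ((l + 1 : ℕ) : ℝ) * S.err A =
            ‖S.F0 (A fun _ => S.x₀) + S.κ * S.psi A S.x₀‖ - l * S.err A - S.err A := by
          rw [hc]; ring
        rw [hc2]
        linarith
  obtain ⟨x, B, h1, h2, h3, h4⟩ := key S.N le_rfl
  have h5 : (S.N : ℝ) / S.N = 1 := div_self hN.ne'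
  rw [h5] at h1 h3 h4
  simp only [sub_self, Complex.ofReal_zero, zero_smul, sub_zero, one_mul, zero_mul, add_zero,
    zero_add, Complex.ofReal_one] at h1 h3 h4
  exact ⟨x, B, h1, h2, h3, h4⟩

end Sel

end Pool.Agent.TH325.PI
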