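import Pool.Agent.TH325.PI.Att
import Pool.Agent.TH325.PI.Pot

set_option autoImplicit false

open scoped ComplexConjugate
open Finset Function

namespace Pool.Agent.TH325.PI

namespace Tow

variable {Γ : Type} [AddCommGroup Γ] (T : Tow Γ)

theorem rho_le_one (n : ℕ) : T.rho n ≤ 1 := by
  unfold rho
  rw [div_le_one (T.M_pos n)]
  unfold M
  exact_mod_cast Finset.card_le_card (fun a ha => ((T.mem_Ef n a).1 ha).2)

end Tow

namespace Quo

variable {Γ : Type} [AddCommGroup Γ] {T : Tow Γ} {X : Type} [NormedAddCommGroup X]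
    [NormedSpace ℂ X] (Q : Quo T X)

theorem I_le (n : ℕ) (τ : T.Om n) (z : X) : ‖Q.I n τ z‖ ≤ 2 * ‖z‖ := by
  classical
  refine Q.bound (Q.I n τ) 2 (by norm_num) (fun c => ?_) z
  rw [Q.I_q]
  have h := T.comb_I0 n (fun τ' => if τ' = τ then 1 else 0) (fun _ => 0) 1 1 (by
      intro τ'
      by_cases h : τ' = τ
      · simp [h]
      · simp [h]) (by
      have : ∀ τ', ‖(if τ' = τ then (1 : ℂ) else 0)‖ = if τ' = τ then 1 else 0 := by
        intro τ'
        by_cases h : τ' = τ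
        · simp [h]
        · simp [h]
      simp [this]) c
  have h1 : ‖T.I0 n τ c‖ ≤ (1 + 1 * T.rho n) * T.N c := by simpa using h
  refine h1.trans (mul_le_mul_of_nonneg_right ?_ (T.N_nonneg c))
  have := T.rho_le_one n
  linarith

/-- the diagonal functional at level `n` -/
noncomputable def psi (n : ℕ) {k : ℕ} (A : ContinuousMultilinearMap ℂ (fun _ : Fin k => X) X)
    (x : X) : ℂ :=
  ∑ a, ∑ τ, Q.I n τ (A (update (fun _ => x) a (Q.q (T.ind n τ))))

theorem psi_le (n : ℕ) {k : ℕ} (A : ContinuousMultilinearMap ℂ (fun _ : Fin k => X) X)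
    (x : X) (hx : ‖x‖ ≤ 1) : ‖Q.psi n A x‖ ≤ k * (2 * ‖A‖) := by
  have hM := T.M_pos n
  unfold psi
  refine (norm_sum_le _ _).trans ?_
  have h1 : ∀ a ∈ (Finset.univ : Finset (Fin k)),
      ‖∑ τ, Q.I n τ (A (update (fun _ => x) a (Q.q (T.ind n τ))))‖ ≤ 2 * ‖A‖ := by
    intro a _
    refine (norm_sum_le _ _).trans ?_
    have h2 : ∀ τ ∈ (Finset.univ : Finset (T.Om n)),
        ‖Q.I n τ (A (update (fun _ => x) a (Q.q (T.ind n τ))))‖ ≤ 2 * (‖A‖ * (T.M n)⁻¹) := by
      intro τ _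
      refine (Q.I_le n τ _).trans (mul_le_mul_of_nonneg_left ?_ (by norm_num))
      refine (slot_le A x _ hx a).trans (mul_le_mul_of_nonneg_left ?_ (norm_nonneg _))
      have := Q.q_le (T.ind n τ)
      rwa [T.N_ind] at this
    refine (Finset.sum_le_sum h2).trans (le_of_eq ?_)
    rw [Finset.sum_const, Finset.card_univ, nsmul_eq_mul, T.card_Om n]
    field_simp
  refine (Finset.sum_le_sum h1).trans (le_of_eq ?_)
  rw [Finset.sum_const, Finset.card_univ, Fintype.card_fin, nsmul_eq_mul]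

/-- the construction at one level -/
theorem level {k : ℕ}
    (A : ContinuousMultilinearMap ℂ (fun _ : Fin k => X) X)
    (u₀ : Γ →₀ ℂ) (r : ℝ) (hr : r = T.N u₀) (hr0 : 0 < r) (hr1 : r ≤ 1) (j : ℕ)
    (hj : ∀ n, j ≤ n → ∀ a, u₀ a ≠ 0 → a ∈ T.H n)
    (s g : T.Om j → ℂ) (hs : ∀ σ, ‖s σ‖ = 1) (hsu : ∀ σ, s σ * T.ev j σ u₀ = (‖T.ev j σ u₀‖ : ℂ))
    (hg : ∀ σ, ‖g σ‖ ≤ 1) (hgE : ∀ a ∈ T.E, ∑ σ, g σ * T.ch j σ a = 0)
    (G : X →L[ℂ] ℂ) (hG : ∀ c, G (Q.q c) = (T.M j : ℂ)⁻¹ * ∑ σ, g σ * T.ev j σ c)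
    (U : ℝ) (hU : ∀ σ, ‖T.ev j σ u₀‖ ≤ U)
    (N : ℕ) (hN : 2 ≤ N) (n : ℕ) (hn : j ≤ n) (h2 : 2 ≤ (T.Ef n).card)
    (δ : ℝ) (hδ1 : δ ≤ 1) (hκδ : 4 * √(2 * N / T.M n) ≤ δ) (hNρ : 2 * N * T.rho n ≤ 1)
    (η : ℝ) (hη : η = 2 * U / (r * T.M n) + 2 * T.rho n + T.M j * (2 * U) * |T.eps n| +
      U / T.M n) :
    ∃ (y : X) (f : X →L[ℂ] ℂ), ‖y‖ = 1 ∧ ‖f‖ = 1 ∧ f y = 1 ∧
      ‖((1 - δ : ℝ) : ℂ) * G (A fun _ => Q.q u₀) +
        ((r : ℂ) - ((1 - δ : ℝ) : ℂ) * G (Q.q u₀)) * Q.psi n A (Q.q u₀)‖ -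
        N * ((6 + 4 * k) * (2 ^ k * (‖A‖ * (2 / N) ^ 2)) + (5 * k + 1) * (η * ‖A‖)) -
        (4 * √(2 * N / T.M n) + 2 * N * T.rho n) * ‖A‖ ≤ ‖f (A fun _ => y)‖ := by
  classical
  have hM := T.M_pos n
  have hMj := T.M_pos j
  have hMne := T.M_ne n
  have hNp : (0 : ℝ) < N := by
    have : 0 < N := by omega
    exact_mod_cast this
  have hδ0 : 0 ≤ δ := by
    have := Real.sqrt_nonneg (2 * N / T.M n)
    linarith
  have hU0 : 0 ≤ U := by
    obtain ⟨σ⟩ := T.Om_nonempty j
    exact (norm_nonneg _).trans (hU σ)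
  have hρ0 := T.rho_nonneg n
  set D : ℂ := ((1 - δ : ℝ) : ℂ) with hD
  have hDn : ‖D‖ = 1 - δ := by
    rw [hD, Complex.norm_real, Real.norm_of_nonneg (by linarith)]
  have hDg : ∀ σ, ‖D * g σ‖ ≤ 1 - δ := by
    intro σ
    rw [norm_mul, hDn]
    exact mul_le_of_le_one_right (by linarith) (hg σ)
  -- data at level n
  let sn : T.Om n → ℂ := fun τ => s (T.res j n τ)
  let gn : T.Om n → ℂ := fun τ => g (T.res j n τ)
  have hsn : ∀ τ, ‖sn τ‖ = 1 := fun τ => hs _
  have hgn : ∀ τ, ‖gn τ‖ ≤ 1 := fun τ => hg _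
  have hgnE : ∀ a ∈ T.E, ∑ τ, gn τ * T.ch n τ a = 0 := T.restr_kill j n hn g hgE
  have hGn : ∀ c, G (Q.q c) = (T.M n : ℂ)⁻¹ * ∑ τ, gn τ * T.ev n τ c := by
    intro c
    rw [hG, ← T.lift_ev j n hn g c]
  have hev : ∀ τ, T.ev n τ u₀ = T.ev j (T.res j n τ) u₀ := T.ev_res j n hn u₀ (hj j le_rfl)
  have hsnu : ∀ τ, sn τ * T.ev n τ u₀ = (‖T.ev n τ u₀‖ : ℂ) := by
    intro τ
    rw [hev]
    exact hsu _
  have hUn : ∀ τ, ‖T.ev n τ u₀‖ ≤ U := by
    intro τ
    rw [hev]
    exact hU _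
  have hconj : ∀ τ, conj (sn τ) * sn τ = 1 := by
    intro τ
    rw [Complex.conj_mul', hsn]
    simp
  have hun : ∀ τ, (‖T.ev n τ u₀‖ : ℂ) * conj (sn τ) = T.ev n τ u₀ := by
    intro τ
    rw [← hsnu, mul_comm (sn τ), mul_assoc, mul_comm (sn τ), hconj, mul_one]
  have hGle : ∀ z, ‖G z‖ ≤ 1 * ‖z‖ := by
    intro z
    refine Q.bound G 1 zero_le_one (fun c => ?_) z
    rw [hG]
    exact (T.pair_le j g 1 hg c).trans (mul_le_mul_of_nonneg_left (T.Nn_le_N j c) zero_le_one)
  have hrN : T.Nn n u₀ = r := by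
    rw [hr, T.N_eq n u₀ (hj n hn)]
  have hx₀r : ‖Q.q u₀‖ ≤ r := by
    rw [hr]
    exact Q.q_le u₀
  have hrMne : ((r * T.M n : ℝ) : ℂ) ≠ 0 := by
    have : r * T.M n ≠ 0 := by positivity
    exact_mod_cast this
  let ξ : T.Om n → X := fun τ => (((r * T.M n : ℝ) : ℂ) * conj (sn τ)) • Q.q (T.ind n τ)
  have hξ : ∀ τ, ‖ξ τ‖ ≤ r := by
    intro τ
    simp only [ξ]
    rw [norm_smul, norm_mul, RCLike.norm_conj, hsn, mul_one, Complex.norm_real,
      Real.norm_of_nonneg (by positivity)]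
    have h := Q.q_le (T.ind n τ)
    rw [T.N_ind] at h
    calc r * T.M n * ‖Q.q (T.ind n τ)‖ ≤ r * T.M n * (T.M n)⁻¹ := by gcongr
      _ = r := by field_simp
  have hpξ : ∀ τ, ((‖T.ev n τ u₀‖ / (r * T.M n) : ℝ) : ℂ) • ξ τ =
      T.ev n τ u₀ • Q.q (T.ind n τ) := by
    intro τ
    simp only [ξ]
    rw [smul_smul]
    congr 1
    rw [← mul_assoc, Complex.ofReal_div, div_mul_cancel₀ _ hrMne]
    exact hun τ
  have hmean : ∑ τ, ((‖T.ev n τ u₀‖ / (r * T.M n) : ℝ) : ℂ) • ξ τ = Q.q u₀ := by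
    simp only [hpξ]
    conv_rhs => rw [T.expand n u₀ (hj n hn)]
    rw [map_sum]
    exact Finset.sum_congr rfl fun τ _ => (map_smul _ _ _).symm
  have hp1 : ∑ τ, ‖T.ev n τ u₀‖ / (r * T.M n) = 1 := by
    rw [← Finset.sum_div]
    have : ∑ τ, ‖T.ev n τ u₀‖ = T.M n * T.Nn n u₀ := by
      unfold Tow.Nn
      rw [← mul_assoc, mul_inv_cancel₀ hM.ne', one_mul]
    rw [this, hrN]
    field_simp
  have hη1 : 0 ≤ 2 * U / (r * T.M n) := by positivity
  have hη2 : 0 ≤ T.M j * (2 * U) * |T.eps n| := by positivity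
  have hη3 : 0 ≤ U / T.M n := by positivity
  have hη0 : 0 ≤ η := by rw [hη]; positivity
  -- kappa
  let φ : T.Om j → ℂ := fun σ => (s σ - D * g σ) * T.ev j σ u₀
  have hφ : ∀ σ, ‖φ σ‖ ≤ 2 * U := by
    intro σ
    simp only [φ]
    rw [norm_mul]
    refine mul_le_mul ?_ (hU σ) (norm_nonneg _) (by norm_num)
    refine (norm_sub_le _ _).trans ?_
    have := hDg σ
    rw [hs]
    linarith
  have hkap : (T.M j : ℂ)⁻¹ * ∑ σ, φ σ = (r : ℂ) - D * G (Q.q u₀) := by
    have h1 : ∑ σ, φ σ = ((∑ σ, ‖T.ev j σ u₀‖ : ℝ) : ℂ) - D * ∑ σ, g σ * T.ev j σ u₀ := by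
      rw [Complex.ofReal_sum, Finset.mul_sum, ← Finset.sum_sub_distrib]
      refine Finset.sum_congr rfl fun σ _ => ?_
      simp only [φ]
      rw [sub_mul, hsu]
      ring
    have h2 : (T.M j)⁻¹ * ∑ σ, ‖T.ev j σ u₀‖ = r := by
      have : T.Nn j u₀ = r := by rw [hr, T.N_eq j u₀ (hj j le_rfl)]
      rw [← this]
      rfl
    rw [h1, mul_sub, hG, ← h2]
    push_cast
    ring
  have hkap2 : ‖(r : ℂ) - D * G (Q.q u₀)‖ ≤ 2 := by
    refine (norm_sub_le _ _).trans ?_
    rw [Complex.norm_real, Real.norm_of_nonneg hr0.le, norm_mul, hDn]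
    have h3 := hGle (Q.q u₀)
    have h4 : (1 - δ) * ‖G (Q.q u₀)‖ ≤ 1 * 1 := by
      refine mul_le_mul (by linarith) ?_ (norm_nonneg _) zero_le_one
      linarith
    linarith
  let S : Sel X (T.Om n) :=
    { N := N
      hN := hN
      p := fun τ => ‖T.ev n τ u₀‖ / (r * T.M n)
      hp0 := fun τ => by positivity
      hp1 := hp1
      x₀ := Q.q u₀
      ξ := ξ
      hx₀ := hx₀r.trans hr1
      hξ := fun τ => (hξ τ).trans hr1
      hmean := hmean
      b := fun τ => Q.q (T.ind n τ)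
      u := fun τ => T.ev n τ u₀
      hpb := hpξ
      I := fun τ => Q.I n τ
      hI := fun τ z => Q.I_le n τ z
      w := fun τ => sn τ - D * gn τ
      hw := by
        intro τ
        refine (norm_sub_le _ _).trans ?_
        rw [hsn]
        have := hDg (T.res j n τ)
        show 1 + ‖D * g (T.res j n τ)‖ ≤ 2
        linarith
      F0 := D • G
      hF := by
        intro B hB z
        have hb := Q.bound (D • G + ∑ τ ∈ B, (sn τ - D * gn τ) • Q.I n τ) 2 (by norm_num) (by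
          intro c
          have e0 : (D • G + ∑ τ ∈ B, (sn τ - D * gn τ) • Q.I n τ) (Q.q c) =
              D * G (Q.q c) + ∑ τ ∈ B, (sn τ - D * gn τ) * T.I0 n τ c := by
            simp [Q.I_q]
          rw [e0, hGn]
          have hc := T.comb_I0 n (fun τ => if τ ∈ B then (sn τ - D * gn τ) else 0)
            (fun τ => D * gn τ) 1 (2 * N) (by
              intro τ
              by_cases hτ : τ ∈ B
              · simp only [hτ, if_true]
                have : D * gn τ + (sn τ - D * gn τ) = sn τ := by ring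
                rw [this]
                exact (hsn τ).le
              · simp only [hτ, if_false, add_zero]
                have := hDg (T.res j n τ)
                show ‖D * g (T.res j n τ)‖ ≤ 1
                linarith) (by
              have h1 : ∑ τ, ‖(if τ ∈ B then (sn τ - D * gn τ) else 0 : ℂ)‖ =
                  ∑ τ ∈ B, ‖sn τ - D * gn τ‖ := by
                rw [← Finset.sum_filter_add_sum_filter_not Finset.univ (· ∈ B)]
                have h2 : ∑ τ with ¬ τ ∈ B, ‖(if τ ∈ B then (sn τ - D * gn τ) else 0 : ℂ)‖ = 0 := by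
                  refine Finset.sum_eq_zero fun τ hτ => ?_
                  rw [Finset.mem_filter] at hτ
                  simp [hτ.2]
                rw [h2, add_zero]
                refine Finset.sum_congr (by ext τ; simp) fun τ hτ => ?_
                simp [hτ]
              rw [h1]
              have h3 : ∀ τ ∈ B, ‖sn τ - D * gn τ‖ ≤ 2 := by
                intro τ _
                refine (norm_sub_le _ _).trans ?_
                rw [hsn]
                have := hDg (T.res j n τ)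
                show 1 + ‖D * g (T.res j n τ)‖ ≤ 2
                linarith
              refine (Finset.sum_le_sum h3).trans ?_
              rw [Finset.sum_const, nsmul_eq_mul]
              have : (B.card : ℝ) ≤ N := by exact_mod_cast hB
              linarith) c
          have e : D * ((T.M n : ℂ)⁻¹ * ∑ τ, gn τ * T.ev n τ c) +
              ∑ τ ∈ B, (sn τ - D * gn τ) * T.I0 n τ c =
              (T.M n : ℂ)⁻¹ * ∑ τ, (D * gn τ) * T.ev n τ c +
              ∑ τ, (if τ ∈ B then (sn τ - D * gn τ) else 0) * T.I0 n τ c := by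
            have h1 : ∑ τ, (if τ ∈ B then (sn τ - D * gn τ) else 0) * T.I0 n τ c =
                ∑ τ ∈ B, (sn τ - D * gn τ) * T.I0 n τ c := by
              have h2 : ∑ τ ∈ B, ((sn τ - D * gn τ) * T.I0 n τ c) =
                  ∑ τ, if τ ∈ B then ((sn τ - D * gn τ) * T.I0 n τ c) else 0 := by
                rw [← Finset.sum_filter]
                refine Finset.sum_congr ?_ fun _ _ => rfl
                ext τ; simp
              rw [h2]
              refine Finset.sum_congr rfl fun τ _ => ?_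
              by_cases hτ : τ ∈ B
              · simp only [hτ, if_true]
              · simp only [hτ, if_false]; ring
            have h3 : ∑ τ, (D * gn τ) * T.ev n τ c = D * ∑ τ, gn τ * T.ev n τ c := by
              rw [Finset.mul_sum]
              exact Finset.sum_congr rfl fun τ _ => by ring
            rw [h1, h3]
            ring
          rw [e]
          refine hc.trans (mul_le_mul_of_nonneg_right ?_ (T.N_nonneg c))
          linarith) z
        have e1 : (D • G + ∑ τ ∈ B, (sn τ - D * gn τ) • Q.I n τ) z =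
            (D • G) z + ∑ τ ∈ B, (sn τ - D * gn τ) * Q.I n τ z := by
          simp
        rw [e1] at hb
        exact hb
      η := η
      hη := hη0
      h1 := by
        intro c hc z
        have hb := Q.bound (∑ τ, (((‖T.ev n τ u₀‖ / (r * T.M n) : ℝ) : ℂ) * c τ) • Q.I n τ) η hη0 (by
          intro d
          have e0 : (∑ τ, (((‖T.ev n τ u₀‖ / (r * T.M n) : ℝ) : ℂ) * c τ) • Q.I n τ) (Q.q d) =
              ∑ τ, (((‖T.ev n τ u₀‖ / (r * T.M n) : ℝ) : ℂ) * c τ) * T.I0 n τ d := by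
            simp [Q.I_q]
          rw [e0]
          have hpn : ∀ τ, ‖(((‖T.ev n τ u₀‖ / (r * T.M n) : ℝ) : ℂ) * c τ)‖ ≤
              ‖T.ev n τ u₀‖ / (r * T.M n) * 2 := by
            intro τ
            rw [norm_mul, Complex.norm_real, Real.norm_of_nonneg (by positivity)]
            exact mul_le_mul_of_nonneg_left (hc τ) (by positivity)
          have hc' := T.comb_I0 n
            (fun τ => (((‖T.ev n τ u₀‖ / (r * T.M n) : ℝ) : ℂ) * c τ)) (fun _ => 0)
            (2 * U / (r * T.M n)) 2 (by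
              intro τ
              rw [zero_add]
              refine (hpn τ).trans ?_
              have h5 := hUn τ
              rw [div_mul_eq_mul_div, mul_comm 2 U]
              gcongr) (by
              refine (Finset.sum_le_sum fun τ _ => hpn τ).trans ?_
              rw [← Finset.sum_mul, hp1, one_mul]) d
          have h6 : ‖∑ τ, (((‖T.ev n τ u₀‖ / (r * T.M n) : ℝ) : ℂ) * c τ) * T.I0 n τ d‖ ≤
              (2 * U / (r * T.M n) + 2 * T.rho n) * T.N d := by
            simpa using hc'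
          refine h6.trans (mul_le_mul_of_nonneg_right ?_ (T.N_nonneg d))
          rw [hη]
          linarith) z
        have e1 : (∑ τ, (((‖T.ev n τ u₀‖ / (r * T.M n) : ℝ) : ℂ) * c τ) • Q.I n τ) z =
            ∑ τ, (((‖T.ev n τ u₀‖ / (r * T.M n) : ℝ) : ℂ) * c τ) * Q.I n τ z := by
          simp
        rw [e1] at hb
        exact hb
      κ := (r : ℂ) - D * G (Q.q u₀)
      hκ := hkap2
      h2 := by
        intro R
        have h := Q.diag j n hn φ (2 * U) hφ h2 R
        rw [hkap] at h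
        have e1 : ∑ τ, (sn τ - D * gn τ) * T.ev n τ u₀ * Q.I n τ (R (Q.q (T.ind n τ))) =
            ∑ τ, φ (T.res j n τ) * Q.I n τ (R (Q.q (T.ind n τ))) := by
          refine Finset.sum_congr rfl fun τ _ => ?_
          simp only [φ, sn, gn]
          rw [hev]
        rw [e1]
        refine h.trans ?_
        have h7 : T.M j * (2 * U) * (T.eps n * ‖R‖) ≤ T.M j * (2 * U) * |T.eps n| * ‖R‖ := by
          have := le_abs_self (T.eps n)
          calc T.M j * (2 * U) * (T.eps n * ‖R‖) ≤ T.M j * (2 * U) * (|T.eps n| * ‖R‖) := by gcongr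
            _ = _ := by ring
        refine h7.trans (mul_le_mul_of_nonneg_right ?_ (norm_nonneg _))
        rw [hη]
        have := hρ0
        linarith
      h5 := by
        intro τ
        have h := Q.q_le (T.ind n τ)
        rw [T.N_ind] at h
        have h8 : ‖T.ev n τ u₀‖ * ‖Q.q (T.ind n τ)‖ ≤ U * (T.M n)⁻¹ :=
          mul_le_mul (hUn τ) h (norm_nonneg _) hU0
        refine h8.trans ?_
        rw [hη, ← div_eq_mul_inv]
        linarith
      h6 := by
        have h9 : ∀ τ ∈ (Finset.univ : Finset (T.Om n)), ‖Q.q (T.ind n τ)‖ ≤ (T.M n)⁻¹ := by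
          intro τ _
          have h := Q.q_le (T.ind n τ)
          rwa [T.N_ind] at h
        refine (Finset.sum_le_sum h9).trans (le_of_eq ?_)
        rw [Finset.sum_const, Finset.card_univ, nsmul_eq_mul, T.card_Om n]
        field_simp }
  obtain ⟨x, B, hx, hB, hBf, hmain⟩ := S.select A r hr1 hx₀r hξ
  have hBN : (B.card : ℝ) ≤ N := by exact_mod_cast hB
  have hκmono : √(2 * B.card / T.M n) ≤ √(2 * N / T.M n) := by
    apply Real.sqrt_le_sqrt
    gcongr
  obtain ⟨f, hf1, hf2, hf3⟩ := Q.attain n B sn gn hsn hgn hgnE G hGn _ δ rfl (by linarith) hδ1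
  have hfx : f x = (r : ℂ) := by
    refine hBf f r fun τ hτ => ?_
    show f (ξ τ) = r
    simp only [ξ]
    rw [map_smul, smul_eq_mul, hf2 τ hτ]
    have : ((r * T.M n : ℝ) : ℂ) * conj (sn τ) * ((T.M n : ℂ)⁻¹ * sn τ) =
        (r : ℂ) * ((T.M n : ℂ) * (T.M n : ℂ)⁻¹) * (conj (sn τ) * sn τ) := by
      push_cast
      ring
    rw [this, hconj, mul_inv_cancel₀ hMne]
    ring
  have hrc : (r : ℂ) ≠ 0 := by exact_mod_cast hr0.ne'
  have hxr : ‖x‖ = r := by
    apply le_antisymm hx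
    have := hf1 x
    rwa [hfx, Complex.norm_real, Real.norm_of_nonneg hr0.le] at this
  have hy : ‖((r : ℂ)⁻¹) • x‖ = 1 := by
    rw [norm_smul, norm_inv, Complex.norm_real, Real.norm_of_nonneg hr0.le, hxr,
      inv_mul_cancel₀ hr0.ne']
  have hfy : f (((r : ℂ)⁻¹) • x) = 1 := by
    rw [map_smul, hfx, smul_eq_mul, inv_mul_cancel₀ hrc]
  refine ⟨((r : ℂ)⁻¹) • x, f, hy, ?_, hfy, ?_⟩
  · apply le_antisymm
    · exact f.opNorm_le_bound zero_le_one fun z => by rw [one_mul]; exact hf1 z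
    · have := f.le_opNorm (((r : ℂ)⁻¹) • x)
      rw [hfy, hy, norm_one, mul_one] at this
      exact this
  · have hAy : (A fun _ => ((r : ℂ)⁻¹) • x) = ((r : ℂ)⁻¹) ^ k • (A fun _ => x) := by
      have := A.map_smul_univ (fun _ => (r : ℂ)⁻¹) (fun _ => x)
      simpa using this
    have h10 : ‖f (A fun _ => x)‖ ≤ ‖f (A fun _ => ((r : ℂ)⁻¹) • x)‖ := by
      rw [hAy, map_smul, norm_smul, norm_pow, norm_inv, Complex.norm_real,
        Real.norm_of_nonneg hr0.le]
      have : 1 ≤ (r⁻¹) ^ k := one_le_pow₀ ((one_le_inv₀ hr0).2 hr1)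
      exact le_mul_of_one_le_left (norm_nonneg _) this
    refine le_trans ?_ h10
    have hPx : ‖A fun _ => x‖ ≤ ‖A‖ := by
      refine (A.le_opNorm _).trans (mul_le_of_le_one_right (norm_nonneg _) ?_)
      exact Finset.prod_le_one (fun _ _ => norm_nonneg _) (fun _ _ => hx.trans hr1)
    have h11 := hf3 (A fun _ => x)
    have hFB : S.F B (A fun _ => x) = D * G (A fun _ => x) +
        ∑ τ ∈ B, (sn τ - D * gn τ) * Q.I n τ (A fun _ => x) := by
      rw [S.F_apply]
      rfl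
    rw [← hFB] at h11
    have h12 : ‖S.F B (A fun _ => x)‖ ≤ ‖f (A fun _ => x)‖ +
        ‖f (A fun _ => x) - S.F B (A fun _ => x)‖ := by
      have e2 : S.F B (A fun _ => x) = f (A fun _ => x) -
          (f (A fun _ => x) - S.F B (A fun _ => x)) := by ring
      calc ‖S.F B (A fun _ => x)‖ = ‖f (A fun _ => x) -
          (f (A fun _ => x) - S.F B (A fun _ => x))‖ := by rw [← e2]
        _ ≤ _ := norm_sub_le _ _
    have h13 : (4 * √(2 * B.card / T.M n) + 2 * B.card * T.rho n) * ‖A fun _ => x‖ ≤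
        (4 * √(2 * N / T.M n) + 2 * N * T.rho n) * ‖A‖ := by
      refine mul_le_mul ?_ hPx (norm_nonneg _) (by positivity)
      gcongr
    have hm : ‖D * G (A fun _ => Q.q u₀) +
        ((r : ℂ) - D * G (Q.q u₀)) * Q.psi n A (Q.q u₀)‖ -
        N * ((6 + 4 * k) * (2 ^ k * (‖A‖ * (2 / N) ^ 2)) + (5 * k + 1) * (η * ‖A‖)) ≤
        ‖S.F B (A fun _ => x)‖ := hmain
    linarith

end Quo

end Pool.Agent.TH325.PI
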