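import Pool.Agent.TH325.PI.Lev

set_option autoImplicit false

open scoped ComplexConjugate
open Finset Function Filter Topology

namespace Pool.Agent.TH325.PI

namespace Tow

variable {Γ : Type} [AddCommGroup Γ] (T : Tow Γ)

theorem M_lim : Tendsto T.M atTop atTop := by
  refine tendsto_atTop_mono (fun n => ?_) T.card_lim
  unfold M
  exact_mod_cast Finset.card_le_card (fun a ha => ((T.mem_Ef n a).1 ha).2)

theorem rho_tendsto : Tendsto T.rho atTop (𝓝 0) := T.rho_lim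

end Tow

namespace Quo

variable {Γ : Type} [AddCommGroup Γ] {T : Tow Γ} {X : Type} [NormedAddCommGroup X]
    [NormedSpace ℂ X] (Q : Quo T X)

/-- polynomials of `L_1` norm less than one approximate the unit ball -/
theorem approx (z : X) (hz : ‖z‖ ≤ 1) (ε : ℝ) (hε : 0 < ε) :
    ∃ u : Γ →₀ ℂ, T.N u < 1 ∧ ‖Q.q u - z‖ < ε := by
  obtain ⟨a, ha0, ha1, haε⟩ : ∃ a : ℝ, 0 < a ∧ a ≤ 1 ∧ a < ε :=
    ⟨min 1 (ε / 2), by positivity, min_le_left _ _, lt_of_le_of_lt (min_le_right _ _) (by linarith)⟩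
  -- shrink `z`
  obtain ⟨c, hc⟩ := Q.q_dense.exists_dist_lt (((1 - a / 2 : ℝ) : ℂ) • z) (by positivity : 0 < a / 4)
  have hz' : ‖((1 - a / 2 : ℝ) : ℂ) • z‖ ≤ 1 - a / 2 := by
    rw [norm_smul, Complex.norm_real, Real.norm_of_nonneg (by linarith)]
    exact mul_le_of_le_one_right (by linarith) hz
  have hc' : ‖((1 - a / 2 : ℝ) : ℂ) • z - Q.q c‖ < a / 4 := by rwa [← dist_eq_norm]
  have hqc : ‖Q.q c‖ < 1 - a / 4 := by
    have h1 : Q.q c = ((1 - a / 2 : ℝ) : ℂ) • z - (((1 - a / 2 : ℝ) : ℂ) • z - Q.q c) := by abel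
    have h2 := norm_sub_le (((1 - a / 2 : ℝ) : ℂ) • z) (((1 - a / 2 : ℝ) : ℂ) • z - Q.q c)
    rw [← h1] at h2
    linarith
  obtain ⟨y, hy, hlt⟩ := Q.q_inf c (a / 4) (by positivity)
  refine ⟨c - y, by linarith, ?_⟩
  rw [map_sub, Q.q_Y y hy, sub_zero]
  have h3 : Q.q c - z = -(((1 - a / 2 : ℝ) : ℂ) • z - Q.q c) - ((a / 2 : ℝ) : ℂ) • z := by
    have : ((1 - a / 2 : ℝ) : ℂ) = 1 - ((a / 2 : ℝ) : ℂ) := by push_cast; ring
    rw [this, sub_smul, one_smul]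
    abel
  rw [h3]
  refine lt_of_le_of_lt (norm_sub_le _ _) ?_
  rw [norm_neg, norm_smul, Complex.norm_real, Real.norm_of_nonneg (by linarith)]
  have h4 : a / 2 * ‖z‖ ≤ a / 2 := mul_le_of_le_one_right (by linarith) hz
  linarith

include Q in
/-- the numerical radius of a polynomial is its norm -/
theorem radius [Nontrivial X] {k : ℕ} (hk : 1 ≤ k)
    (A : ContinuousMultilinearMap ℂ (fun _ : Fin k => X) X) (z : X) (hz : ‖z‖ ≤ 1) (ε : ℝ)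
    (hε : 0 < ε) : ∃ (y : X) (f : X →L[ℂ] ℂ), ‖y‖ = 1 ∧ ‖f‖ = 1 ∧ f y = 1 ∧
      ‖A fun _ => z‖ - ε < ‖f (A fun _ => y)‖ := by
  classical
  by_cases hsmall : ‖A fun _ => z‖ - ε < 0
  · obtain ⟨u, hu⟩ := exists_norm_eq X (zero_le_one (α := ℝ))
    have hu0 : ‖u‖ ≠ 0 := by
      rw [hu]
      exact one_ne_zero
    obtain ⟨g, hg, hgu⟩ := exists_dual_vector ℂ u hu0
    refine ⟨u, g, hu, hg, ?_, lt_of_lt_of_le hsmall (norm_nonneg _)⟩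
    rw [hgu, hu]
    simp
  push Not at hsmall
  -- approximate `z`
  have hcont : Continuous fun z : X => ‖A fun _ => z‖ := by
    exact (A.cont.comp (continuous_pi fun _ => continuous_id)).norm
  obtain ⟨d, hd0, hd⟩ := Metric.continuousAt_iff.1 (hcont.continuousAt (x := z)) (ε / 4)
    (by positivity)
  obtain ⟨u₀, hu₀, hu₀z⟩ := Q.approx z hz d hd0
  obtain ⟨x₀, hx₀⟩ : ∃ x₀, x₀ = Q.q u₀ := ⟨_, rfl⟩
  have hPx₀ : ‖A fun _ => z‖ - ε / 4 < ‖A fun _ => x₀‖ := by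
    have h1 := @hd x₀ (by rw [dist_eq_norm, hx₀]; exact hu₀z)
    rw [Real.dist_eq, abs_lt] at h1
    linarith [h1.1]
  obtain ⟨r, hr⟩ : ∃ r, r = T.N u₀ := ⟨_, rfl⟩
  have hr1 : r < 1 := by rw [hr]; exact hu₀
  have hx₀r : ‖x₀‖ ≤ r := by rw [hx₀, hr]; exact Q.q_le u₀
  have hr0 : 0 < r := by
    by_contra hneg
    push Not at hneg
    have h1 : x₀ = 0 := norm_le_zero_iff.1 (hx₀r.trans hneg)
    have h2 : (A fun _ => x₀) = 0 := by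
      rw [h1]
      exact A.map_coord_zero (⟨0, hk⟩ : Fin k) rfl
    rw [h2, norm_zero] at hPx₀
    linarith
  have hx₀1 : ‖x₀‖ ≤ 1 := by linarith
  obtain ⟨j₀, hj₀⟩ := T.exists_level_one u₀
  -- a limit of the diagonal functionals
  obtain ⟨ψ, -, φ, hφ, hψ⟩ := tendsto_subseq_of_bounded
    (s := Metric.closedBall (0 : ℂ) (k * (2 * ‖A‖))) Metric.isBounded_closedBall
    (x := fun n => Q.psi n A x₀) (fun n => by
      rw [mem_closedBall_zero_iff]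
      exact Q.psi_le n A x₀ hx₀1)
  obtain ⟨z₂, hz₂⟩ : ∃ z₂, z₂ = (A fun _ => x₀) - ψ • x₀ := ⟨_, rfl⟩
  obtain ⟨j₁, g₁, G₁, hg₁, hG₁, hg₁E, hG₁z⟩ := Q.norming z₂ (ε / 8) (by positivity)
  obtain ⟨v, hv1, hv2⟩ := Tow.phase ψ
  have hvc : ‖conj v‖ = 1 := by rw [RCLike.norm_conj, hv1]
  have hvv : conj v * v = 1 := by
    rw [Complex.conj_mul', hv1]
    simp
  have hψv : ψ = conj v * (‖ψ‖ : ℂ) := by
    rw [← hv2, ← mul_assoc, hvv, one_mul]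
  -- common level
  obtain ⟨j, hj⟩ : ∃ j, j = max j₀ j₁ := ⟨_, rfl⟩
  have hj0 : j₀ ≤ j := by rw [hj]; exact le_max_left _ _
  have hj1 : j₁ ≤ j := by rw [hj]; exact le_max_right _ _
  choose s hs1 hs2 using fun σ : T.Om j => Tow.phase (T.ev j σ u₀)
  let g : T.Om j → ℂ := fun σ => conj v * g₁ (T.res j₁ j σ)
  have hg : ∀ σ, ‖g σ‖ ≤ 1 := by
    intro σ
    simp only [g]
    rw [norm_mul, hvc, one_mul]
    exact hg₁ _
  have hgE : ∀ a ∈ T.E, ∑ σ, g σ * T.ch j σ a = 0 := by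
    intro a ha
    have h1 := T.restr_kill j₁ j hj1 g₁ hg₁E a ha
    have h2 : ∑ σ, g σ * T.ch j σ a = conj v * ∑ σ, g₁ (T.res j₁ j σ) * T.ch j σ a := by
      rw [Finset.mul_sum]
      exact Finset.sum_congr rfl fun σ _ => by simp only [g]; ring
    rw [h2, h1, mul_zero]
  have hG : ∀ c, (conj v • G₁) (Q.q c) = (T.M j : ℂ)⁻¹ * ∑ σ, g σ * T.ev j σ c := by
    intro c
    rw [smul_apply, smul_eq_mul, hG₁, ← T.lift_ev j₁ j hj1 g₁ c]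
    have h2 : ∑ σ, g σ * T.ev j σ c = conj v * ∑ σ, g₁ (T.res j₁ j σ) * T.ev j σ c := by
      rw [Finset.mul_sum]
      exact Finset.sum_congr rfl fun σ _ => by simp only [g]; ring
    rw [h2]
    ring
  obtain ⟨U, hU⟩ : ∃ U, ∀ σ, ‖T.ev j σ u₀‖ ≤ U := ⟨_, fun σ => T.ev_le j σ u₀⟩
  -- the constants
  obtain ⟨δ, hδ0, hδ1, hδε⟩ : ∃ δ : ℝ, 0 < δ ∧ δ ≤ 1 ∧ δ * ‖z₂‖ ≤ ε / 8 := by
    refine ⟨min 1 (ε / 8 / (‖z₂‖ + 1)), by positivity, min_le_left _ _, ?_⟩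
    calc min 1 (ε / 8 / (‖z₂‖ + 1)) * ‖z₂‖ ≤ ε / 8 / (‖z₂‖ + 1) * ‖z₂‖ := by
          gcongr; exact min_le_right _ _
      _ ≤ ε / 8 := by
          rw [div_mul_eq_mul_div, div_le_iff₀ (by positivity)]
          have := norm_nonneg z₂
          nlinarith
  obtain ⟨N, hN2, hNε⟩ : ∃ N : ℕ, 2 ≤ N ∧
      N * ((6 + 4 * k) * (2 ^ k * (‖A‖ * (2 / N) ^ 2))) ≤ ε / 16 := by
    obtain ⟨N₀, hN₀⟩ := exists_nat_gt (16 * ((6 + 4 * k) * (2 ^ k * (‖A‖ * 4))) / ε)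
    refine ⟨max N₀ 2, le_max_right _ _, ?_⟩
    have hNp : (0 : ℝ) < (max N₀ 2 : ℕ) := by
      have : 0 < max N₀ 2 := by omega
      exact_mod_cast this
    have h1 : ((max N₀ 2 : ℕ) : ℝ) * ((6 + 4 * k) * (2 ^ k * (‖A‖ * (2 / (max N₀ 2 : ℕ)) ^ 2))) =
        ((6 + 4 * k) * (2 ^ k * (‖A‖ * 4))) / (max N₀ 2 : ℕ) := by
      field_simp
      ring
    rw [h1, div_le_iff₀ hNp]
    have h2 : (N₀ : ℝ) ≤ (max N₀ 2 : ℕ) := by exact_mod_cast le_max_left _ _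
    rw [div_lt_iff₀ hε] at hN₀
    nlinarith
  -- limits
  let η : ℕ → ℝ := fun n => 2 * U / (r * T.M n) + 2 * T.rho n + T.M j * (2 * U) * |T.eps n| +
      U / T.M n
  have hηlim : Tendsto η atTop (𝓝 0) := by
    have h1 : Tendsto (fun n => 2 * U / (r * T.M n)) atTop (𝓝 0) :=
      Tendsto.div_atTop tendsto_const_nhds (T.M_lim.const_mul_atTop hr0)
    have h2 : Tendsto (fun n => 2 * T.rho n) atTop (𝓝 (2 * 0)) := T.rho_tendsto.const_mul 2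
    have h3 : Tendsto (fun n => T.M j * (2 * U) * |T.eps n|) atTop (𝓝 (T.M j * (2 * U) * |0|)) :=
      (T.eps_lim.abs).const_mul _
    have h4 : Tendsto (fun n => U / T.M n) atTop (𝓝 0) :=
      Tendsto.div_atTop tendsto_const_nhds T.M_lim
    have h5 := ((h1.add h2).add h3).add h4
    simpa using h5
  have hκlim : Tendsto (fun n => √(2 * N / T.M n)) atTop (𝓝 0) := by
    have h1 : Tendsto (fun n => 2 * (N : ℝ) / T.M n) atTop (𝓝 0) :=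
      Tendsto.div_atTop tendsto_const_nhds T.M_lim
    have h2 := (Real.continuous_sqrt.tendsto 0).comp h1
    rw [Real.sqrt_zero] at h2
    exact h2
  have hfin : ∀ᶠ n in atTop, j ≤ n ∧ 2 ≤ (T.Ef n).card ∧ 4 * √(2 * N / T.M n) ≤ δ ∧
      2 * N * T.rho n ≤ 1 ∧ N * ((5 * k + 1) * (η n * ‖A‖)) ≤ ε / 16 ∧
      (4 * √(2 * N / T.M n) + 2 * N * T.rho n) * ‖A‖ ≤ ε / 16 := by
    have e1 : ∀ᶠ n in atTop, j ≤ n := eventually_ge_atTop j
    have e2 : ∀ᶠ n in atTop, 2 ≤ (T.Ef n).card := by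
      have := T.card_lim.eventually (eventually_ge_atTop (2 : ℝ))
      filter_upwards [this] with n hn
      exact_mod_cast hn
    have e3 : ∀ᶠ n in atTop, 4 * √(2 * N / T.M n) ≤ δ := by
      have h1 : Tendsto (fun n => 4 * √(2 * N / T.M n)) atTop (𝓝 (4 * 0)) := hκlim.const_mul 4
      rw [mul_zero] at h1
      exact h1.eventually (eventually_le_nhds hδ0)
    have e4 : ∀ᶠ n in atTop, 2 * N * T.rho n ≤ 1 := by
      have h1 : Tendsto (fun n => 2 * N * T.rho n) atTop (𝓝 (2 * N * 0)) :=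
        T.rho_tendsto.const_mul _
      rw [mul_zero] at h1
      exact h1.eventually (eventually_le_nhds one_pos)
    have e5 : ∀ᶠ n in atTop, N * ((5 * k + 1) * (η n * ‖A‖)) ≤ ε / 16 := by
      have h1 : Tendsto (fun n => N * ((5 * k + 1) * (η n * ‖A‖))) atTop
          (𝓝 (N * ((5 * k + 1) * (0 * ‖A‖)))) :=
        ((hηlim.mul_const _).const_mul _).const_mul _
      rw [zero_mul, mul_zero, mul_zero] at h1
      exact h1.eventually (eventually_le_nhds (by positivity))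
    have e6 : ∀ᶠ n in atTop, (4 * √(2 * N / T.M n) + 2 * N * T.rho n) * ‖A‖ ≤ ε / 16 := by
      have h1 : Tendsto (fun n => (4 * √(2 * N / T.M n) + 2 * N * T.rho n) * ‖A‖) atTop
          (𝓝 ((4 * 0 + 2 * N * 0) * ‖A‖)) :=
        ((hκlim.const_mul 4).add (T.rho_tendsto.const_mul _)).mul_const _
      rw [mul_zero, mul_zero, add_zero, zero_mul] at h1
      exact h1.eventually (eventually_le_nhds (by positivity))
    filter_upwards [e1, e2, e3, e4, e5, e6] with n h1 h2 h3 h4 h5 h6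
    exact ⟨h1, h2, h3, h4, h5, h6⟩
  have hsub := hφ.tendsto_atTop.eventually hfin
  have hψ' : ∀ᶠ m in atTop, ‖Q.psi (φ m) A x₀ - ψ‖ < ε / 16 := by
    have := Metric.tendsto_nhds.1 hψ (ε / 16) (by positivity)
    filter_upwards [this] with m hm
    rwa [← dist_eq_norm]
  obtain ⟨m, ⟨h1, h2, h3, h4, h5, h6⟩, h7⟩ := (hsub.and hψ').exists
  obtain ⟨y, f, hy, hf, hfy, hlow⟩ := Q.level A u₀ r hr hr0 hr1.le j
    (fun n hn => hj₀ n (hj0.trans hn)) s g hs1 hs2 hg hgE (conj v • G₁) hG U hU N hN2 (φ m) h1 h2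
    δ hδ1 h3 h4 (η (φ m)) rfl
  refine ⟨y, f, hy, hf, hfy, lt_of_lt_of_le ?_ hlow⟩
  -- lower bound of the main term
  rw [← hx₀]
  obtain ⟨ψn, hψn⟩ : ∃ ψn, ψn = Q.psi (φ m) A x₀ := ⟨_, rfl⟩
  rw [← hψn] at h7 ⊢
  have hG₁le : ∀ z, ‖G₁ z‖ ≤ ‖z‖ := by
    intro z
    have := Q.bound G₁ 1 zero_le_one (fun c => by
      rw [hG₁]
      exact (T.pair_le j₁ g₁ 1 hg₁ c).trans (mul_le_mul_of_nonneg_left (T.Nn_le_N j₁ c) zero_le_one)) z
    rwa [one_mul] at this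
  have hmain : ‖z₂‖ - δ * ‖z₂‖ + r * ‖ψ‖ - ε / 8 - ε / 8 ≤
      ‖((1 - δ : ℝ) : ℂ) * (conj v • G₁) (A fun _ => x₀) +
        ((r : ℂ) - ((1 - δ : ℝ) : ℂ) * (conj v • G₁) x₀) * ψn‖ := by
    have e1 : ((1 - δ : ℝ) : ℂ) * (conj v • G₁) (A fun _ => x₀) +
        ((r : ℂ) - ((1 - δ : ℝ) : ℂ) * (conj v • G₁) x₀) * ψn =
        conj v * (((1 - δ) * ‖z₂‖ + r * ‖ψ‖ : ℝ) : ℂ) +
        (((1 - δ : ℝ) : ℂ) * (conj v * (G₁ z₂ - (‖z₂‖ : ℂ))) +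
        ((r : ℂ) - ((1 - δ : ℝ) : ℂ) * (conj v * G₁ x₀)) * (ψn - ψ)) := by
      have hAz : (A fun _ => x₀) = z₂ + ψ • x₀ := by rw [hz₂]; abel
      rw [hAz]
      simp only [smul_apply, smul_eq_mul, map_add, map_smul]
      push_cast
      linear_combination (-(r : ℂ)) * (-hψv)
    rw [e1]
    have e2 : ‖conj v * (((1 - δ) * ‖z₂‖ + r * ‖ψ‖ : ℝ) : ℂ)‖ = (1 - δ) * ‖z₂‖ + r * ‖ψ‖ := by
      rw [norm_mul, hvc, one_mul, Complex.norm_real, Real.norm_of_nonneg]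
      have := norm_nonneg z₂
      have := norm_nonneg ψ
      have : 0 ≤ 1 - δ := by linarith
      positivity
    have e3 : ‖((1 - δ : ℝ) : ℂ) * (conj v * (G₁ z₂ - (‖z₂‖ : ℂ)))‖ ≤ ε / 8 := by
      rw [norm_mul, norm_mul, hvc, one_mul, Complex.norm_real, Real.norm_of_nonneg (by linarith)]
      calc (1 - δ) * ‖G₁ z₂ - (‖z₂‖ : ℂ)‖ ≤ 1 * (ε / 8) := by
            refine mul_le_mul (by linarith) hG₁z.le (norm_nonneg _) zero_le_one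
        _ = ε / 8 := one_mul _
    have e4 : ‖((r : ℂ) - ((1 - δ : ℝ) : ℂ) * (conj v * G₁ x₀)) * (ψn - ψ)‖ ≤ ε / 8 := by
      rw [norm_mul]
      have h8 : ‖(r : ℂ) - ((1 - δ : ℝ) : ℂ) * (conj v * G₁ x₀)‖ ≤ 2 := by
        refine (norm_sub_le _ _).trans ?_
        rw [norm_mul, norm_mul, hvc, one_mul, Complex.norm_real, Complex.norm_real,
          Real.norm_of_nonneg hr0.le, Real.norm_of_nonneg (by linarith)]
        have h9 : (1 - δ) * ‖G₁ x₀‖ ≤ 1 * 1 :=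
          mul_le_mul (by linarith) ((hG₁le x₀).trans hx₀1) (norm_nonneg _) zero_le_one
        linarith
      calc ‖(r : ℂ) - ((1 - δ : ℝ) : ℂ) * (conj v * G₁ x₀)‖ * ‖ψn - ψ‖ ≤ 2 * (ε / 16) :=
            mul_le_mul h8 h7.le (norm_nonneg _) (by norm_num)
        _ = ε / 8 := by ring
    have e5 := norm_add_le (((1 - δ : ℝ) : ℂ) * (conj v * (G₁ z₂ - (‖z₂‖ : ℂ))))
      (((r : ℂ) - ((1 - δ : ℝ) : ℂ) * (conj v * G₁ x₀)) * (ψn - ψ))
    have e6 : ‖conj v * (((1 - δ) * ‖z₂‖ + r * ‖ψ‖ : ℝ) : ℂ)‖ ≤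
        ‖conj v * (((1 - δ) * ‖z₂‖ + r * ‖ψ‖ : ℝ) : ℂ) +
        (((1 - δ : ℝ) : ℂ) * (conj v * (G₁ z₂ - (‖z₂‖ : ℂ))) +
        ((r : ℂ) - ((1 - δ : ℝ) : ℂ) * (conj v * G₁ x₀)) * (ψn - ψ))‖ +
        ‖((1 - δ : ℝ) : ℂ) * (conj v * (G₁ z₂ - (‖z₂‖ : ℂ))) +
        ((r : ℂ) - ((1 - δ : ℝ) : ℂ) * (conj v * G₁ x₀)) * (ψn - ψ)‖ := by
      have := norm_sub_le (conj v * (((1 - δ) * ‖z₂‖ + r * ‖ψ‖ : ℝ) : ℂ) +
        (((1 - δ : ℝ) : ℂ) * (conj v * (G₁ z₂ - (‖z₂‖ : ℂ))) +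
        ((r : ℂ) - ((1 - δ : ℝ) : ℂ) * (conj v * G₁ x₀)) * (ψn - ψ)))
        (((1 - δ : ℝ) : ℂ) * (conj v * (G₁ z₂ - (‖z₂‖ : ℂ))) +
        ((r : ℂ) - ((1 - δ : ℝ) : ℂ) * (conj v * G₁ x₀)) * (ψn - ψ))
      rwa [add_sub_cancel_right] at this
    rw [e2] at e6
    linarith
  have hP : ‖A fun _ => x₀‖ ≤ ‖z₂‖ + r * ‖ψ‖ := by
    have hAz : (A fun _ => x₀) = z₂ + ψ • x₀ := by rw [hz₂]; abel
    rw [hAz]
    refine (norm_add_le _ _).trans ?_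
    rw [norm_smul]
    have : ‖ψ‖ * ‖x₀‖ ≤ r * ‖ψ‖ := by
      rw [mul_comm]
      exact mul_le_mul_of_nonneg_right hx₀r (norm_nonneg _)
    linarith
  have hsum : (N : ℝ) * ((6 + 4 * k) * (2 ^ k * (‖A‖ * (2 / N) ^ 2)) +
      (5 * k + 1) * (η (φ m) * ‖A‖)) ≤ ε / 16 + ε / 16 := by
    rw [mul_add]
    exact add_le_add hNε h5
  linarith

end Quo

end Pool.Agent.TH325.PI
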