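import Pool.Agent.TH325.PI.Tow

set_option autoImplicit false

open scoped ComplexConjugate
open Finset

namespace Pool.Agent.TH325.PI

namespace Tow

variable {Γ : Type} [AddCommGroup Γ] (T : Tow Γ)

theorem ev_eq (n : ℕ) (τ : T.Om n) (c : Γ →₀ ℂ) :
    T.ev n τ c = ∑ a ∈ T.H n, c a * T.ch n τ a := by
  classical
  induction c using Finsupp.induction_linear with
  | zero => simp
  | add f g hf hg =>
    simp only [map_add, Finsupp.add_apply, add_mul, Finset.sum_add_distrib]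
    rw [hf, hg]
  | single b z =>
    rw [ev_single]
    simp only [Finsupp.single_apply, ite_mul, zero_mul]
    rw [Finset.sum_ite_eq (T.H n) b]
    by_cases hb : b ∈ T.H n
    · rw [if_pos hb]
    · rw [if_neg hb, T.ch_out n τ b hb, mul_zero]

theorem parseval (n : ℕ) (c : Γ →₀ ℂ) :
    (T.M n)⁻¹ * ∑ τ, ‖T.ev n τ c‖ ^ 2 = ∑ a ∈ T.H n, ‖c a‖ ^ 2 := by
  have h : ((∑ a ∈ T.H n, ‖c a‖ ^ 2 : ℝ) : ℂ) = (((T.M n)⁻¹ * ∑ τ, ‖T.ev n τ c‖ ^ 2 : ℝ) : ℂ) := by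
    push_cast
    have h1 : ∀ z : ℂ, ((‖z‖ : ℂ)) ^ 2 = conj z * z := fun z => by
      rw [Complex.conj_mul']
    simp only [h1]
    have h2 : ∑ a ∈ T.H n, conj (c a) * c a = ∑ a ∈ T.H n, conj (c a) *
        ((T.M n : ℂ)⁻¹ * ∑ τ, conj (T.ch n τ a) * T.ev n τ c) := by
      refine Finset.sum_congr rfl fun a ha => ?_
      rw [T.coef n c a ha]
    rw [h2]
    have h3 : ∑ a ∈ T.H n, conj (c a) * ((T.M n : ℂ)⁻¹ * ∑ τ, conj (T.ch n τ a) * T.ev n τ c) =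
        (T.M n : ℂ)⁻¹ * ∑ τ, ∑ a ∈ T.H n, conj (c a) * (conj (T.ch n τ a) * T.ev n τ c) := by
      rw [Finset.sum_comm, Finset.mul_sum]
      refine Finset.sum_congr rfl fun a _ => ?_
      rw [Finset.mul_sum, Finset.mul_sum, Finset.mul_sum]
      refine Finset.sum_congr rfl fun τ _ => by ring
    rw [h3]
    congr 1
    refine Finset.sum_congr rfl fun τ _ => ?_
    rw [T.ev_eq n τ c, map_sum, Finset.sum_mul]
    refine Finset.sum_congr rfl fun a _ => ?_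
    rw [map_mul]
    ring
  exact_mod_cast h.symm

/-- functions with spectrum in the Sidon set -/
def InY (y : Γ →₀ ℂ) : Prop := ∀ a, y a ≠ 0 → a ∈ T.E

theorem ev_Y (n : ℕ) (τ : T.Om n) (y : Γ →₀ ℂ) (hy : T.InY y) :
    T.ev n τ y = ∑ a ∈ T.Ef n, y a * T.ch n τ a := by
  rw [T.ev_eq]
  symm
  refine Finset.sum_subset (fun a ha => ((T.mem_Ef n a).1 ha).2) fun a ha hna => ?_
  have : y a = 0 := by
    by_contra h
    exact hna ((T.mem_Ef n a).2 ⟨hy a h, ha⟩)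
  rw [this, zero_mul]

theorem sum_H_Y (n : ℕ) (y : Γ →₀ ℂ) (hy : T.InY y) :
    ∑ a ∈ T.H n, ‖y a‖ ^ 2 = ∑ a ∈ T.Ef n, ‖y a‖ ^ 2 := by
  symm
  refine Finset.sum_subset (fun a ha => ((T.mem_Ef n a).1 ha).2) fun a ha hna => ?_
  have : y a = 0 := by
    by_contra h
    exact hna ((T.mem_Ef n a).2 ⟨hy a h, ha⟩)
  rw [this, norm_zero]
  simp

/-- fourth moment bound -/
theorem fourth (n : ℕ) (y : Γ →₀ ℂ) (hy : T.InY y) :
    (T.M n)⁻¹ * ∑ τ, ‖T.ev n τ y‖ ^ 4 ≤ 2 * (∑ a ∈ T.Ef n, ‖y a‖ ^ 2) ^ 2 := by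
  classical
  set w : Γ →₀ ℂ := ∑ p ∈ T.Ef n ×ˢ T.Ef n, Finsupp.single (p.1 + p.2) (y p.1 * y p.2) with hw
  have hEH : ∀ a ∈ T.Ef n, a ∈ T.H n := fun a ha => ((T.mem_Ef n a).1 ha).2
  have hev : ∀ τ, T.ev n τ w = (T.ev n τ y) ^ 2 := by
    intro τ
    rw [hw, map_sum, T.ev_Y n τ y hy, sq, Finset.sum_mul_sum, Finset.sum_product]
    refine Finset.sum_congr rfl fun a ha => Finset.sum_congr rfl fun b hb => ?_
    rw [ev_single, T.ch_add n τ a b (hEH a ha) (hEH b hb)]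
    ring
  have h1 : ∀ τ, ‖T.ev n τ y‖ ^ 4 = ‖T.ev n τ w‖ ^ 2 := by
    intro τ
    rw [hev, norm_pow, ← pow_mul]
  simp only [h1]
  rw [T.parseval]
  have hwg : ∀ g, w g = ∑ p ∈ (T.Ef n ×ˢ T.Ef n) with p.1 + p.2 = g, y p.1 * y p.2 := by
    intro g
    rw [hw]
    simp only [Finsupp.coe_finsetSum, Finset.sum_apply, Finsupp.single_apply]
    rw [Finset.sum_filter]
  have hcard : ∀ g, ((T.Ef n ×ˢ T.Ef n).filter (fun p => p.1 + p.2 = g)).card ≤ 2 := by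
    intro g
    by_cases hne : ((T.Ef n ×ˢ T.Ef n).filter (fun p => p.1 + p.2 = g)).Nonempty
    · obtain ⟨q, hq⟩ := hne
      rw [Finset.mem_filter, Finset.mem_product] at hq
      have hsub : (T.Ef n ×ˢ T.Ef n).filter (fun p => p.1 + p.2 = g) ⊆ {q, (q.2, q.1)} := by
        intro p hp
        rw [Finset.mem_filter, Finset.mem_product] at hp
        have hE := fun a ha => ((T.mem_Ef n a).1 ha).1
        have := T.sidon p.1 p.2 q.1 q.2 (hE _ hp.1.1) (hE _ hp.1.2) (hE _ hq.1.1) (hE _ hq.1.2)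
          (hp.2.trans hq.2.symm)
        rw [Finset.mem_insert, Finset.mem_singleton]
        rcases this with ⟨h1, h2⟩ | ⟨h1, h2⟩
        · exact Or.inl (Prod.ext h1 h2)
        · exact Or.inr (Prod.ext h1 h2)
      exact (Finset.card_le_card hsub).trans Finset.card_le_two
    · rw [Finset.not_nonempty_iff_eq_empty.1 hne]
      simp
  have h2 : ∀ g, ‖w g‖ ^ 2 ≤ 2 * ∑ p ∈ (T.Ef n ×ˢ T.Ef n) with p.1 + p.2 = g,
      (‖y p.1‖ * ‖y p.2‖) ^ 2 := by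
    intro g
    rw [hwg]
    have e1 : ‖∑ p ∈ (T.Ef n ×ˢ T.Ef n) with p.1 + p.2 = g, y p.1 * y p.2‖ ≤
        ∑ p ∈ (T.Ef n ×ˢ T.Ef n) with p.1 + p.2 = g, ‖y p.1‖ * ‖y p.2‖ := by
      refine (norm_sum_le _ _).trans (le_of_eq ?_)
      refine Finset.sum_congr rfl fun p _ => norm_mul _ _
    have e2 := sq_sum_le_card_mul_sum_sq (s := (T.Ef n ×ˢ T.Ef n).filter (fun p => p.1 + p.2 = g))
      (f := fun p => ‖y p.1‖ * ‖y p.2‖)
    refine (pow_le_pow_left₀ (norm_nonneg _) e1 2).trans (e2.trans ?_)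
    have e3 : (((T.Ef n ×ˢ T.Ef n).filter (fun p => p.1 + p.2 = g)).card : ℝ) ≤ 2 := by
      exact_mod_cast hcard g
    exact mul_le_mul_of_nonneg_right e3 (Finset.sum_nonneg fun p _ => by positivity)
  refine (Finset.sum_le_sum fun g _ => h2 g).trans ?_
  rw [← Finset.mul_sum]
  have h3 : ∑ g ∈ T.H n, ∑ p ∈ (T.Ef n ×ˢ T.Ef n) with p.1 + p.2 = g,
      (‖y p.1‖ * ‖y p.2‖) ^ 2 = ∑ p ∈ T.Ef n ×ˢ T.Ef n, (‖y p.1‖ * ‖y p.2‖) ^ 2 := by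
    refine Finset.sum_fiberwise_of_maps_to (fun p hp => ?_) _
    rw [Finset.mem_product] at hp
    exact T.add_mem n _ _ (hEH _ hp.1) (hEH _ hp.2)
  rw [h3, Finset.sum_product]
  have h4 : ∑ a ∈ T.Ef n, ∑ b ∈ T.Ef n, (‖y a‖ * ‖y b‖) ^ 2 = (∑ a ∈ T.Ef n, ‖y a‖ ^ 2) ^ 2 := by
    rw [sq (∑ a ∈ T.Ef n, ‖y a‖ ^ 2), Finset.sum_mul_sum]
    refine Finset.sum_congr rfl fun a _ => Finset.sum_congr rfl fun b _ => by ring
  rw [h4]

theorem moments {ι : Type*} (s : Finset ι) (f : ι → ℝ) (hf : ∀ i ∈ s, 0 ≤ f i) (m : ℝ)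
    (hm : 0 < m) (h4 : m⁻¹ * ∑ i ∈ s, f i ^ 4 ≤ 2 * (m⁻¹ * ∑ i ∈ s, f i ^ 2) ^ 2) :
    m⁻¹ * ∑ i ∈ s, f i ^ 2 ≤ 2 * (m⁻¹ * ∑ i ∈ s, f i) ^ 2 := by
  set A1 := m⁻¹ * ∑ i ∈ s, f i with hA1
  set A2 := m⁻¹ * ∑ i ∈ s, f i ^ 2 with hA2
  set A4 := m⁻¹ * ∑ i ∈ s, f i ^ 4 with hA4
  have h2n : 0 ≤ A2 := by
    have : 0 ≤ ∑ i ∈ s, f i ^ 2 := Finset.sum_nonneg fun i _ => by positivity
    positivity
  have h1n : 0 ≤ A1 := by
    have : 0 ≤ ∑ i ∈ s, f i := Finset.sum_nonneg hf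
    positivity
  rcases h2n.eq_or_lt with h0 | hpos
  · rw [← h0]; positivity
  · obtain ⟨l, hl, hl2⟩ : ∃ l : ℝ, 0 < l ∧ l ^ 2 = 2 * A2 :=
      ⟨√(2 * A2), Real.sqrt_pos.2 (by linarith), Real.sq_sqrt (by linarith)⟩
    have hpt : ∀ i ∈ s, 3 * l ^ 2 * f i ^ 2 ≤ 2 * l ^ 3 * f i + f i ^ 4 := by
      intro i hi
      have h := hf i hi
      have : 0 ≤ f i * (f i - l) ^ 2 * (f i + 2 * l) := by positivity
      nlinarith [this]
    have hs : 3 * l ^ 2 * A2 ≤ 2 * l ^ 3 * A1 + A4 := by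
      have h := Finset.sum_le_sum hpt
      rw [← Finset.mul_sum, Finset.sum_add_distrib, ← Finset.mul_sum] at h
      have h' := mul_le_mul_of_nonneg_left h (inv_nonneg.2 hm.le)
      rw [hA1, hA2, hA4]
      linarith
    have hl3 : l ^ 3 = l * (2 * A2) := by rw [← hl2]; ring
    rw [hl2, hl3] at hs
    have h5 : A2 ≤ l * A1 := by
      have : 4 * A2 * A2 ≤ 4 * A2 * (l * A1) := by nlinarith
      exact le_of_mul_le_mul_left this (by positivity)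
    have h6 : A2 ^ 2 ≤ (l * A1) ^ 2 := pow_le_pow_left₀ h2n h5 2
    have h7 : A2 * A2 ≤ A2 * (2 * A1 ^ 2) := by
      have : (l * A1) ^ 2 = l ^ 2 * A1 ^ 2 := by ring
      rw [this, hl2] at h6
      nlinarith
    exact le_of_mul_le_mul_left h7 hpos

/-- on the Sidon part the `L_2` norm is dominated by the `L_1` norm -/
theorem two_le_one (n : ℕ) (y : Γ →₀ ℂ) (hy : T.InY y) :
    (T.M n)⁻¹ * ∑ τ, ‖T.ev n τ y‖ ^ 2 ≤ 2 * (T.Nn n y) ^ 2 := by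
  refine moments _ _ (fun _ _ => norm_nonneg _) _ (T.M_pos n) ?_
  rw [T.parseval, T.sum_H_Y n y hy]
  exact T.fourth n y hy

/-- small sets carry little of a function with spectrum in the Sidon set -/
theorem small_set (n : ℕ) (y : Γ →₀ ℂ) (hy : T.InY y) (B : Finset (T.Om n)) :
    (T.M n)⁻¹ * ∑ τ ∈ B, ‖T.ev n τ y‖ ≤ √(2 * B.card / T.M n) * T.Nn n y := by
  have hM := T.M_pos n
  have h1 := T.two_le_one n y hy
  have h2 : (∑ τ ∈ B, ‖T.ev n τ y‖) ^ 2 ≤ B.card * ∑ τ ∈ B, ‖T.ev n τ y‖ ^ 2 :=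
    sq_sum_le_card_mul_sum_sq
  have h3 : ∑ τ ∈ B, ‖T.ev n τ y‖ ^ 2 ≤ ∑ τ, ‖T.ev n τ y‖ ^ 2 :=
    Finset.sum_le_sum_of_subset_of_nonneg (Finset.subset_univ B) fun _ _ _ => by positivity
  have h4 : ((T.M n)⁻¹ * ∑ τ ∈ B, ‖T.ev n τ y‖) ^ 2 ≤ (√(2 * B.card / T.M n) * T.Nn n y) ^ 2 := by
    rw [mul_pow, mul_pow, Real.sq_sqrt (by positivity)]
    calc (T.M n)⁻¹ ^ 2 * (∑ τ ∈ B, ‖T.ev n τ y‖) ^ 2
        ≤ (T.M n)⁻¹ ^ 2 * (B.card * ∑ τ, ‖T.ev n τ y‖ ^ 2) := by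
          gcongr
          exact h2.trans (mul_le_mul_of_nonneg_left h3 (by positivity))
      _ = (T.M n)⁻¹ * B.card * ((T.M n)⁻¹ * ∑ τ, ‖T.ev n τ y‖ ^ 2) := by ring
      _ ≤ (T.M n)⁻¹ * B.card * (2 * (T.Nn n y) ^ 2) := by gcongr
      _ = 2 * B.card / T.M n * T.Nn n y ^ 2 := by ring
  exact le_of_sq_le_sq h4 (mul_nonneg (Real.sqrt_nonneg _) (T.Nn_nonneg n y))

end Tow

end Pool.Agent.TH325.PI
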