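import Pool.Agent.TH325.PI.Sid

set_option autoImplicit false

open scoped ComplexConjugate
open Finset

namespace Pool.Agent.TH325.PI

/-- `q` exhibits the Banach space `X` as the completion of the quotient of the trigonometric
polynomials with the `L_1` norm by the polynomials with spectrum in the Sidon set. -/
structure Quo {Γ : Type} [AddCommGroup Γ] (T : Tow Γ) (X : Type) [NormedAddCommGroup X]
    [NormedSpace ℂ X] where
  /-- the quotient map -/
  q : (Γ →₀ ℂ) →ₗ[ℂ] X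
  q_le : ∀ c, ‖q c‖ ≤ T.N c
  q_Y : ∀ y, T.InY y → q y = 0
  q_inf : ∀ c (ε : ℝ), 0 < ε → ∃ y, T.InY y ∧ T.N (c - y) < ‖q c‖ + ε
  q_dense : DenseRange q

section Exist

variable {Γ : Type} [AddCommGroup Γ] (T : Tow Γ)

/-- trigonometric polynomials -/
def Pol (_T : Tow Γ) : Type := Γ →₀ ℂ

noncomputable instance : AddCommGroup (Pol T) := inferInstanceAs (AddCommGroup (Γ →₀ ℂ))
noncomputable instance : Module ℂ (Pol T) := inferInstanceAs (Module ℂ (Γ →₀ ℂ))
noncomputable instance : Norm (Pol T) := ⟨fun c => T.N c⟩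

theorem Pol.norm_def (c : Pol T) : ‖c‖ = T.N c := rfl

theorem Pol.core : SeminormedSpace.Core ℂ (Pol T) where
  norm_nonneg := fun c => T.N_nonneg c
  norm_smul := fun z c => T.N_smul z c
  norm_triangle := fun c d => T.N_add c d

noncomputable instance : SeminormedAddCommGroup (Pol T) := SeminormedAddCommGroup.ofCore (Pol.core T)

theorem Pol.norm_def' (c : Pol T) : ‖c‖ = T.N c := rfl

noncomputable instance : NormedSpace ℂ (Pol T) where
  norm_smul_le := fun z c => (T.N_smul z c).le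

/-- the identity map onto the normed space of polynomials -/
noncomputable def toPol : (Γ →₀ ℂ) ≃ₗ[ℂ] Pol T := LinearEquiv.refl ℂ (Γ →₀ ℂ)

theorem norm_toPol (c : Γ →₀ ℂ) : ‖toPol T c‖ = T.N c := rfl

/-- the polynomials with spectrum in the Sidon set -/
noncomputable def Y1 : Submodule ℂ (Γ →₀ ℂ) where
  carrier := {y | T.InY y}
  zero_mem' := by
    intro a ha
    exact absurd rfl ha
  add_mem' := by
    intro x y hx hy a ha
    rw [Finsupp.add_apply] at ha
    by_cases h : x a = 0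
    · rw [h, zero_add] at ha
      exact hy a ha
    · exact hx a h
  smul_mem' := by
    intro z y hy a ha
    rw [Finsupp.smul_apply, smul_eq_mul] at ha
    exact hy a (right_ne_zero_of_mul ha)

/-- the polynomials with spectrum in the Sidon set -/
noncomputable def Y0 : Submodule ℂ (Pol T) := (Y1 T).map (toPol T : (Γ →₀ ℂ) →ₗ[ℂ] Pol T)

theorem mem_Y0 (c : Γ →₀ ℂ) : toPol T c ∈ Y0 T ↔ T.InY c := by
  unfold Y0
  rw [Submodule.mem_map]
  constructor
  · rintro ⟨y, hy, h⟩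
    have : y = c := (toPol T).injective h
    rw [← this]
    exact hy
  · intro h
    exact ⟨c, h, rfl⟩

/-- the Banach space -/
abbrev Xsp : Type := UniformSpace.Completion (Pol T ⧸ Y0 T)

theorem exists_quo : Nonempty (Quo T (Xsp T)) := by
  refine ⟨⟨((UniformSpace.Completion.toComplₗᵢ (𝕜 := ℂ) (E := Pol T ⧸ Y0 T)).toLinearMap).comp
    (((Y0 T).mkQ : Pol T →ₗ[ℂ] (Pol T ⧸ Y0 T)).comp (toPol T : (Γ →₀ ℂ) →ₗ[ℂ] Pol T)),
    ?_, ?_, ?_, ?_⟩⟩
  · intro c
    have h : ‖(Submodule.Quotient.mk (toPol T c) : Pol T ⧸ Y0 T)‖ ≤ ‖toPol T c‖ :=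
      Submodule.Quotient.norm_mk_le (S := Y0 T) (toPol T c)
    have h2 : ‖(UniformSpace.Completion.toComplₗᵢ (𝕜 := ℂ) (E := Pol T ⧸ Y0 T))
      (Submodule.Quotient.mk (toPol T c))‖ = ‖(Submodule.Quotient.mk (toPol T c) : Pol T ⧸ Y0 T)‖ :=
      LinearIsometry.norm_map _ _
    exact h2.le.trans h
  · intro y hy
    have h : (Submodule.Quotient.mk (toPol T y) : Pol T ⧸ Y0 T) = 0 :=
      (Submodule.Quotient.mk_eq_zero (Y0 T)).2 ((mem_Y0 T y).2 hy)
    show (UniformSpace.Completion.toComplₗᵢ (𝕜 := ℂ) (E := Pol T ⧸ Y0 T))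
      (Submodule.Quotient.mk (toPol T y)) = 0
    rw [h, map_zero]
  · intro c ε hε
    have h2 : ‖(UniformSpace.Completion.toComplₗᵢ (𝕜 := ℂ) (E := Pol T ⧸ Y0 T))
      (Submodule.Quotient.mk (toPol T c))‖ = ‖(Submodule.Quotient.mk (toPol T c) : Pol T ⧸ Y0 T)‖ :=
      LinearIsometry.norm_map _ _
    obtain ⟨m, hm1, hm2⟩ := Submodule.Quotient.norm_mk_lt (S := Y0 T)
      (Submodule.Quotient.mk (toPol T c) : Pol T ⧸ Y0 T) hε
    obtain ⟨d, rfl⟩ : ∃ d, toPol T d = m := ⟨(toPol T).symm m, LinearEquiv.apply_symm_apply _ _⟩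
    have h3 : toPol T (c - d) ∈ Y0 T := by
      rw [map_sub, ← Submodule.Quotient.eq]
      exact hm1.symm
    refine ⟨c - d, (mem_Y0 T _).1 h3, ?_⟩
    have h4 : ‖toPol T d‖ < ‖(Submodule.Quotient.mk (toPol T c) : Pol T ⧸ Y0 T)‖ + ε := hm2
    rw [← h2, norm_toPol] at h4
    rw [sub_sub_cancel]
    exact h4
  · have h1 : DenseRange (UniformSpace.Completion.toComplₗᵢ (𝕜 := ℂ) (E := Pol T ⧸ Y0 T)) := by
      exact UniformSpace.Completion.denseRange_coe
    have h2 : DenseRange (fun c => (Submodule.Quotient.mk (toPol T c) : Pol T ⧸ Y0 T)) := by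
      have h3 : Function.Surjective
          (fun c => (Submodule.Quotient.mk (toPol T c) : Pol T ⧸ Y0 T)) :=
        (Submodule.Quotient.mk_surjective (Y0 T)).comp (toPol T).surjective
      exact h3.denseRange
    exact h1.comp h2 (UniformSpace.Completion.toComplₗᵢ (𝕜 := ℂ) (E := Pol T ⧸ Y0 T)).continuous

end Exist

/-- Hahn-Banach: a functional dominated by the norm of the image factors through the image. -/
theorem hb_range {S V : Type} [AddCommGroup S] [Module ℂ S] [NormedAddCommGroup V]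
    [NormedSpace ℂ V] (A : S →ₗ[ℂ] V) (f : S →ₗ[ℂ] ℂ) (C : ℝ) (hC : 0 ≤ C)
    (hbd : ∀ c, ‖f c‖ ≤ C * ‖A c‖) :
    ∃ F : V →L[ℂ] ℂ, (∀ c, F (A c) = f c) ∧ ∀ z, ‖F z‖ ≤ C * ‖z‖ := by
  have hker : LinearMap.ker A ≤ LinearMap.ker f := by
    intro c hc
    rw [LinearMap.mem_ker] at hc ⊢
    have := hbd c
    rw [hc, norm_zero, mul_zero] at this
    exact norm_le_zero_iff.1 this
  -- functional on the range
  obtain ⟨g, hg⟩ : ∃ g : LinearMap.range A →ₗ[ℂ] ℂ, ∀ c, g ⟨A c, ⟨c, rfl⟩⟩ = f c := by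
    let e := A.quotKerEquivRange
    refine ⟨((LinearMap.ker A).liftQ f hker).comp (e.symm : _ →ₗ[ℂ] _), fun c => ?_⟩
    have h1 : (e.symm ⟨A c, ⟨c, rfl⟩⟩ : S ⧸ LinearMap.ker A) =
        Submodule.Quotient.mk c := by
      rw [LinearEquiv.symm_apply_eq]
      rfl
    show (LinearMap.ker A).liftQ f hker (e.symm ⟨A c, ⟨c, rfl⟩⟩) = f c
    rw [h1]
    exact Submodule.liftQ_apply _ _ _
  have hgb : ∀ z, ‖g z‖ ≤ C * ‖z‖ := by
    rintro ⟨_, c, rfl⟩
    rw [hg]
    exact hbd c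
  let g' : LinearMap.range A →L[ℂ] ℂ := g.mkContinuous C hgb
  obtain ⟨F, hF1, hF2⟩ := exists_extension_norm_eq (LinearMap.range A) g'
  refine ⟨F, fun c => ?_, fun z => ?_⟩
  · have := hF1 ⟨A c, ⟨c, rfl⟩⟩
    rw [this]
    exact hg c
  · refine (F.le_opNorm z).trans ?_
    rw [hF2]
    exact mul_le_mul_of_nonneg_right (LinearMap.mkContinuous_norm_le _ hC _) (norm_nonneg _)

namespace Quo

variable {Γ : Type} [AddCommGroup Γ] {T : Tow Γ} {X : Type} [NormedAddCommGroup X]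
    [NormedSpace ℂ X] (Q : Quo T X)

/-- extension of functionals -/
theorem ext (f : (Γ →₀ ℂ) →ₗ[ℂ] ℂ) (C : ℝ) (hC : 0 ≤ C) (hf : ∀ c, ‖f c‖ ≤ C * T.N c)
    (hY : ∀ y, T.InY y → f y = 0) :
    ∃ F : X →L[ℂ] ℂ, (∀ c, F (Q.q c) = f c) ∧ ∀ z, ‖F z‖ ≤ C * ‖z‖ := by
  refine hb_range Q.q f C hC fun c => ?_
  refine le_of_forall_pos_le_add fun ε hε => ?_
  obtain ⟨y, hy, hlt⟩ := Q.q_inf c (ε / (C + 1)) (by positivity)
  have h1 : f c = f (c - y) := by rw [map_sub, hY y hy, sub_zero]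
  rw [h1]
  refine (hf _).trans ?_
  have h2 : C * T.N (c - y) ≤ C * (‖Q.q c‖ + ε / (C + 1)) := mul_le_mul_of_nonneg_left hlt.le hC
  refine h2.trans ?_
  rw [mul_add]
  have h3 : C * (ε / (C + 1)) ≤ ε := by
    rw [mul_div_assoc', div_le_iff₀ (by linarith)]
    nlinarith
  linarith

end Quo

end Pool.Agent.TH325.PI
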