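import Mathlib

set_option autoImplicit false

open scoped ComplexConjugate
open Finset

namespace Pool.Agent.TH325.PI

/-- A discrete abelian group exhausted by finite subgroups `H n`, with the characters `ch n τ`
of `H n` (extended by zero), and a Sidon set `E` whose traces on the finite subgroups are almost
equidistributed. -/
structure Tow (Γ : Type) [AddCommGroup Γ] where
  /-- index set for the characters of `H n` -/
  Om : ℕ → Type
  finOm : ∀ n, Fintype (Om n)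
  /-- the finite subgroup -/
  H : ℕ → Finset Γ
  zero_mem : ∀ n, (0 : Γ) ∈ H n
  add_mem : ∀ n a b, a ∈ H n → b ∈ H n → a + b ∈ H n
  neg_mem : ∀ n a, a ∈ H n → -a ∈ H n
  mono : ∀ m n, m ≤ n → H m ⊆ H n
  exhaust : ∀ a, ∃ n, a ∈ H n
  /-- the characters -/
  ch : ∀ n, Om n → Γ → ℂ
  ch_out : ∀ n τ a, a ∉ H n → ch n τ a = 0
  ch_norm : ∀ n τ a, a ∈ H n → ‖ch n τ a‖ = 1
  ch_add : ∀ n τ a b, a ∈ H n → b ∈ H n → ch n τ (a + b) = ch n τ a * ch n τ b
  ch_neg : ∀ n τ a, ch n τ (-a) = conj (ch n τ a)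
  sum_ch : ∀ n a, ∑ τ, ch n τ a = open Classical in if a = 0 then ((H n).card : ℂ) else 0
  orth : ∀ n τ τ', ∑ a ∈ H n, ch n τ a * conj (ch n τ' a) =
    open Classical in if τ = τ' then ((H n).card : ℂ) else 0
  /-- restriction of characters -/
  res : ∀ m n, Om n → Om m
  res_ch : ∀ m n, m ≤ n → ∀ τ a, a ∈ H m → ch m (res m n τ) a = ch n τ a
  /-- the Sidon set -/
  E : Set Γ
  sidon : ∀ a b c d, a ∈ E → b ∈ E → c ∈ E → d ∈ E → a + b = c + d →
    (a = c ∧ b = d) ∨ (a = d ∧ b = c)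
  /-- the trace of the Sidon set -/
  Ef : ℕ → Finset Γ
  mem_Ef : ∀ n a, a ∈ Ef n ↔ a ∈ E ∧ a ∈ H n
  /-- the bias -/
  bi : ℕ → ℝ
  bias : ∀ n τ τ', τ ≠ τ' → ‖∑ a ∈ Ef n, ch n τ a * conj (ch n τ' a)‖ ≤ bi n * (Ef n).card
  bi_lim : Filter.Tendsto bi Filter.atTop (nhds 0)
  card_lim : Filter.Tendsto (fun n => ((Ef n).card : ℝ)) Filter.atTop Filter.atTop
  rho_lim : Filter.Tendsto (fun n => ((Ef n).card : ℝ) / ((H n).card : ℝ)) Filter.atTop (nhds 0)

attribute [instance] Tow.finOm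

namespace Tow

variable {Γ : Type} [AddCommGroup Γ] (T : Tow Γ)

/-- the order of the finite subgroup -/
noncomputable def M (n : ℕ) : ℝ := ((T.H n).card : ℝ)

theorem M_pos (n : ℕ) : 0 < T.M n := by
  have : 0 < (T.H n).card := Finset.card_pos.2 ⟨0, T.zero_mem n⟩
  unfold M
  exact_mod_cast this

theorem M_ne (n : ℕ) : (T.M n : ℂ) ≠ 0 := by exact_mod_cast (T.M_pos n).ne'

theorem M_cast (n : ℕ) : ((T.H n).card : ℂ) = (T.M n : ℂ) := by
  simp [M]

/-- evaluation of a trigonometric polynomial at a character of level `n` -/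
noncomputable def ev (n : ℕ) (τ : T.Om n) : (Γ →₀ ℂ) →ₗ[ℂ] ℂ :=
  Finsupp.linearCombination ℂ (T.ch n τ)

theorem ev_single (n : ℕ) (τ : T.Om n) (a : Γ) (z : ℂ) :
    T.ev n τ (Finsupp.single a z) = z * T.ch n τ a := by
  simp [ev]

theorem ch_le (n : ℕ) (τ : T.Om n) (a : Γ) : ‖T.ch n τ a‖ ≤ 1 := by
  by_cases h : a ∈ T.H n
  · exact (T.ch_norm n τ a h).le
  · rw [T.ch_out n τ a h]; simp

theorem ch_mul_conj (n : ℕ) (a b : Γ) (ha : a ∈ T.H n) (τ : T.Om n) :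
    conj (T.ch n τ a) * T.ch n τ b = T.ch n τ (b - a) := by
  by_cases hb : b ∈ T.H n
  · rw [sub_eq_add_neg, T.ch_add n τ b (-a) hb (T.neg_mem n a ha), T.ch_neg, mul_comm]
  · rw [T.ch_out n τ b hb, T.ch_out n τ (b - a), mul_zero]
    intro h
    apply hb
    have := T.add_mem n _ _ h ha
    simpa using this

/-- the average of `conj (ch τ a) * ch τ b` -/
theorem sum_conj_ch (n : ℕ) (a b : Γ) (ha : a ∈ T.H n) :
    ∑ τ, conj (T.ch n τ a) * T.ch n τ b = open Classical in if a = b then (T.M n : ℂ) else 0 := by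
  classical
  have h : ∀ τ, conj (T.ch n τ a) * T.ch n τ b = T.ch n τ (b - a) := T.ch_mul_conj n a b ha
  simp only [h]
  rw [T.sum_ch, T.M_cast]
  by_cases hab : a = b
  · rw [if_pos hab, if_pos (by rw [hab, sub_self])]
  · rw [if_neg hab, if_neg]
    intro h0
    exact hab (sub_eq_zero.1 h0).symm

/-- Fourier inversion -/
theorem coef (n : ℕ) (c : Γ →₀ ℂ) (a : Γ) (ha : a ∈ T.H n) :
    (T.M n : ℂ)⁻¹ * ∑ τ, conj (T.ch n τ a) * T.ev n τ c = c a := by
  classical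
  induction c using Finsupp.induction_linear with
  | zero => simp
  | add f g hf hg =>
    simp only [map_add, mul_add, Finset.sum_add_distrib, Finsupp.add_apply]
    rw [hf, hg]
  | single b z =>
    simp only [ev_single]
    have h : ∀ τ, conj (T.ch n τ a) * (z * T.ch n τ b) =
        z * (conj (T.ch n τ a) * T.ch n τ b) := fun τ => by ring
    simp only [h]
    rw [← Finset.mul_sum, T.sum_conj_ch n a b ha, Finsupp.single_apply]
    by_cases hab : a = b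
    · rw [if_pos hab, if_pos hab.symm]
      field_simp [T.M_ne n]
    · rw [if_neg hab, if_neg (fun h => hab h.symm)]
      simp

/-- the normalized `L_1` norm at level `n` -/
noncomputable def Nn (n : ℕ) (c : Γ →₀ ℂ) : ℝ := (T.M n)⁻¹ * ∑ τ, ‖T.ev n τ c‖

theorem Nn_nonneg (n : ℕ) (c : Γ →₀ ℂ) : 0 ≤ T.Nn n c := by
  have := (T.M_pos n).le
  unfold Nn
  positivity

theorem Nn_add (n : ℕ) (c d : Γ →₀ ℂ) : T.Nn n (c + d) ≤ T.Nn n c + T.Nn n d := by
  unfold Nn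
  rw [← mul_add, ← Finset.sum_add_distrib]
  have := (T.M_pos n).le
  gcongr with τ _
  rw [map_add]
  exact norm_add_le _ _

theorem Nn_smul (n : ℕ) (z : ℂ) (c : Γ →₀ ℂ) : T.Nn n (z • c) = ‖z‖ * T.Nn n c := by
  unfold Nn
  simp only [map_smul, smul_eq_mul, norm_mul]
  rw [← Finset.mul_sum]
  ring

theorem coef_le (n : ℕ) (c : Γ →₀ ℂ) (a : Γ) (ha : a ∈ T.H n) : ‖c a‖ ≤ T.Nn n c := by
  rw [← T.coef n c a ha, norm_mul, norm_inv, Complex.norm_real, Real.norm_of_nonneg (T.M_pos n).le]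
  unfold Nn
  have := (T.M_pos n).le
  gcongr
  refine (norm_sum_le _ _).trans (Finset.sum_le_sum fun τ _ => ?_)
  rw [norm_mul, RCLike.norm_conj]
  exact mul_le_of_le_one_left (norm_nonneg _) (T.ch_le n τ a)

theorem card_Om (n : ℕ) : (Fintype.card (T.Om n) : ℝ) = T.M n := by
  have h := T.sum_ch n 0
  have h1 : ∀ τ, T.ch n τ 0 = 1 := by
    intro τ
    have e := T.ch_add n τ 0 0 (T.zero_mem n) (T.zero_mem n)
    rw [add_zero] at e
    have h0 : T.ch n τ 0 ≠ 0 := by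
      intro h0
      have := T.ch_norm n τ 0 (T.zero_mem n)
      rw [h0] at this
      simp at this
    exact (mul_eq_left₀ h0).1 e.symm
  simp only [h1, if_pos] at h
  rw [Finset.sum_const, Finset.card_univ] at h
  simp only [nsmul_eq_mul, mul_one] at h
  have h2 : (Fintype.card (T.Om n)) = (T.H n).card := by exact_mod_cast h
  rw [h2]; rfl

theorem ev_le (n : ℕ) (τ : T.Om n) (c : Γ →₀ ℂ) : ‖T.ev n τ c‖ ≤ ∑ a ∈ c.support, ‖c a‖ := by
  have : T.ev n τ c = ∑ a ∈ c.support, c a * T.ch n τ a := by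
    simp [ev, Finsupp.linearCombination_apply, Finsupp.sum]
  rw [this]
  refine (norm_sum_le _ _).trans (Finset.sum_le_sum fun a _ => ?_)
  rw [norm_mul]
  exact mul_le_of_le_one_right (norm_nonneg _) (T.ch_le n τ a)

theorem Nn_le_of_ev (n : ℕ) (c : Γ →₀ ℂ) (C : ℝ) (h : ∀ τ, ‖T.ev n τ c‖ ≤ C) : T.Nn n c ≤ C := by
  unfold Nn
  have hM := T.M_pos n
  rw [inv_mul_le_iff₀ hM]
  refine (Finset.sum_le_sum fun τ _ => h τ).trans ?_
  rw [Finset.sum_const, Finset.card_univ, nsmul_eq_mul, T.card_Om n]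

theorem Nn_le (n : ℕ) (c : Γ →₀ ℂ) : T.Nn n c ≤ ∑ a ∈ c.support, ‖c a‖ :=
  T.Nn_le_of_ev n c _ fun τ => T.ev_le n τ c

/-- averages of a function of the restriction of a character, against a character -/
theorem lift_ch (m n : ℕ) (hmn : m ≤ n) (φ : T.Om m → ℂ) (b : Γ) :
    (T.M n : ℂ)⁻¹ * ∑ τ, φ (T.res m n τ) * T.ch n τ b =
      (T.M m : ℂ)⁻¹ * ∑ τ, φ τ * T.ch m τ b := by
  classical
  -- expand `φ` in evaluations
  have key : ∀ σ : T.Om m, (if σ = σ then (1 : ℂ) else 0) = 1 := by simp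
  have hφ : ∀ σ : T.Om m, φ σ = ∑ σ', φ σ' * ((T.M m : ℂ)⁻¹ *
      ∑ a ∈ T.H m, T.ch m σ a * conj (T.ch m σ' a)) := by
    intro σ
    simp only [T.orth, T.M_cast]
    have : ∀ σ', φ σ' * ((T.M m : ℂ)⁻¹ * (if σ = σ' then (T.M m : ℂ) else 0)) =
        if σ = σ' then φ σ' else 0 := by
      intro σ'
      by_cases h : σ = σ'
      · rw [if_pos h, if_pos h, inv_mul_cancel₀ (T.M_ne m), mul_one]
      · rw [if_neg h, if_neg h]; simp
    simp only [this]
    simp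
  -- it suffices to treat evaluations
  have hev : ∀ a ∈ T.H m, (T.M n : ℂ)⁻¹ * ∑ τ, T.ch m (T.res m n τ) a * T.ch n τ b =
      (T.M m : ℂ)⁻¹ * ∑ τ, T.ch m τ a * T.ch m τ b := by
    intro a ha
    have han := T.mono m n hmn ha
    have h1 : ∀ τ, T.ch m (T.res m n τ) a * T.ch n τ b = conj (T.ch n τ (-a)) * T.ch n τ b := by
      intro τ
      rw [T.res_ch m n hmn τ a ha, T.ch_neg]
      simp
    have h2 : ∀ τ, T.ch m τ a * T.ch m τ b = conj (T.ch m τ (-a)) * T.ch m τ b := by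
      intro τ
      rw [T.ch_neg]
      simp
    simp only [h1, h2]
    rw [T.sum_conj_ch n (-a) b (T.neg_mem n a han), T.sum_conj_ch m (-a) b (T.neg_mem m a ha)]
    by_cases h : -a = b
    · rw [if_pos h, if_pos h, inv_mul_cancel₀ (T.M_ne n), inv_mul_cancel₀ (T.M_ne m)]
    · rw [if_neg h, if_neg h]; simp
  have expandn : ∑ τ, φ (T.res m n τ) * T.ch n τ b = ∑ σ', ∑ a ∈ T.H m,
      φ σ' * (T.M m : ℂ)⁻¹ * conj (T.ch m σ' a) * ∑ τ, T.ch m (T.res m n τ) a * T.ch n τ b := by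
    have : ∀ τ, φ (T.res m n τ) * T.ch n τ b = ∑ σ', ∑ a ∈ T.H m,
        φ σ' * (T.M m : ℂ)⁻¹ * conj (T.ch m σ' a) * (T.ch m (T.res m n τ) a * T.ch n τ b) := by
      intro τ
      rw [hφ (T.res m n τ), Finset.sum_mul]
      refine Finset.sum_congr rfl fun σ' _ => ?_
      rw [Finset.mul_sum, Finset.mul_sum, Finset.sum_mul]
      refine Finset.sum_congr rfl fun a _ => ?_
      ring
    simp only [this]
    rw [Finset.sum_comm]
    refine Finset.sum_congr rfl fun σ' _ => ?_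
    rw [Finset.sum_comm]
    refine Finset.sum_congr rfl fun a _ => ?_
    rw [Finset.mul_sum]
  have expandm : ∑ τ, φ τ * T.ch m τ b = ∑ σ', ∑ a ∈ T.H m,
      φ σ' * (T.M m : ℂ)⁻¹ * conj (T.ch m σ' a) * ∑ τ, T.ch m τ a * T.ch m τ b := by
    have : ∀ τ, φ τ * T.ch m τ b = ∑ σ', ∑ a ∈ T.H m,
        φ σ' * (T.M m : ℂ)⁻¹ * conj (T.ch m σ' a) * (T.ch m τ a * T.ch m τ b) := by
      intro τ
      conv_lhs => rw [hφ τ]
      rw [Finset.sum_mul]
      refine Finset.sum_congr rfl fun σ' _ => ?_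
      rw [Finset.mul_sum, Finset.mul_sum, Finset.sum_mul]
      refine Finset.sum_congr rfl fun a _ => ?_
      ring
    simp only [this]
    rw [Finset.sum_comm]
    refine Finset.sum_congr rfl fun σ' _ => ?_
    rw [Finset.sum_comm]
    refine Finset.sum_congr rfl fun a _ => ?_
    rw [Finset.mul_sum]
  rw [expandn, expandm, Finset.mul_sum, Finset.mul_sum]
  refine Finset.sum_congr rfl fun σ' _ => ?_
  rw [Finset.mul_sum, Finset.mul_sum]
  refine Finset.sum_congr rfl fun a ha => ?_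
  have := hev a ha
  calc (T.M n : ℂ)⁻¹ * (φ σ' * (T.M m : ℂ)⁻¹ * conj (T.ch m σ' a) *
        ∑ τ, T.ch m (T.res m n τ) a * T.ch n τ b)
      = φ σ' * (T.M m : ℂ)⁻¹ * conj (T.ch m σ' a) * ((T.M n : ℂ)⁻¹ *
        ∑ τ, T.ch m (T.res m n τ) a * T.ch n τ b) := by ring
    _ = φ σ' * (T.M m : ℂ)⁻¹ * conj (T.ch m σ' a) * ((T.M m : ℂ)⁻¹ *
        ∑ τ, T.ch m τ a * T.ch m τ b) := by rw [this]
    _ = _ := by ring

/-- averages of a function of the restriction of a character, against a polynomial -/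
theorem lift_ev (m n : ℕ) (hmn : m ≤ n) (φ : T.Om m → ℂ) (c : Γ →₀ ℂ) :
    (T.M n : ℂ)⁻¹ * ∑ τ, φ (T.res m n τ) * T.ev n τ c =
      (T.M m : ℂ)⁻¹ * ∑ τ, φ τ * T.ev m τ c := by
  induction c using Finsupp.induction_linear with
  | zero => simp
  | add f g hf hg =>
    simp only [map_add, mul_add, Finset.sum_add_distrib]
    rw [hf, hg]
  | single b z =>
    simp only [ev_single]
    have h1 : ∀ τ, φ (T.res m n τ) * (z * T.ch n τ b) = z * (φ (T.res m n τ) * T.ch n τ b) :=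
      fun τ => by ring
    have h2 : ∀ τ, φ τ * (z * T.ch m τ b) = z * (φ τ * T.ch m τ b) := fun τ => by ring
    simp only [h1, h2]
    rw [← Finset.mul_sum, ← Finset.mul_sum]
    have := T.lift_ch m n hmn φ b
    linear_combination z * this

theorem lift_one (m n : ℕ) (hmn : m ≤ n) (φ : T.Om m → ℂ) :
    (T.M n : ℂ)⁻¹ * ∑ τ, φ (T.res m n τ) = (T.M m : ℂ)⁻¹ * ∑ τ, φ τ := by
  have h := T.lift_ch m n hmn φ 0
  have h1 : ∀ n τ, T.ch n τ 0 = 1 := by
    intro n τ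
    have e := T.ch_add n τ 0 0 (T.zero_mem n) (T.zero_mem n)
    rw [add_zero] at e
    have h0 : T.ch n τ 0 ≠ 0 := by
      intro h0
      have := T.ch_norm n τ 0 (T.zero_mem n)
      rw [h0] at this
      simp at this
    exact (mul_eq_left₀ h0).1 e.symm
  simpa only [h1, mul_one] using h

theorem lift_one_real (m n : ℕ) (hmn : m ≤ n) (φ : T.Om m → ℝ) :
    (T.M n)⁻¹ * ∑ τ, φ (T.res m n τ) = (T.M m)⁻¹ * ∑ τ, φ τ := by
  have h := T.lift_one m n hmn (fun τ => (φ τ : ℂ))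
  have := congrArg Complex.re h
  rw [← Complex.ofReal_sum, ← Complex.ofReal_sum, ← Complex.ofReal_inv, ← Complex.ofReal_inv,
    ← Complex.ofReal_mul, ← Complex.ofReal_mul, Complex.ofReal_re, Complex.ofReal_re] at this
  exact this

theorem phase (z : ℂ) : ∃ u : ℂ, ‖u‖ = 1 ∧ u * z = (‖z‖ : ℂ) := by
  by_cases hz : z = 0
  · exact ⟨1, by simp, by simp [hz]⟩
  · refine ⟨(‖z‖ : ℂ) / z, ?_, ?_⟩
    · rw [norm_div, Complex.norm_real, norm_norm, div_self (norm_ne_zero_iff.2 hz)]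
    · field_simp

/-- pairing bound at one level -/
theorem pair_le (n : ℕ) (φ : T.Om n → ℂ) (C : ℝ) (hφ : ∀ τ, ‖φ τ‖ ≤ C) (c : Γ →₀ ℂ) :
    ‖(T.M n : ℂ)⁻¹ * ∑ τ, φ τ * T.ev n τ c‖ ≤ C * T.Nn n c := by
  rw [norm_mul, norm_inv, Complex.norm_real, Real.norm_of_nonneg (T.M_pos n).le]
  unfold Nn
  have hM := T.M_pos n
  have h : ‖∑ τ, φ τ * T.ev n τ c‖ ≤ C * ∑ τ, ‖T.ev n τ c‖ := by
    rw [Finset.mul_sum]
    refine (norm_sum_le _ _).trans (Finset.sum_le_sum fun τ _ => ?_)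
    rw [norm_mul]
    exact mul_le_mul_of_nonneg_right (hφ τ) (norm_nonneg _)
  calc (T.M n)⁻¹ * ‖∑ τ, φ τ * T.ev n τ c‖ ≤ (T.M n)⁻¹ * (C * ∑ τ, ‖T.ev n τ c‖) := by gcongr
    _ = _ := by ring

theorem Nn_mono (m n : ℕ) (hmn : m ≤ n) (c : Γ →₀ ℂ) : T.Nn m c ≤ T.Nn n c := by
  choose φ h1 h2 using fun τ : T.Om m => phase (T.ev m τ c)
  have e := T.lift_ev m n hmn φ c
  have h3 : (T.M m : ℂ)⁻¹ * ∑ τ, φ τ * T.ev m τ c = (T.Nn m c : ℂ) := by
    simp only [h2]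
    unfold Nn
    push_cast
    rfl
  have h4 := T.pair_le n (fun τ => φ (T.res m n τ)) 1 (fun τ => (h1 _).le) c
  rw [e, h3, Complex.norm_real, Real.norm_of_nonneg (T.Nn_nonneg m c), one_mul] at h4
  exact h4

theorem ev_res (m n : ℕ) (hmn : m ≤ n) (c : Γ →₀ ℂ) (hc : ∀ a, c a ≠ 0 → a ∈ T.H m)
    (τ : T.Om n) : T.ev n τ c = T.ev m (T.res m n τ) c := by
  simp only [ev, Finsupp.linearCombination_apply, Finsupp.sum]
  refine Finset.sum_congr rfl fun a ha => ?_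
  rw [T.res_ch m n hmn τ a (hc a (Finsupp.mem_support_iff.1 ha))]

theorem Nn_eq (m n : ℕ) (hmn : m ≤ n) (c : Γ →₀ ℂ) (hc : ∀ a, c a ≠ 0 → a ∈ T.H m) :
    T.Nn n c = T.Nn m c := by
  unfold Nn
  rw [← T.lift_one_real m n hmn]
  congr 1
  refine Finset.sum_congr rfl fun τ _ => ?_
  rw [T.ev_res m n hmn c hc]

/-- the `L_1` norm -/
noncomputable def N (c : Γ →₀ ℂ) : ℝ := ⨆ n, T.Nn n c

theorem N_bdd (c : Γ →₀ ℂ) : BddAbove (Set.range fun n => T.Nn n c) := by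
  refine ⟨∑ a ∈ c.support, ‖c a‖, ?_⟩
  rintro _ ⟨n, rfl⟩
  exact T.Nn_le n c

theorem Nn_le_N (n : ℕ) (c : Γ →₀ ℂ) : T.Nn n c ≤ T.N c := le_ciSup (T.N_bdd c) n

theorem N_nonneg (c : Γ →₀ ℂ) : 0 ≤ T.N c := (T.Nn_nonneg 0 c).trans (T.Nn_le_N 0 c)

theorem N_eq (m : ℕ) (c : Γ →₀ ℂ) (hc : ∀ a, c a ≠ 0 → a ∈ T.H m) : T.N c = T.Nn m c := by
  apply le_antisymm
  · refine ciSup_le fun n => ?_
    rcases le_total n m with h | h
    · exact T.Nn_mono n m h c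
    · exact (T.Nn_eq m n h c hc).le
  · exact T.Nn_le_N m c

theorem N_add (c d : Γ →₀ ℂ) : T.N (c + d) ≤ T.N c + T.N d := by
  refine ciSup_le fun n => (T.Nn_add n c d).trans ?_
  exact add_le_add (T.Nn_le_N n c) (T.Nn_le_N n d)

theorem N_smul_le (z : ℂ) (c : Γ →₀ ℂ) : T.N (z • c) ≤ ‖z‖ * T.N c := by
  refine ciSup_le fun n => ?_
  rw [T.Nn_smul]
  exact mul_le_mul_of_nonneg_left (T.Nn_le_N n c) (norm_nonneg _)

theorem N_zero : T.N 0 = 0 := by
  apply le_antisymm _ (T.N_nonneg 0)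
  refine ciSup_le fun n => ?_
  unfold Nn
  simp

theorem N_smul (z : ℂ) (c : Γ →₀ ℂ) : T.N (z • c) = ‖z‖ * T.N c := by
  apply le_antisymm (T.N_smul_le z c)
  by_cases hz : z = 0
  · subst hz
    rw [zero_smul, T.N_zero, norm_zero, zero_mul]
  · have h := T.N_smul_le z⁻¹ (z • c)
    rw [smul_smul, inv_mul_cancel₀ hz, one_smul, norm_inv] at h
    have hz' : 0 < ‖z‖ := norm_pos_iff.2 hz
    calc ‖z‖ * T.N c ≤ ‖z‖ * (‖z‖⁻¹ * T.N (z • c)) := mul_le_mul_of_nonneg_left h hz'.le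
      _ = T.N (z • c) := by field_simp

theorem N_neg (c : Γ →₀ ℂ) : T.N (-c) = T.N c := by
  have := T.N_smul (-1) c
  rwa [neg_one_smul, norm_neg, norm_one, one_mul] at this

theorem coef_le_N (c : Γ →₀ ℂ) (a : Γ) : ‖c a‖ ≤ T.N c := by
  obtain ⟨n, hn⟩ := T.exhaust a
  exact (T.coef_le n c a hn).trans (T.Nn_le_N n c)

theorem N_le_of_ev (m : ℕ) (c : Γ →₀ ℂ) (hc : ∀ a, c a ≠ 0 → a ∈ T.H m) (C : ℝ)
    (h : ∀ τ, ‖T.ev m τ c‖ ≤ C) : T.N c ≤ C := by
  rw [T.N_eq m c hc]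
  exact T.Nn_le_of_ev m c C h

theorem N_single (a : Γ) (z : ℂ) : T.N (Finsupp.single a z) ≤ ‖z‖ := by
  refine ciSup_le fun n => T.Nn_le_of_ev n _ _ fun τ => ?_
  rw [ev_single, norm_mul]
  exact mul_le_of_le_one_right (norm_nonneg _) (T.ch_le n τ a)

/-- every finite family of polynomials lives at a common level -/
theorem exists_level (s : Finset (Γ →₀ ℂ)) (n₀ : ℕ) :
    ∃ m, n₀ ≤ m ∧ ∀ n, m ≤ n → ∀ c ∈ s, ∀ a, c a ≠ 0 → a ∈ T.H n := by
  classical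
  choose f hf using T.exhaust
  refine ⟨n₀ ⊔ s.sup (fun c => c.support.sup f), le_sup_left, fun n hn c hc a ha => ?_⟩
  refine T.mono (f a) n ?_ (hf a)
  refine le_trans ?_ hn
  refine le_trans ?_ le_sup_right
  refine le_trans ?_ (Finset.le_sup hc)
  exact Finset.le_sup (Finsupp.mem_support_iff.2 ha)

theorem exists_level_one (c : Γ →₀ ℂ) : ∃ m, ∀ n, m ≤ n → ∀ a, c a ≠ 0 → a ∈ T.H n := by
  obtain ⟨m, _, hm⟩ := T.exists_level {c} 0
  exact ⟨m, fun n hn a ha => hm n hn c (Finset.mem_singleton_self _) a ha⟩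

/-- the indicator function of the cell `τ` -/
noncomputable def ind (n : ℕ) (τ : T.Om n) : Γ →₀ ℂ :=
  (T.M n : ℂ)⁻¹ • ∑ a ∈ T.H n, Finsupp.single a (conj (T.ch n τ a))

theorem ind_apply (n : ℕ) (τ : T.Om n) (b : Γ) :
    T.ind n τ b = (T.M n : ℂ)⁻¹ * conj (T.ch n τ b) := by
  classical
  simp only [ind, Finsupp.smul_apply, smul_eq_mul, Finsupp.coe_finsetSum, Finset.sum_apply,
    Finsupp.single_apply]
  rw [Finset.sum_ite_eq' (T.H n) b]
  by_cases hb : b ∈ T.H n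
  · rw [if_pos hb]
  · rw [if_neg hb, T.ch_out n τ b hb]; simp

theorem ind_supp (n : ℕ) (τ : T.Om n) (b : Γ) (hb : T.ind n τ b ≠ 0) : b ∈ T.H n := by
  by_contra h
  apply hb
  rw [ind_apply, T.ch_out n τ b h]
  simp

theorem ev_ind (n : ℕ) (τ τ' : T.Om n) :
    T.ev n τ' (T.ind n τ) = open Classical in if τ = τ' then 1 else 0 := by
  classical
  unfold ind
  rw [map_smul, map_sum]
  simp only [ev_single, smul_eq_mul]
  have h1 : ∑ a ∈ T.H n, conj (T.ch n τ a) * T.ch n τ' a =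
      ∑ a ∈ T.H n, T.ch n τ' a * conj (T.ch n τ a) :=
    Finset.sum_congr rfl fun a _ => mul_comm _ _
  rw [h1, T.orth, T.M_cast]
  by_cases h : τ = τ'
  · rw [if_pos h, if_pos h.symm, inv_mul_cancel₀ (T.M_ne n)]
  · rw [if_neg h, if_neg (fun h' => h h'.symm), mul_zero]

theorem N_ind (n : ℕ) (τ : T.Om n) : T.N (T.ind n τ) = (T.M n)⁻¹ := by
  classical
  rw [T.N_eq n _ (T.ind_supp n τ)]
  unfold Nn
  have : ∀ τ', ‖T.ev n τ' (T.ind n τ)‖ = if τ = τ' then 1 else 0 := by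
    intro τ'
    rw [ev_ind]
    by_cases h : τ = τ'
    · rw [if_pos h, if_pos h, norm_one]
    · rw [if_neg h, if_neg h, norm_zero]
  simp only [this]
  simp

/-- expansion in cells -/
theorem expand (n : ℕ) (c : Γ →₀ ℂ) (hc : ∀ a, c a ≠ 0 → a ∈ T.H n) :
    c = ∑ τ, T.ev n τ c • T.ind n τ := by
  classical
  ext b
  simp only [Finsupp.coe_finsetSum, Finset.sum_apply, Finsupp.smul_apply, smul_eq_mul, ind_apply]
  by_cases hb : b ∈ T.H n
  · rw [← T.coef n c b hb, Finset.mul_sum]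
    refine Finset.sum_congr rfl fun τ _ => by ring
  · have h0 : c b = 0 := by
      by_contra h
      exact hb (hc b h)
    rw [h0]
    symm
    refine Finset.sum_eq_zero fun τ _ => ?_
    rw [T.ch_out n τ b hb]
    simp

end Tow

end Pool.Agent.TH325.PI
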